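import Pool.Agent.Q223.MM.Red

/-!
# The motivic monodromy conjecture over a field: the reduction to programs
-/

set_option autoImplicit false
set_option linter.unusedSectionVars false

namespace Pool.Agent.Q223.TW

open MvPolynomial Pool.Agent.H628R4.TP Pool.Agent.Y229.MS Pool.Agent.Q223.MM
open Pool.Agent.W428.MOT (Pt Constr ratRing Lu MK)
open Pool.Agent.W375.MG (zetaG zetaW zetaW_eq ratRing_mono good_one)
open Pool.Agent.Y229.PG (BecomesG becomes_global)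
open Pool.Agent.Y229.RE (stab)

variable {k : Type} [Field k] [Algebra k ℂ]

/-- If `b ≠ 0` and `b(s) f ^ s = P(s) f ^ (s + 1)`, there is a finite set `S` of pairs `(a, d)` with `d > 0`
such that the motivic zeta function of `f` is in `𝓜_k[T, 1 / (1 - 𝕃 ^ a T ^ d)]_{(a, d) ∈ S}`, and for
every pair in `S` there is an integer `j` with `b(a / d + j) = 0`. -/
def WeakM {n : ℕ} (f : MvPolynomial (Fin n) k) : Prop :=
  ∀ b : Polynomial ℂ, b ≠ 0 → IsBFunction (map (algebraMap k ℂ) f) b →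
    ∃ S : Finset (ℤ × ℤ), (∀ p ∈ S, 0 < p.2 ∧ ∃ j : ℤ, b.eval ((p.1 : ℂ) / p.2 + j) = 0) ∧
      zetaW f Set.univ ∈ ratRing k S

/-- The polynomial `a + ∑ c_m z_m + ∑ y_m (z_m - z_(o m) x_(v m))`, where `z_(o m)` is `1` if
`o m = none`; the variables are `x_1, …, x_n`, `y_1, …, y_κ`, `z_1, …, z_κ` in this order. -/
noncomputable def progA {n κ : ℕ} (o : Fin κ → Option (Fin κ)) (v : Fin κ → Fin n)
    (c : Fin κ → k) (a : k) : MvPolynomial (Fin (n + (κ + κ))) k :=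
  C a + ∑ m, (C (c m) * X (Fin.natAdd n (Fin.natAdd κ m)) +
    X (Fin.natAdd n (Fin.castAdd κ m)) * (X (Fin.natAdd n (Fin.natAdd κ m)) -
      ((o m).elim 1 fun m' => X (Fin.natAdd n (Fin.natAdd κ m'))) *
        X (Fin.castAdd (κ + κ) (v m))))

theorem map_deg {n : ℕ} {f : MvPolynomial (Fin n) k} (hf : f.totalDegree ≠ 0) :
    (map (algebraMap k ℂ) f).totalDegree ≠ 0 := by
  rw [totalDegree, support_map_of_injective _ (algebraMap k ℂ).injective]
  exact hf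

/-- the zeta function of `itr f κ` -/
theorem zeta_itrW [CharZero k] {n κ : ℕ} (f : MvPolynomial (Fin n) k)
    {F : MvPolynomial (Fin (n + (κ + κ))) k}
    (ψ : MvPolynomial (Fin (n + (κ + κ))) k ≃ₐ[k] MvPolynomial (Fin (n + (κ + κ))) k)
    (hψ : ψ (stabK f κ) = F) :
    zetaG (itr f κ) (Witr Set.univ κ) {1} = zetaW F Set.univ := by
  obtain ⟨χ, hχ⟩ := Pool.Agent.Y405.MS.itr k f κ
  have h1 := zeta_iso Pool.Agent.Z864.MS.three (by ring) (χ.trans ψ) (itr f κ)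
    (W := Set.univ) Constr.univ (ce_good (good_one (K := k)))
  have h2 : (χ.trans ψ) (itr f κ) = F := by
    show ψ (χ (itr f κ)) = F
    rw [hχ, hψ]
  rw [h2] at h1
  rw [zetaW_eq, Witr_univ, ← h1]
  rfl

/-- a `b`-function of `F` -/
theorem bfun_FK {n κ : ℕ} {f : MvPolynomial (Fin n) k} (hf : f.totalDegree ≠ 0)
    {c : Polynomial ℂ} (hb : IsBFunction (map (algebraMap k ℂ) f) ((Polynomial.X + 1) * c))
    {F : MvPolynomial (Fin (n + (κ + κ))) k}
    (ψ : MvPolynomial (Fin (n + (κ + κ))) k ≃ₐ[k] MvPolynomial (Fin (n + (κ + κ))) k)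
    (hψ : ψ (stabK f κ) = F) :
    IsBFunction (map (algebraMap k ℂ) F)
      ((Polynomial.X + 1) * c.comp (Polynomial.X + Polynomial.C (κ : ℂ))) := by
  obtain ⟨ψ', hψ'⟩ := Pool.Agent.Y405.MS.bc k ℂ ψ
  refine bfun_F (map_deg hf) hb ψ' ?_
  rw [← map_stabK, hψ', hψ]

theorem minExp_FK {n κ : ℕ} {f : MvPolynomial (Fin n) k} (hf : f.totalDegree ≠ 0) (N : ℕ)
    {c : Polynomial ℂ} (hc0 : c ≠ 0)
    (hb : IsBFunction (map (algebraMap k ℂ) f) ((Polynomial.X + 1) * c))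
    (hN : ∀ r ∈ c.roots, r.re < (κ : ℝ) - N)
    {F : MvPolynomial (Fin (n + (κ + κ))) k}
    (ψ : MvPolynomial (Fin (n + (κ + κ))) k ≃ₐ[k] MvPolynomial (Fin (n + (κ + κ))) k)
    (hψ : ψ (stabK f κ) = F) : MinExp N (map (algebraMap k ℂ) F) := by
  obtain ⟨ψ', hψ'⟩ := Pool.Agent.Y405.MS.bc k ℂ ψ
  refine minExp_prog (map_deg hf) N hc0 hb hN ψ' ?_
  rw [← map_stabK, hψ', hψ]

/-- the shifted slopes -/
theorem slope_shift {κ : ℕ} {c : Polynomial ℂ} (hm : ((Polynomial.X + 1) * c).eval (-1) = 0)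
    {p : ℤ × ℤ} (hp : 0 < p.2) {j : ℤ}
    (h : ((Polynomial.X + 1) * c.comp (Polynomial.X + Polynomial.C (κ : ℂ))).eval
      ((p.1 : ℂ) / p.2 + j) = 0) :
    ∃ i : ℤ, ((Polynomial.X + 1) * c).eval (((p.1 + κ * p.2 : ℤ) : ℂ) / (p.2 : ℤ) + i) = 0 := by
  have hp0 : (p.2 : ℂ) ≠ 0 := by exact_mod_cast hp.ne'
  have e1 : ((p.1 + κ * p.2 : ℤ) : ℂ) / (p.2 : ℤ) = (p.1 : ℂ) / p.2 + κ := by
    push_cast
    field_simp
  rw [e1]
  rw [Polynomial.eval_mul, Polynomial.eval_comp, mul_eq_zero, Polynomial.eval_add,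
    Polynomial.eval_X, Polynomial.eval_one, Polynomial.eval_add, Polynomial.eval_X,
    Polynomial.eval_C] at h
  rcases h with h | h
  · refine ⟨j - κ, ?_⟩
    have e2 : (p.1 : ℂ) / p.2 + κ + ((j - κ : ℤ) : ℂ) = -1 := by
      push_cast
      linear_combination h
    rw [e2]
    exact hm
  · refine ⟨j, ?_⟩
    rw [Polynomial.eval_mul, show (p.1 : ℂ) / p.2 + κ + j = (p.1 : ℂ) / p.2 + j + κ by ring, h,
      mul_zero]

/-- **The transfer.** -/
theorem transferM {n κ : ℕ} {f : MvPolynomial (Fin n) k} (hf : f.totalDegree ≠ 0)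
    {F : MvPolynomial (Fin (n + (κ + κ))) k}
    {F' : MvPolynomial (Fin (n + (κ + 1 + (κ + 1)))) k}
    (ψ : MvPolynomial (Fin (n + (κ + κ))) k ≃ₐ[k] MvPolynomial (Fin (n + (κ + κ))) k)
    (hψ : ψ (stabK f κ) = F)
    (ψ' : MvPolynomial (Fin (n + (κ + 1 + (κ + 1)))) k ≃ₐ[k]
      MvPolynomial (Fin (n + (κ + 1 + (κ + 1)))) k)
    (hψ' : ψ' (stabK f (κ + 1)) = F') (h1 : WeakM F) (h2 : WeakM F') : WeakM f := by
  classical
  have hk0 : CharZero k := RingHom.charZero (algebraMap k ℂ)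
  intro b hb0 hb
  have hm1 := (becomes_global (map_deg hf) hb (k := 0)
    (G := stab (map (algebraMap k ℂ) f) 0) ⟨AlgEquiv.refl, rfl⟩).1
  obtain ⟨c, rfl⟩ : (Polynomial.X + 1 : Polynomial ℂ) ∣ b := by
    have := Polynomial.dvd_iff_isRoot.2 hm1
    simpa using this
  have hne : ∀ κ : ℕ, (Polynomial.X + 1) * c.comp (Polynomial.X + Polynomial.C (κ : ℂ)) ≠ 0 := by
    intro κ h0
    apply hb0
    rcases mul_eq_zero.1 h0 with h3 | h3
    · rw [h3, zero_mul]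
    · have h4 := congrArg (fun p => p.comp (Polynomial.X - Polynomial.C (κ : ℂ))) h3
      simp only [Polynomial.comp_assoc, Polynomial.zero_comp] at h4
      rw [Polynomial.add_comp, Polynomial.X_comp, Polynomial.C_comp, sub_add_cancel,
        Polynomial.comp_X] at h4
      rw [h4, mul_zero]
  obtain ⟨S1, hS1, z1⟩ := h1 _ (hne κ) (bfun_FK hf hb ψ hψ)
  obtain ⟨S2, hS2, z2⟩ := h2 _ (hne (κ + 1)) (bfun_FK hf hb ψ' hψ')
  rw [← zeta_itrW f ψ hψ] at z1
  rw [← zeta_itrW f ψ' hψ'] at z2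
  have z3 := descend' f Constr.univ (ce_good (good_one (K := k))) κ _ _
    (fun p hp => (hS1 p hp).1) (fun p hp => (hS2 p hp).1)
    ((ratRing k _).mul_mem (fst_mem _) z1) ((ratRing k _).mul_mem (fst_mem _) z2)
  have z4 := zeta_of_fst f Set.univ _ _ z3
  rw [← zetaW_eq] at z4
  refine ⟨insert (-1, 1) (S1.image (fun q => (q.1 + κ * q.2, q.2)) ∪
    S2.image (fun q => (q.1 + ((κ + 1 : ℕ) : ℤ) * q.2, q.2))), ?_, ratRing_mono ?_ z4⟩
  · intro p hp
    rw [Finset.mem_insert, Finset.mem_union, Finset.mem_image, Finset.mem_image] at hp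
    rcases hp with rfl | ⟨q, hq, rfl⟩ | ⟨q, hq, rfl⟩
    · refine ⟨one_pos, 0, ?_⟩
      have e1 : ((-1 : ℤ) : ℂ) / ((1 : ℤ) : ℂ) + ((0 : ℤ) : ℂ) = -1 := by norm_num
      rw [e1]
      exact hm1
    · obtain ⟨hq0, j, hj⟩ := hS1 q hq
      exact ⟨hq0, slope_shift hm1 hq0 hj⟩
    · obtain ⟨hq0, j, hj⟩ := hS2 q hq
      exact ⟨hq0, slope_shift hm1 hq0 hj⟩
  · rintro p (rfl | ⟨q, hq, rfl⟩ | ⟨q, hq, rfl⟩)
    · exact Finset.mem_coe.2 (Finset.mem_insert_self _ _)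
    · exact Finset.mem_coe.2 (Finset.mem_insert_of_mem (Finset.mem_union_left _
        (Finset.mem_image.2 ⟨q, hq, rfl⟩)))
    · exact Finset.mem_coe.2 (Finset.mem_insert_of_mem (Finset.mem_union_right _
        (Finset.mem_image.2 ⟨q, hq, rfl⟩)))

/-! ### Programs over `k` -/

theorem progA_eq {n κ : ℕ} (o : Fin κ → Option (Fin κ)) (v : Fin κ → Fin n)
    (c : Fin κ → k) (a : k) : progA o v c a = C a + progD o v c 0 := by
  unfold progA progD
  rw [add_right_inj]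
  refine Finset.sum_congr rfl fun m _ => ?_
  rw [Pi.zero_apply, map_zero, sub_zero]
  rfl

theorem exists_progA {S : Set k} {n κ : ℕ} {f : MvPolynomial (Fin n) k} {a : k}
    (h : Rep (coeffs S) κ 0 (f - C a)) :
    ∃ (o : Fin κ → Option (Fin κ)) (v : Fin κ → Fin n) (c : Fin κ → k),
      Forest o ∧ (∀ m, c m ∈ coeffs S) ∧
      ∃ ψ : MvPolynomial (Fin (n + (κ + κ))) k ≃ₐ[k] MvPolynomial (Fin (n + (κ + κ))) k,
        ψ (stabK f κ) = progA o v c a := by
  obtain ⟨o, v, c, e, ho, hc, hH⟩ := h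
  have h1 := prog_iso ho hH (0 : Fin κ → k)
  generalize aut o v (fun m => e m - C ((0 : Fin κ → k) m)) ho = φ at h1
  refine ⟨o, v, c, ho, hc, φ, ?_⟩
  rw [progA_eq, ← h1]
  have h2 : stabK f κ = C a + (rename (Fin.castAdd (κ + κ)) (f - C a) +
      ∑ m, yv k n m * zv k n m) := by
    unfold stabK
    rw [map_sub, rename_C]
    unfold yv zv
    ring
  have h3 : φ (C a) = C a := φ.commutes a
  rw [h2, map_add, h3]

/-- programs of all large sizes -/
theorem exists_progsM {S : Set k} {n : ℕ} (i0 : Fin n) {f : MvPolynomial (Fin n) k}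
    (hf : f.totalDegree ≠ 0) {a : k} {κ₀ : ℕ} (hr : Rep (coeffs S) κ₀ 0 (f - C a)) (N : ℕ)
    {c : Polynomial ℂ} (hc0 : c ≠ 0)
    (hb : IsBFunction (map (algebraMap k ℂ) f) ((Polynomial.X + 1) * c)) :
    ∃ κ₁, ∀ κ, κ₁ ≤ κ → ∃ (o : Fin κ → Option (Fin κ)) (v : Fin κ → Fin n) (c : Fin κ → k),
      Forest o ∧ (∀ m, c m ∈ coeffs S) ∧ MinExp N (map (algebraMap k ℂ) (progA o v c a)) ∧
      ∃ ψ : MvPolynomial (Fin (n + (κ + κ))) k ≃ₐ[k] MvPolynomial (Fin (n + (κ + κ))) k,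
        ψ (stabK f κ) = progA o v c a := by
  obtain ⟨M, hM⟩ := re_bound c
  refine ⟨max κ₀ (M + N), fun κ hκ => ?_⟩
  obtain ⟨o, v, c', ho, hc', ψ, hψ⟩ := exists_progA (rep_ge i0 hr κ ((le_max_left _ _).trans hκ))
  refine ⟨o, v, c', ho, hc', minExp_FK hf N hc0 hb (fun r hr => ?_) ψ hψ, ψ, hψ⟩
  have h1 : ((M + N : ℕ) : ℝ) ≤ (κ : ℝ) := by exact_mod_cast (le_max_right _ _).trans hκ
  push_cast at h1
  have h2 := hM r hr
  linarith

theorem rep_varK {S : Set k} (hS : (1 : k) ∈ AddSubgroup.closure S) {n : ℕ} (i : Fin n) :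
    ∃ κ, Rep (coeffs S) κ 0 (X i - C 0 : MvPolynomial (Fin n) k) := by
  rw [C_0, sub_zero]
  exact rep_closure (Finsupp.single i 1) (by
    intro h
    have := DFunLike.congr_fun h i
    simp at this) 1 hS

/-- **The reduction for one polynomial.** -/
theorem reduceM (S : Set k) (hS : (1 : k) ∈ AddSubgroup.closure S) (N n : ℕ)
    (f : MvPolynomial (Fin n) k) (hf : f.totalDegree ≠ 0)
    (hfS : ∀ d, coeff d f ∈ AddSubgroup.closure S) :
    ∃ κ₁ : ℕ, ∀ κ, κ₁ ≤ κ → ∃ (o : ∀ κ, Fin κ → Option (Fin κ)) (v : ∀ κ, Fin κ → Fin n)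
      (c : ∀ κ, Fin κ → k) (a : k), a ∈ AddSubgroup.closure S ∧
      (∀ κ' ∈ ({κ, κ + 1} : Set ℕ), Forest (o κ') ∧ (∀ m, c κ' m ∈ coeffs S) ∧
        MinExp N (map (algebraMap k ℂ) (progA (o κ') (v κ') (c κ') a))) ∧
      (WeakM (progA (o κ) (v κ) (c κ) a) → WeakM (progA (o (κ + 1)) (v (κ + 1)) (c (κ + 1)) a) →
        WeakM f) := by
  classical
  have hn : 0 < n := by
    rcases Nat.eq_zero_or_pos n with rfl | h
    · exfalso
      apply hf
      rw [eq_C_of_isEmpty f, totalDegree_C]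
    · exact h
  set i0 : Fin n := ⟨0, hn⟩
  -- choosing programs from a statement for all large numbers of nodes
  have pick : ∀ {a : k} {g : MvPolynomial (Fin n) k} {κ₁ : ℕ},
      (∀ κ, κ₁ ≤ κ → ∃ (o : Fin κ → Option (Fin κ)) (v : Fin κ → Fin n) (c : Fin κ → k),
        Forest o ∧ (∀ m, c m ∈ coeffs S) ∧ MinExp N (map (algebraMap k ℂ) (progA o v c a)) ∧
        ∃ ψ : MvPolynomial (Fin (n + (κ + κ))) k ≃ₐ[k] MvPolynomial (Fin (n + (κ + κ))) k,
          ψ (stabK g κ) = progA o v c a) →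
      ∀ κ, κ₁ ≤ κ → ∃ (o : ∀ κ, Fin κ → Option (Fin κ)) (v : ∀ κ, Fin κ → Fin n)
        (c : ∀ κ, Fin κ → k), ∀ κ' ∈ ({κ, κ + 1} : Set ℕ),
        (Forest (o κ') ∧ (∀ m, c κ' m ∈ coeffs S) ∧
          MinExp N (map (algebraMap k ℂ) (progA (o κ') (v κ') (c κ') a))) ∧
        ∃ ψ : MvPolynomial (Fin (n + (κ' + κ'))) k ≃ₐ[k] MvPolynomial (Fin (n + (κ' + κ'))) k,
          ψ (stabK g κ') = progA (o κ') (v κ') (c κ') a := by
    intro a g κ₁ h κ hκ
    have h1 : ∀ κ', ∃ (o : Fin κ' → Option (Fin κ')) (v : Fin κ' → Fin n) (c : Fin κ' → k),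
        κ₁ ≤ κ' → (Forest o ∧ (∀ m, c m ∈ coeffs S) ∧
          MinExp N (map (algebraMap k ℂ) (progA o v c a))) ∧
        ∃ ψ : MvPolynomial (Fin (n + (κ' + κ'))) k ≃ₐ[k] MvPolynomial (Fin (n + (κ' + κ'))) k,
          ψ (stabK g κ') = progA o v c a := by
      intro κ'
      by_cases h2 : κ₁ ≤ κ'
      · obtain ⟨o, v, c, h3, h4, h5, h6⟩ := h κ' h2
        exact ⟨o, v, c, fun _ => ⟨⟨h3, h4, h5⟩, h6⟩⟩
      · exact ⟨fun _ => none, fun _ => i0, fun _ => 0, fun h3 => absurd h3 h2⟩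
    choose o v c h2 using h1
    refine ⟨o, v, c, fun κ' hκ' => h2 κ' ?_⟩
    rcases hκ' with rfl | hκ'
    · exact hκ
    · rw [Set.mem_singleton_iff] at hκ'
      omega
  by_cases hbf : ∃ b : Polynomial ℂ, IsBFunction (map (algebraMap k ℂ) f) b ∧ b ≠ 0
  · obtain ⟨b, hb, hb0⟩ := hbf
    have hm1 := (becomes_global (map_deg hf) hb (k := 0)
      (G := stab (map (algebraMap k ℂ) f) 0) ⟨AlgEquiv.refl, rfl⟩).1
    obtain ⟨p, rfl⟩ : (Polynomial.X + 1 : Polynomial ℂ) ∣ b := by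
      have := Polynomial.dvd_iff_isRoot.2 hm1
      simpa using this
    obtain ⟨κ₀, hr⟩ := rep_all (S := S) (f - C (coeff 0 f)) (by
      rw [coeff_sub, coeff_zero_C, sub_self]) (by
      intro d
      rw [coeff_sub, coeff_C]
      refine AddSubgroup.sub_mem _ (hfS d) ?_
      split_ifs
      · exact hfS 0
      · exact AddSubgroup.zero_mem _)
    obtain ⟨κ₁, h1⟩ := exists_progsM i0 hf hr N (right_ne_zero_of_mul hb0) hb
    refine ⟨κ₁, fun κ hκ => ?_⟩
    obtain ⟨o, v, c, h2⟩ := pick h1 κ hκ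
    refine ⟨o, v, c, coeff 0 f, hfS 0, fun κ' hκ' => (h2 κ' hκ').1, fun h3 h4 => ?_⟩
    obtain ⟨ψ, hψ⟩ := (h2 κ (Or.inl rfl)).2
    obtain ⟨ψ', hψ'⟩ := (h2 (κ + 1) (Or.inr rfl)).2
    exact transferM hf ψ hψ ψ' hψ' h3 h4
  · push Not at hbf
    obtain ⟨κ₀, hr⟩ := rep_varK hS i0
    have hX : (X i0 : MvPolynomial (Fin n) k).totalDegree ≠ 0 := by
      rw [totalDegree_X]
      exact one_ne_zero
    obtain ⟨κ₁, h1⟩ := exists_progsM i0 hX hr N one_ne_zero (by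
      rw [map_X]
      exact bfun_X i0)
    refine ⟨κ₁, fun κ hκ => ?_⟩
    obtain ⟨o, v, c, h2⟩ := pick h1 κ hκ
    refine ⟨o, v, c, 0, AddSubgroup.zero_mem _, fun κ' hκ' => (h2 κ' hκ').1, fun _ _ b hb0 hb => ?_⟩
    exact absurd (hbf b hb) hb0

theorem progA_deg {n κ : ℕ} (o : Fin κ → Option (Fin κ)) (v : Fin κ → Fin n) (c : Fin κ → k)
    (a : k) (hκ : 0 < κ) : (progA o v c a).totalDegree ≠ 0 := by
  classical
  intro h0
  have h1 := totalDegree_eq_zero_iff_eq_C.1 h0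
  set m0 : Fin κ := ⟨0, hκ⟩
  have h2 : eval (assign (fun _ => 0) (fun m => if m = m0 then 1 - c m0 else 0)
      (fun m => if m = m0 then 1 else 0)) (progA o v c a) = a + 1 := by
    unfold progA
    rw [map_add, eval_C, map_sum]
    simp only [map_add, map_mul, map_sub, eval_C, eval_X, assign_x, assign_y, assign_z, mul_zero,
      sub_zero]
    rw [Finset.sum_eq_single m0]
    · simp
    · intro m _ hm
      simp [hm]
    · intro h
      exact absurd (Finset.mem_univ _) h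
  have h3 : eval (assign (fun _ => 0) (fun _ => 0) (fun _ => 0)) (progA o v c a) = a := by
    unfold progA
    rw [map_add, eval_C, map_sum]
    simp only [map_add, map_mul, map_sub, eval_C, eval_X, assign_x, assign_y, assign_z, mul_zero,
      sub_zero, add_zero, Finset.sum_const_zero]
  rw [h1, eval_C] at h2 h3
  rw [h3] at h2
  exact zero_ne_one ((left_eq_add.1 h2).symm)

theorem coeff_monoK {σ : Type} {A : AddSubgroup k} {a : k} (ha : a ∈ A) (d d' : σ →₀ ℕ) :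
    coeff d (monomial d' a : MvPolynomial σ k) ∈ A := by
  classical
  rw [coeff_monomial]
  split_ifs
  · exact ha
  · exact A.zero_mem

theorem coeffs_memK {S : Set k} {t : k} (h : t ∈ coeffs S) : t ∈ AddSubgroup.closure S := by
  rcases h with rfl | h | h
  · exact AddSubgroup.zero_mem _
  · exact AddSubgroup.subset_closure h
  · rw [← neg_neg t]
    exact AddSubgroup.neg_mem _ (AddSubgroup.subset_closure h)

theorem progA_coeff {S : Set k} (hS : (1 : k) ∈ AddSubgroup.closure S) {n κ : ℕ}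
    (o : Fin κ → Option (Fin κ)) (v : Fin κ → Fin n) (c : Fin κ → k)
    (hc : ∀ m, c m ∈ coeffs S) {a : k} (ha : a ∈ AddSubgroup.closure S)
    (d : Fin (n + (κ + κ)) →₀ ℕ) :
    coeff d (progA o v c a) ∈ AddSubgroup.closure S := by
  classical
  unfold progA
  rw [coeff_add, coeff_sum]
  refine AddSubgroup.add_mem _ (coeff_monoK ha d 0) (AddSubgroup.sum_mem _ fun m _ => ?_)
  have e1 : ∀ i : Fin (n + (κ + κ)), (X i : MvPolynomial (Fin (n + (κ + κ))) k) =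
      monomial (Finsupp.single i 1) 1 := fun i => rfl
  have e2 : ((o m).elim 1 fun m' => X (Fin.natAdd n (Fin.natAdd κ m')) :
      MvPolynomial (Fin (n + (κ + κ))) k) =
      monomial ((o m).elim 0 fun m' => Finsupp.single (Fin.natAdd n (Fin.natAdd κ m')) 1) 1 := by
    cases o m with
    | none => rfl
    | some m' => rfl
  rw [e2]
  simp only [e1, C_mul_monomial, mul_sub, monomial_mul, mul_one, coeff_add, coeff_sub]
  exact AddSubgroup.add_mem _ (coeff_monoK (coeffs_memK (hc m)) _ _)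
    (AddSubgroup.sub_mem _ (coeff_monoK hS _ _) (coeff_monoK hS _ _))

end Pool.Agent.Q223.TW
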