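import Pool.Agent.W375.MG.Out

/-!
# The intersection of rings of rational functions
-/

set_option autoImplicit false

namespace Pool.Agent.Q223.TW

open Pool.Agent.W428.MOT (ratRing Lu MK geo)
open Pool.Agent.W375.MG (IsPole ratRing_mono)
open Pool.Agent.W63.MTFin (geo_mul geo_mem X_mem C_mem poly_mem)

section alg

variable {A : Type} [CommRing A]

/-- two slopes in a commutative ring -/
theorem two_slopes (P : Ideal A) (L : Aˣ) (T : A) {a b a' b' : ℤ} (hb : 0 < b) (hb' : 0 < b')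
    (h1 : 1 - ((L ^ a : Aˣ) : A) * T ^ b.toNat ∈ P)
    (h2 : 1 - ((L ^ a' : Aˣ) : A) * T ^ b'.toNat ∈ P) {D : ℕ}
    (hD : a * b' - a' * b ∣ (D : ℤ)) :
    1 - ((L ^ (-(D : ℤ)) : Aˣ) : A) * T ^ D ∈ P := by
  have hq : ∀ x : A, 1 - x ∈ P ↔ Ideal.Quotient.mk P x = 1 := by
    intro x
    rw [← Ideal.Quotient.eq_zero_iff_mem, map_sub, map_one, sub_eq_zero]
    exact eq_comm
  rw [hq] at h1 h2 ⊢
  set l : (A ⧸ P)ˣ := Units.map (Ideal.Quotient.mk P).toMonoidHom L with hl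
  have hlp : ∀ n : ℤ, Ideal.Quotient.mk P ((L ^ n : Aˣ) : A) = ((l ^ n : (A ⧸ P)ˣ) : A ⧸ P) := by
    intro n
    rw [hl, ← map_zpow]
    rfl
  rw [map_mul, map_pow, hlp] at h1 h2 ⊢
  have hu : IsUnit (Ideal.Quotient.mk P T) := by
    have h3 : IsUnit (Ideal.Quotient.mk P T ^ b.toNat) :=
      IsUnit.of_mul_eq_one _ (by rw [mul_comm]; exact h1)
    exact (isUnit_pow_iff (by omega)).1 h3
  obtain ⟨t, ht⟩ := hu
  rw [← ht] at h1 h2 ⊢
  have hz : ∀ (x : ℤ) (m : ℕ), ((l ^ x : (A ⧸ P)ˣ) : A ⧸ P) * (t : A ⧸ P) ^ m =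
      ((l ^ x * t ^ (m : ℤ) : (A ⧸ P)ˣ) : A ⧸ P) := by
    intro x m
    rw [Units.val_mul, zpow_natCast, Units.val_pow_eq_pow_val]
  rw [hz, Units.val_eq_one] at h1 h2 ⊢
  rw [Int.toNat_of_nonneg hb.le] at h1
  rw [Int.toNat_of_nonneg hb'.le] at h2
  have e1 : l ^ a = t ^ (-b) := by
    rw [zpow_neg]
    exact eq_inv_of_mul_eq_one_left h1
  have e2 : l ^ a' = t ^ (-b') := by
    rw [zpow_neg]
    exact eq_inv_of_mul_eq_one_left h2
  have e3 : l ^ (a * b' - a' * b) = 1 := by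
    rw [zpow_sub, zpow_mul, zpow_mul, e1, e2, ← zpow_mul, ← zpow_mul, ← zpow_neg, ← zpow_add,
      show -b * b' + -(-b' * b) = 0 by ring, zpow_zero]
  have e4 : t ^ (a * b' - a' * b) = 1 := by
    have e5 : t ^ b = l ^ (-a) := by
      rw [zpow_neg, e1, zpow_neg, inv_inv]
    have e6 : t ^ b' = l ^ (-a') := by
      rw [zpow_neg, e2, zpow_neg, inv_inv]
    rw [zpow_sub, mul_comm a b', mul_comm a' b, zpow_mul, zpow_mul, e5, e6, ← zpow_mul, ← zpow_mul,
      ← zpow_neg, ← zpow_add, show -a' * a + -(-a * a') = 0 by ring, zpow_zero]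
  obtain ⟨m, hm⟩ := hD
  rw [hm, zpow_neg, zpow_mul, zpow_mul, e3, e4, one_zpow, inv_one, one_mul]

end alg

variable {K : Type} [Field K]

/-- the factor `1 - 𝕃 ^ a T ^ b` -/
noncomputable def gc (K : Type) [Field K] (p : ℤ × ℤ) : Polynomial (MK K) :=
  1 - Polynomial.C (((Lu K) ^ p.1 : (MK K)ˣ) : MK K) * Polynomial.X ^ p.2.toNat

theorem coe_gc (p : ℤ × ℤ) : (gc K p : PowerSeries (MK K)) =
    1 - PowerSeries.C (((Lu K) ^ p.1 : (MK K)ˣ) : MK K) * PowerSeries.X ^ p.2.toNat := by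
  unfold gc
  rw [Polynomial.coe_sub, Polynomial.coe_one, Polynomial.coe_mul, Polynomial.coe_C,
    Polynomial.coe_pow, Polynomial.coe_X]

theorem gc_geo {p : ℤ × ℤ} (hp : 0 < p.2) : (gc K p : PowerSeries (MK K)) * geo K p.1 p.2 = 1 := by
  rw [coe_gc]
  exact geo_mul _ _ hp

/-- the denominators of the elements of the ring -/
theorem exists_denom {S : Set (ℤ × ℤ)} (hS : ∀ p ∈ S, 0 < p.2) {Z : PowerSeries (MK K)}
    (hZ : Z ∈ ratRing K S) : ∃ s : Multiset (ℤ × ℤ), (∀ p ∈ s, p ∈ S) ∧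
      ∃ P : Polynomial (MK K), Z * ((s.map (gc K)).prod : Polynomial (MK K)) = P := by
  unfold ratRing at hZ
  refine Algebra.adjoin_induction (p := fun (Z : PowerSeries (MK K)) _ =>
    ∃ s : Multiset (ℤ × ℤ), (∀ p ∈ s, p ∈ S) ∧
      ∃ P : Polynomial (MK K), Z * ((s.map (gc K)).prod : Polynomial (MK K)) = P) ?_ ?_ ?_ ?_ hZ
  · rintro x (hx | ⟨p, hp, rfl⟩)
    · rw [Set.mem_singleton_iff] at hx
      refine ⟨0, fun p hp => absurd hp (Multiset.notMem_zero p), Polynomial.X, ?_⟩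
      rw [Multiset.map_zero, Multiset.prod_zero, Polynomial.coe_one, mul_one, Polynomial.coe_X, hx]
    · refine ⟨{p}, fun q hq => ?_, 1, ?_⟩
      · rw [Multiset.mem_singleton] at hq
        rw [hq]
        exact hp
      · rw [Multiset.map_singleton, Multiset.prod_singleton, mul_comm, gc_geo (hS p hp),
          Polynomial.coe_one]
  · intro r
    refine ⟨0, fun p hp => absurd hp (Multiset.notMem_zero p), Polynomial.C r, ?_⟩
    rw [Multiset.map_zero, Multiset.prod_zero, Polynomial.coe_one, mul_one, Polynomial.coe_C,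
      PowerSeries.algebraMap_apply, Algebra.algebraMap_self, RingHom.id_apply]
  · rintro x y _ _ ⟨s, hs, P, hP⟩ ⟨t, ht, Q, hQ⟩
    refine ⟨s + t, fun p hp => ?_, P * (t.map (gc K)).prod + Q * (s.map (gc K)).prod, ?_⟩
    · rcases Multiset.mem_add.1 hp with h | h
      · exact hs p h
      · exact ht p h
    · rw [Multiset.map_add, Multiset.prod_add, Polynomial.coe_add, Polynomial.coe_mul,
        Polynomial.coe_mul, Polynomial.coe_mul, ← hP, ← hQ]
      ring
  · rintro x y _ _ ⟨s, hs, P, hP⟩ ⟨t, ht, Q, hQ⟩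
    refine ⟨s + t, fun p hp => ?_, P * Q, ?_⟩
    · rcases Multiset.mem_add.1 hp with h | h
      · exact hs p h
      · exact ht p h
    · rw [Multiset.map_add, Multiset.prod_add, Polynomial.coe_mul, Polynomial.coe_mul, ← hP, ← hQ]
      ring

theorem inv_denom {S : Set (ℤ × ℤ)} (hS : ∀ p ∈ S, 0 < p.2) (s : Multiset (ℤ × ℤ))
    (hs : ∀ p ∈ s, p ∈ S) : ∃ V ∈ ratRing K S,
      (((s.map (gc K)).prod : Polynomial (MK K)) : PowerSeries (MK K)) * V = 1 := by
  induction s using Multiset.induction_on with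
  | empty =>
    refine ⟨1, (ratRing K S).one_mem, ?_⟩
    rw [Multiset.map_zero, Multiset.prod_zero, Polynomial.coe_one, mul_one]
  | cons p s ih =>
    obtain ⟨V, hV, h⟩ := ih fun q hq => hs q (Multiset.mem_cons_of_mem hq)
    have hp := hs p (Multiset.mem_cons_self p s)
    refine ⟨geo K p.1 p.2 * V, (ratRing K S).mul_mem (geo_mem hp) hV, ?_⟩
    rw [Multiset.map_cons, Multiset.prod_cons, Polynomial.coe_mul]
    have h1 := gc_geo (K := K) (hS p hp)
    linear_combination (gc K p * geo K p.1 p.2 : PowerSeries (MK K)) * h + h1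

theorem mem_of_denom {S : Set (ℤ × ℤ)} (hS : ∀ p ∈ S, 0 < p.2) {s : Multiset (ℤ × ℤ)}
    (hs : ∀ p ∈ s, p ∈ S) {Z : PowerSeries (MK K)} {P : Polynomial (MK K)}
    (h : Z * ((s.map (gc K)).prod : Polynomial (MK K)) = P) : Z ∈ ratRing K S := by
  obtain ⟨V, hV, h1⟩ := inv_denom (K := K) hS s hs
  have h2 : Z = P * V := by
    rw [← h]
    linear_combination (-Z) * h1
  rw [h2]
  exact (ratRing K S).mul_mem (poly_mem _ _) hV

/-- **The intersection.** -/
theorem ratRing_inter {S T : Set (ℤ × ℤ)} (hS : ∀ p ∈ S, 0 < p.2) (hT : ∀ p ∈ T, 0 < p.2)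
    {Z : PowerSeries (MK K)} (hZS : Z ∈ ratRing K S) (hZT : Z ∈ ratRing K T) :
    ∃ D : ℕ, 0 < D ∧ Z ∈ ratRing K
      (insert (-(D : ℤ), (D : ℤ)) {p ∈ S | ∃ q ∈ T, p.1 * q.2 = q.1 * p.2}) := by
  classical
  obtain ⟨s, hs, P, hP⟩ := exists_denom hS hZS
  obtain ⟨t, ht, Q, hQ⟩ := exists_denom hT hZT
  -- the exponent `D`
  set dt : (ℤ × ℤ) → (ℤ × ℤ) → ℕ := fun p q => max 1 (p.1 * q.2 - q.1 * p.2).natAbs with hdt
  set D : ℕ := (s.map fun p => (t.map fun q => dt p q).prod).prod with hD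
  have hD0 : 0 < D := by
    rw [hD]
    refine Nat.pos_of_ne_zero fun h0 => ?_
    rw [Multiset.prod_eq_zero_iff, Multiset.mem_map] at h0
    obtain ⟨p, -, h1⟩ := h0
    rw [Multiset.prod_eq_zero_iff, Multiset.mem_map] at h1
    obtain ⟨q, -, h2⟩ := h1
    have h3 : 1 ≤ dt p q := le_max_left _ _
    omega
  have hdvd : ∀ p ∈ s, ∀ q ∈ t, p.1 * q.2 ≠ q.1 * p.2 → p.1 * q.2 - q.1 * p.2 ∣ (D : ℤ) := by
    intro p hp q hq hne
    have h1 : dt p q ∣ D := (Multiset.dvd_prod (Multiset.mem_map_of_mem _ hq)).trans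
      (Multiset.dvd_prod (Multiset.mem_map_of_mem (fun p => (t.map fun q => dt p q).prod) hp))
    have h2 : dt p q = (p.1 * q.2 - q.1 * p.2).natAbs := by
      refine max_eq_right ?_
      have := Int.natAbs_pos.2 (sub_ne_zero.2 hne)
      omega
    rw [h2] at h1
    exact Int.natAbs_dvd_natAbs.1 (by simpa using h1)
  refine ⟨D, hD0, ?_⟩
  set U : Set (ℤ × ℤ) := insert (-(D : ℤ), (D : ℤ)) {p ∈ S | ∃ q ∈ T, p.1 * q.2 = q.1 * p.2}
    with hU
  set w : Multiset (ℤ × ℤ) := (-(D : ℤ), (D : ℤ)) ::ₘ s.filter fun p =>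
    ∃ q ∈ T, p.1 * q.2 = q.1 * p.2 with hw
  have hwU : ∀ p ∈ w, p ∈ U := by
    intro p hp
    rcases Multiset.mem_cons.1 hp with rfl | h
    · exact Set.mem_insert _ _
    · rw [Multiset.mem_filter] at h
      exact Set.mem_insert_of_mem _ ⟨hs p h.1, h.2⟩
  have hUpos : ∀ p ∈ U, 0 < p.2 := by
    rintro p (rfl | ⟨h, -⟩)
    · exact Int.natCast_pos.2 hD0
    · exact hS p h
  set J : Ideal (Polynomial (MK K)) := Ideal.span {(s.map (gc K)).prod, (t.map (gc K)).prod}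
    with hJ
  set Lp : (Polynomial (MK K))ˣ := Units.map (Polynomial.C : MK K →+* _).toMonoidHom (Lu K)
    with hLp
  have hgc : ∀ p : ℤ × ℤ, gc K p = 1 - ((Lp ^ p.1 : (Polynomial (MK K))ˣ) : Polynomial (MK K)) *
      Polynomial.X ^ p.2.toNat := by
    intro p
    unfold gc
    rw [hLp, ← map_zpow]
    rfl
  have hrad : (w.map (gc K)).prod ∈ J.radical := by
    rw [Ideal.radical_eq_sInf, Ideal.mem_sInf]
    rintro Q ⟨hJQ, hQp⟩
    have h1 : (s.map (gc K)).prod ∈ Q := hJQ (Ideal.subset_span (Or.inl rfl))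
    have h2 : (t.map (gc K)).prod ∈ Q := hJQ (Ideal.subset_span (Or.inr rfl))
    rw [hQp.multiset_prod_mem_iff_exists_mem] at h1 h2
    obtain ⟨x, hx, h1⟩ := h1
    obtain ⟨y, hy, h2⟩ := h2
    rw [Multiset.mem_map] at hx hy
    obtain ⟨p, hp, rfl⟩ := hx
    obtain ⟨q, hq, rfl⟩ := hy
    rw [hQp.multiset_prod_mem_iff_exists_mem]
    by_cases hc : ∃ q ∈ T, p.1 * q.2 = q.1 * p.2
    · exact ⟨gc K p, Multiset.mem_map_of_mem _ (Multiset.mem_cons_of_mem
        (Multiset.mem_filter.2 ⟨hp, hc⟩)), h1⟩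
    · refine ⟨gc K (-(D : ℤ), (D : ℤ)), Multiset.mem_map_of_mem _ (Multiset.mem_cons_self _ _), ?_⟩
      have hne : p.1 * q.2 ≠ q.1 * p.2 := fun h => hc ⟨q, ht q hq, h⟩
      rw [hgc] at h1 h2 ⊢
      exact two_slopes Q Lp _ (hS p (hs p hp)) (hT q (ht q hq)) h1 h2 (hdvd p hp q hq hne)
  obtain ⟨N, hN⟩ := hrad
  rw [hJ, Ideal.mem_span_pair] at hN
  obtain ⟨u, v, huv⟩ := hN
  have hfin : Z * (((N • w).map (gc K)).prod : Polynomial (MK K)) = (u * P + v * Q :
      Polynomial (MK K)) := by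
    rw [Multiset.map_nsmul, Multiset.prod_nsmul, ← huv, Polynomial.coe_add, Polynomial.coe_mul,
      Polynomial.coe_mul, Polynomial.coe_add, Polynomial.coe_mul, Polynomial.coe_mul, ← hP, ← hQ]
    ring
  exact mem_of_denom hUpos (fun p hp => hwU p (Multiset.mem_of_mem_nsmul hp)) hfin

/-- finitely many pairs suffice -/
theorem exists_finset {S : Set (ℤ × ℤ)} (hS : ∀ p ∈ S, 0 < p.2) {Z : PowerSeries (MK K)}
    (hZ : Z ∈ ratRing K S) : ∃ S' : Finset (ℤ × ℤ), (∀ p ∈ S', p ∈ S) ∧ Z ∈ ratRing K S' := by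
  classical
  obtain ⟨s, hs, P, hP⟩ := exists_denom hS hZ
  exact ⟨s.toFinset, fun p hp => hs p (Multiset.mem_toFinset.1 hp),
    mem_of_denom (S := (s.toFinset : Set (ℤ × ℤ)))
      (fun p hp => hS p (hs p (Multiset.mem_toFinset.1 hp)))
      (fun p hp => Multiset.mem_toFinset.2 hp) hP⟩

theorem slope_eq {p q : ℤ × ℤ} (hp : 0 < p.2) (hq : 0 < q.2) :
    p.1 * q.2 = q.1 * p.2 ↔ ((p.1 : ℚ) / p.2) = (q.1 : ℚ) / q.2 := by
  have h1 : (p.2 : ℚ) ≠ 0 := by exact_mod_cast hp.ne'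
  have h2 : (q.2 : ℚ) ≠ 0 := by exact_mod_cast hq.ne'
  rw [div_eq_div_iff h1 h2]
  constructor
  · intro h
    exact_mod_cast h
  · intro h
    exact_mod_cast h

/-- **The poles and the denominators.** If `Z` is rational and all its poles satisfy `G`, then the
slopes of the denominators can be chosen to satisfy `G`, with the exception of the slope `-1`. -/
theorem ring_of_poles (G : ℚ → Prop) {Z : PowerSeries (MK K)} {S : Set (ℤ × ℤ)}
    (hS : ∀ p ∈ S, 0 < p.2) (hZ : Z ∈ ratRing K S) (h : ∀ s, IsPole Z s → G s) :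
    ∃ S' : Finset (ℤ × ℤ), (∀ p ∈ S', 0 < p.2 ∧ (G ((p.1 : ℚ) / p.2) ∨ p.1 = -p.2)) ∧
      Z ∈ ratRing K S' := by
  classical
  obtain ⟨S0, hS0, hZ0⟩ := exists_finset hS hZ
  have key : ∀ (n : ℕ) (S1 : Finset (ℤ × ℤ)), (∀ p ∈ S1, 0 < p.2) → Z ∈ ratRing K S1 →
      ((S1.image fun p : ℤ × ℤ => ((p.1 : ℚ) / p.2)).filter fun x => ¬ G x ∧ x ≠ -1).card ≤ n →
      ∃ S' : Finset (ℤ × ℤ), (∀ p ∈ S', 0 < p.2 ∧ (G ((p.1 : ℚ) / p.2) ∨ p.1 = -p.2)) ∧
        Z ∈ ratRing K S' := by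
    intro n
    induction n with
    | zero =>
      intro S1 h1 h2 h3
      refine ⟨S1, fun p hp => ⟨h1 p hp, ?_⟩, h2⟩
      by_contra hne
      rw [not_or] at hne
      have h4 := Finset.card_eq_zero.1 (Nat.le_zero.1 h3)
      have h5 : ((p.1 : ℚ) / p.2) ∈ (S1.image fun p : ℤ × ℤ => ((p.1 : ℚ) / p.2)).filter
          fun x => ¬ G x ∧ x ≠ -1 := by
        rw [Finset.mem_filter]
        refine ⟨Finset.mem_image_of_mem _ hp, hne.1, fun h6 => hne.2 ?_⟩
        have h7 : (p.2 : ℚ) ≠ 0 := by exact_mod_cast (h1 p hp).ne'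
        rw [div_eq_iff h7] at h6
        have h8 : (p.1 : ℚ) = -p.2 := by rw [h6]; ring
        exact_mod_cast h8
      rw [h4] at h5
      exact absurd h5 (Finset.notMem_empty _)
    | succ n ih =>
      intro S1 h1 h2 h3
      by_cases hb : ((S1.image fun p : ℤ × ℤ => ((p.1 : ℚ) / p.2)).filter
          fun x => ¬ G x ∧ x ≠ -1).Nonempty
      · obtain ⟨s, hs⟩ := hb
        have hs' := (Finset.mem_filter.1 hs).2
        have h4 : Z ∈ ratRing K {p | 0 < p.2 ∧ ((p.1 : ℚ) / p.2) ≠ s} := by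
          by_contra h5
          exact hs'.1 (h s h5)
        obtain ⟨D, hD, h5⟩ := ratRing_inter (S := (S1 : Set (ℤ × ℤ))) h1 (fun p hp => hp.1) h2 h4
        refine ih (insert (-(D : ℤ), (D : ℤ)) (S1.filter fun p =>
          ((p.1 : ℚ) / p.2) ≠ s)) ?_ (ratRing_mono ?_ h5) ?_
        · intro p hp
          rcases Finset.mem_insert.1 hp with rfl | hp
          · exact Int.natCast_pos.2 hD
          · exact h1 p (Finset.mem_filter.1 hp).1
        · rintro p (rfl | ⟨hp, q, hq, hpq⟩)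
          · exact Finset.mem_coe.2 (Finset.mem_insert_self _ _)
          · refine Finset.mem_coe.2 (Finset.mem_insert_of_mem (Finset.mem_filter.2 ⟨hp, ?_⟩))
            rw [(slope_eq (h1 p hp) hq.1).1 hpq]
            exact hq.2
        · have h6 : ((insert (-(D : ℤ), (D : ℤ)) (S1.filter fun p : ℤ × ℤ =>
              ((p.1 : ℚ) / p.2) ≠ s)).image fun p : ℤ × ℤ => ((p.1 : ℚ) / p.2)).filter
              (fun x => ¬ G x ∧ x ≠ -1) ⊆
              ((S1.image fun p : ℤ × ℤ => ((p.1 : ℚ) / p.2)).filter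
              fun x => ¬ G x ∧ x ≠ -1).erase s := by
            intro x hx
            rw [Finset.mem_filter, Finset.mem_image] at hx
            obtain ⟨⟨p, hp, rfl⟩, hx2, hx3⟩ := hx
            rcases Finset.mem_insert.1 hp with rfl | hp
            · exfalso
              apply hx3
              have h7 : (D : ℚ) ≠ 0 := by exact_mod_cast hD.ne'
              push_cast
              field_simp
            · rw [Finset.mem_filter] at hp
              rw [Finset.mem_erase, Finset.mem_filter]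
              exact ⟨hp.2, Finset.mem_image_of_mem _ hp.1, hx2, hx3⟩
          have h7 := Finset.card_le_card h6
          rw [Finset.card_erase_of_mem hs] at h7
          omega
      · rw [Finset.not_nonempty_iff_eq_empty] at hb
        refine ih S1 h1 h2 ?_
        rw [hb, Finset.card_empty]
        exact Nat.zero_le n
  exact key _ S0 (fun p hp => hS p (hS0 p hp)) hZ0 le_rfl

end Pool.Agent.Q223.TW
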