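import Pool.Agent.Q223.TW.Series
import Pool.Agent.Q223.ID.Top
import Pool.Agent.TH192.MU.Spec

/-!
# The twisted topological zeta functions of `f + y z`
-/

set_option autoImplicit false
set_option linter.unusedSectionVars false

namespace Pool.Agent.Q223.TW

open Pool.Agent.W428.MOT Pool.Agent.TH192.MT Pool.Agent.TH192.MU
open Pool.Agent.Q223.ID
open Pool.Agent.Y229.MS (addyz)

/-! ### Specialisation -/

section spec

variable {R : Type} [CommRing R] [IsDomain R] {u : Rˣ} {ε : R →+* ℂ}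

theorem specAt_rescale {A : PowerSeries R} {s : ℕ} {c : ℂ} (h : SpecAt u ε A (s + 1) c) :
    SpecAt u ε (PowerSeries.rescale ((u⁻¹ : Rˣ) : R) A) s c := by
  obtain ⟨P, Q, x, y, h1, h2, h3, h4, h5⟩ := h
  have e1 : ((u⁻¹ : Rˣ) : R) * (((u⁻¹) ^ s : Rˣ) : R) = (((u⁻¹) ^ (s + 1) : Rˣ) : R) := by
    rw [Units.val_pow_eq_pow_val, Units.val_pow_eq_pow_val, pow_succ]
    ring
  refine ⟨P.comp (Polynomial.C ((u⁻¹ : Rˣ) : R) * Polynomial.X),
    Q.comp (Polynomial.C ((u⁻¹ : Rˣ) : R) * Polynomial.X), x, y, ?_, ?_, ?_, h4, h5⟩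
  · rw [coe_comp, coe_comp, ← map_mul, h1]
  · rw [Polynomial.eval_comp, Polynomial.eval_mul, Polynomial.eval_C, Polynomial.eval_X, e1]
    exact h2
  · rw [Polynomial.eval_comp, Polynomial.eval_comp, Polynomial.eval_mul, Polynomial.eval_C,
      Polynomial.eval_X, e1]
    exact h3

/-- the series `(L - 1) / (1 - L⁻¹ T)` -/
noncomputable def gL (u : Rˣ) : PowerSeries R :=
  PowerSeries.C ((u : R) - 1) * geoS ((u⁻¹ : Rˣ) : R)

theorem specAt_gL (h1 : ε (u : R) = 1) (hu : (u : R) ≠ 1) (s : ℕ) :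
    SpecAt u ε (gL u) s (1 / ((s : ℂ) + 1)) := by
  set v : R := ((u⁻¹ : Rˣ) : R) with hv
  set w : R := (((u⁻¹) ^ s : Rˣ) : R) with hw
  have huinv : (u : R) * ((u⁻¹ : Rˣ) : R) = 1 := Units.mul_inv u
  have hvw : v * w * (u : R) ^ (s + 1) = 1 := by
    rw [hv, hw, Units.val_pow_eq_pow_val, ← pow_succ', ← mul_pow, mul_comm, huinv, one_pow]
  have e2 : 1 - v * w = v * w * (((u : R) - 1) * G (u : R) (s + 1)) := by
    rw [G_mul]
    linear_combination -hvw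
  have hs1 : ((s : ℂ) + 1) ≠ 0 := by exact_mod_cast Nat.succ_ne_zero s
  have hG0 : G (u : R) (s + 1) ≠ 0 := by
    intro h0
    have := G_eps ε h1 (s + 1)
    rw [h0, map_zero] at this
    apply hs1
    push_cast at this
    exact this.symm
  have hvw0 : v * w ≠ 0 := fun h => by
    rw [h, zero_mul] at hvw
    exact zero_ne_one hvw
  have hεvw : ε (v * w) = 1 := by
    have := congrArg ε hvw
    rwa [map_mul, map_pow, h1, one_pow, mul_one, map_one] at this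
  refine ⟨Polynomial.C ((u : R) - 1), 1 - Polynomial.C v * Polynomial.X, 1,
    v * w * G (u : R) (s + 1), ?_, ?_, ?_, ?_, ?_⟩
  · rw [Polynomial.coe_sub, Polynomial.coe_one, Polynomial.coe_mul, Polynomial.coe_C,
      Polynomial.coe_X, Polynomial.coe_C, gL, mul_left_comm, geoS_mul, mul_one]
  · rw [Polynomial.eval_sub, Polynomial.eval_one, Polynomial.eval_mul, Polynomial.eval_C,
      Polynomial.eval_X, e2]
    exact mul_ne_zero hvw0 (mul_ne_zero (sub_ne_zero.2 hu) hG0)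
  · rw [Polynomial.eval_C, Polynomial.eval_sub, Polynomial.eval_one, Polynomial.eval_mul,
      Polynomial.eval_C, Polynomial.eval_X, e2]
    ring
  · rw [map_mul, hεvw, one_mul, G_eps ε h1]
    push_cast
    exact hs1
  · rw [map_one, map_mul, hεvw, one_mul, G_eps ε h1]
    push_cast
    field_simp

theorem specAt_sub {Z Z' : PowerSeries R} {s : ℕ} {c c' : ℂ} (h : SpecAt u ε Z s c)
    (h' : SpecAt u ε Z' s c') : SpecAt u ε (Z - Z') s (c - c') := by
  have h1 := specAt_add h (specAt_mul (specAt_C (u := u) (ε := ε) (-1 : R) s) h')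
  have e1 : Z + PowerSeries.C (-1 : R) * Z' = Z - Z' := by
    rw [map_neg, map_one]
    ring
  have e2 : c + ε (-1) * c' = c - c' := by
    rw [map_neg, map_one]
    ring
  rwa [e1, e2] at h1

end spec

section spec2

variable {R : Type} [CommRing R] [IsDomain R] (E : MK ℂ →+* R) (ε : R →+* ℂ)

theorem map_geoS (v : MK ℂ) : PowerSeries.map E (geoS v) = geoS (E v) := by
  ext d
  rw [PowerSeries.coeff_map, geoS, geoS, PowerSeries.coeff_mk, PowerSeries.coeff_mk, map_pow]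

theorem map_rescale' (v : MK ℂ) (A : PowerSeries (MK ℂ)) :
    PowerSeries.map E (PowerSeries.rescale v A) =
      PowerSeries.rescale (E v) (PowerSeries.map E A) := by
  ext d
  rw [PowerSeries.coeff_map, PowerSeries.coeff_rescale, PowerSeries.coeff_rescale, map_mul,
    map_pow, PowerSeries.coeff_map]

theorem specAt_pair (h1 : ε (E ((Lu ℂ : (MK ℂ)ˣ) : MK ℂ)) = 1)
    (hu : E ((Lu ℂ : (MK ℂ)ˣ) : MK ℂ) ≠ 1) {n : ℕ} (f : MvPolynomial (Fin n) ℂ) (k s : ℕ)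
    (c c' : ℂ)
    (hc : SpecAt (Units.map (E : MK ℂ →* R) (Lu ℂ)) ε (PowerSeries.map E (zetaC f k)) (s + 1) c)
    (hc' : SpecAt (Units.map (E : MK ℂ →* R) (Lu ℂ)) ε (PowerSeries.map E (zetaC f 1))
      (s + 1) c') :
    SpecAt (Units.map (E : MK ℂ →* R) (Lu ℂ)) ε (PowerSeries.map E (zetaC (addyz f) k)) s
      (c + 1 / ((s : ℂ) + 1) * (1 / ((s : ℂ) + 1)) * (1 - (ε (E (a0 f)) + c'))) := by
  set u : Rˣ := Units.map (E : MK ℂ →* R) (Lu ℂ) with hudef
  have hu0 : (u : R) = E ((Lu ℂ : (MK ℂ)ˣ) : MK ℂ) := rfl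
  have hui : ((u⁻¹ : Rˣ) : R) = E (((Lu ℂ)⁻¹ : (MK ℂ)ˣ) : MK ℂ) := rfl
  have h1' : ε (u : R) = 1 := h1
  have hu' : (u : R) ≠ 1 := hu
  have hεi : ε ((u⁻¹ : Rˣ) : R) = 1 := by
    have := congrArg ε (Units.mul_inv u)
    rwa [map_mul, h1', one_mul, map_one] at this
  have key : PowerSeries.map E (zetaC (addyz f) k) =
      PowerSeries.C (u : R) *
        PowerSeries.rescale ((u⁻¹ : Rˣ) : R) (PowerSeries.map E (zetaC f k)) +
      gL u * gL u * (PowerSeries.C ((u : R) ^ n) - PowerSeries.C ((u⁻¹ : Rˣ) : R) *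
          PowerSeries.X * (PowerSeries.C (E (a0 f)) +
            PowerSeries.rescale ((u⁻¹ : Rˣ) : R) (PowerSeries.map E (zetaC f 1)))) -
      PowerSeries.C (((u : R) - 1) ^ 2 * (u : R) ^ n) := by
    rw [zetaC_pair]
    simp only [map_mul, map_add, map_sub, map_pow, map_one, PowerSeries.map_C, PowerSeries.map_X,
      map_geoS, map_rescale', ← hu0, ← hui, gL]
  rw [key]
  have t1 := specAt_mul (specAt_C (u := u) (ε := ε) (u : R) s) (specAt_rescale hc)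
  have t2 := specAt_gL (u := u) (ε := ε) h1' hu' s
  have t3 := specAt_sub (specAt_C (u := u) (ε := ε) ((u : R) ^ n) s)
    (specAt_mul (specAt_mul (specAt_C (u := u) (ε := ε) ((u⁻¹ : Rˣ) : R) s) (specAt_X h1' s))
    (specAt_add (specAt_C (u := u) (ε := ε) (E (a0 f)) s) (specAt_rescale hc')))
  have t4 := specAt_sub (specAt_add t1 (specAt_mul (specAt_mul t2 t2) t3))
    (specAt_C (u := u) (ε := ε) (((u : R) - 1) ^ 2 * (u : R) ^ n) s)
  have e1 : ε (u : R) * c + 1 / ((s : ℂ) + 1) * (1 / ((s : ℂ) + 1)) *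
      (ε ((u : R) ^ n) - ε ((u⁻¹ : Rˣ) : R) * 1 * (ε (E (a0 f)) + c')) -
      ε (((u : R) - 1) ^ 2 * (u : R) ^ n) =
      c + 1 / ((s : ℂ) + 1) * (1 / ((s : ℂ) + 1)) * (1 - (ε (E (a0 f)) + c')) := by
    rw [map_mul, map_pow, map_pow, map_sub, map_one, h1', hεi]
    ring
  rwa [e1] at t4

end spec2

/-! ### Rational functions -/

section rat

open Polynomial

/-- `Z` is regular at `a` with the value `c` -/
def HasVal (Z : RatFunc ℂ) (a c : ℂ) : Prop :=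
  ∃ p q : ℂ[X], Z * algebraMap ℂ[X] (RatFunc ℂ) q = algebraMap ℂ[X] (RatFunc ℂ) p ∧
    q.eval a ≠ 0 ∧ p.eval a = c * q.eval a

theorem alg_ne {q : ℂ[X]} (hq : q ≠ 0) : algebraMap ℂ[X] (RatFunc ℂ) q ≠ 0 := by
  rw [Ne, map_eq_zero_iff _ (RatFunc.algebraMap_injective ℂ)]
  exact hq

theorem hasVal_iff {Z : RatFunc ℂ} {a c : ℂ} : HasVal Z a c ↔
    Z.denom.eval a ≠ 0 ∧ Z.num.eval a = c * Z.denom.eval a := by
  constructor
  · rintro ⟨p, q, h1, h2, h3⟩
    have hq : q ≠ 0 := by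
      rintro rfl
      exact h2 eval_zero
    have h4 : Z = algebraMap ℂ[X] (RatFunc ℂ) p / algebraMap ℂ[X] (RatFunc ℂ) q := by
      rw [eq_div_iff (alg_ne hq)]
      exact h1
    have h5 : Z.num * q = p * Z.denom := (RatFunc.num_mul_eq_mul_denom_iff hq).2 h4
    obtain ⟨r, hr⟩ : Z.denom ∣ q := (RatFunc.denom_dvd hq).2 ⟨p, h4⟩
    have h6 : p = Z.num * r := by
      have h7 : (p - Z.num * r) * Z.denom = 0 := by
        rw [hr] at h5
        linear_combination -h5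
      exact sub_eq_zero.1 ((mul_eq_zero.1 h7).resolve_right Z.denom_ne_zero)
    rw [hr, eval_mul] at h2 h3
    rw [h6, eval_mul] at h3
    obtain ⟨h8, h9⟩ := mul_ne_zero_iff.1 h2
    refine ⟨h8, mul_right_cancel₀ h9 ?_⟩
    rw [h3]
    ring
  · rintro ⟨h1, h2⟩
    refine ⟨Z.num, Z.denom, ?_, h1, h2⟩
    have h3 := RatFunc.num_div_denom Z
    rw [div_eq_iff (alg_ne Z.denom_ne_zero)] at h3
    exact h3.symm

theorem HasVal.add {Z Z' : RatFunc ℂ} {a c c' : ℂ} (h : HasVal Z a c) (h' : HasVal Z' a c') :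
    HasVal (Z + Z') a (c + c') := by
  obtain ⟨p, q, h1, h2, h3⟩ := h
  obtain ⟨p', q', h1', h2', h3'⟩ := h'
  refine ⟨p * q' + p' * q, q * q', ?_, ?_, ?_⟩
  · rw [map_mul, map_add, map_mul, map_mul, ← h1, ← h1']
    ring
  · rw [eval_mul]
    exact mul_ne_zero h2 h2'
  · rw [eval_add, eval_mul, eval_mul, eval_mul, h3, h3']
    ring

theorem HasVal.mul {Z Z' : RatFunc ℂ} {a c c' : ℂ} (h : HasVal Z a c) (h' : HasVal Z' a c') :
    HasVal (Z * Z') a (c * c') := by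
  obtain ⟨p, q, h1, h2, h3⟩ := h
  obtain ⟨p', q', h1', h2', h3'⟩ := h'
  refine ⟨p * p', q * q', ?_, ?_, ?_⟩
  · rw [map_mul, map_mul, ← h1, ← h1']
    ring
  · rw [eval_mul]
    exact mul_ne_zero h2 h2'
  · rw [eval_mul, eval_mul, h3, h3']
    ring

theorem hasVal_C (r a : ℂ) : HasVal (algebraMap ℂ[X] (RatFunc ℂ) (C r)) a r :=
  ⟨C r, 1, by rw [map_one, mul_one], by rw [eval_one]; exact one_ne_zero, by
    rw [eval_C, eval_one, mul_one]⟩

theorem HasVal.sub {Z Z' : RatFunc ℂ} {a c c' : ℂ} (h : HasVal Z a c) (h' : HasVal Z' a c') :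
    HasVal (Z - Z') a (c - c') := by
  have h1 := h.add ((hasVal_C (-1) a).mul h')
  have e1 : Z + algebraMap ℂ[X] (RatFunc ℂ) (C (-1)) * Z' = Z - Z' := by
    rw [map_neg, map_one, map_neg, map_one]
    ring
  have e2 : c + -1 * c' = c - c' := by ring
  rwa [e1, e2] at h1

/-- the shift `Z(s) ↦ Z(s + 1)` -/
noncomputable def sh : RatFunc ℂ →+* RatFunc ℂ :=
  RatFunc.mapRingHom (compRingHom (X + C (1 : ℂ))) (by
    intro p hp
    rw [mem_nonZeroDivisors_iff_ne_zero] at hp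
    rw [Submonoid.mem_comap, mem_nonZeroDivisors_iff_ne_zero]
    exact comp_shift_ne hp 1)

theorem sh_apply (Z : RatFunc ℂ) : sh Z =
    algebraMap ℂ[X] (RatFunc ℂ) (Z.num.comp (X + C 1)) /
      algebraMap ℂ[X] (RatFunc ℂ) (Z.denom.comp (X + C 1)) := by
  unfold sh
  rw [RatFunc.coe_mapRingHom_eq_coe_map, RatFunc.map_apply]
  rfl

theorem hasVal_sh {Z : RatFunc ℂ} {a c : ℂ} (h : HasVal Z (a + 1) c) : HasVal (sh Z) a c := by
  obtain ⟨h1, h2⟩ := hasVal_iff.1 h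
  refine ⟨Z.num.comp (X + C 1), Z.denom.comp (X + C 1), ?_, ?_, ?_⟩
  · rw [sh_apply, div_mul_cancel₀ _ (alg_ne (comp_shift_ne Z.denom_ne_zero 1))]
  · rw [eval_comp, eval_add, eval_X, eval_C]
    exact h1
  · rw [eval_comp, eval_comp, eval_add, eval_X, eval_C]
    exact h2

theorem pole_sh {Z : RatFunc ℂ} {a : ℂ} (h : Z.denom.eval (a + 1) = 0) :
    (sh Z).denom.eval a = 0 := by
  have h1 := num_denom_rel (Z.num.comp (X + C 1)) (Z.denom.comp (X + C 1))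
    (comp_shift_ne Z.denom_ne_zero 1)
  rw [← sh_apply] at h1
  have h2 := congrArg (Polynomial.eval a) h1
  rw [eval_mul, eval_mul, eval_comp, eval_comp, eval_add, eval_X, eval_C, h, mul_zero,
    mul_eq_zero] at h2
  exact h2.resolve_left (num_ne h)

/-- the function `1 / (s + 1) ^ 2` -/
noncomputable def W2 : RatFunc ℂ := (algebraMap ℂ[X] (RatFunc ℂ) ((X + C 1) ^ 2))⁻¹

theorem W2_mul : W2 * algebraMap ℂ[X] (RatFunc ℂ) ((X + C 1) ^ 2) = 1 :=
  inv_mul_cancel₀ (alg_ne (pow_ne_zero 2 (X_add_C_ne_zero _)))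

theorem hasVal_W2 {a : ℂ} (h : a + 1 ≠ 0) : HasVal W2 a (1 / (a + 1) * (1 / (a + 1))) := by
  refine ⟨1, (X + C 1) ^ 2, ?_, ?_, ?_⟩
  · rw [W2_mul, map_one]
  · rw [eval_pow, eval_add, eval_X, eval_C]
    exact pow_ne_zero 2 h
  · rw [eval_one, eval_pow, eval_add, eval_X, eval_C]
    field_simp

variable {R : Type} [CommRing R] [IsDomain R] (E : MK ℂ →+* R) (ε : R →+* ℂ)

theorem isTop_iff {Zm : PowerSeries (MK ℂ)} {Z : RatFunc ℂ} : IsTopZeta E ε Zm Z ↔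
    ∀ s : ℕ, 0 < s → ∃ c, SpecAt (Units.map (E : MK ℂ →* R) (Lu ℂ)) ε (PowerSeries.map E Zm) s c ∧
      HasVal Z s c := by
  constructor
  · intro h s hs
    obtain ⟨c, h1, h2⟩ := h s hs
    exact ⟨c, h1, hasVal_iff.2 ⟨denom_ne_of_pos E ε h hs, h2⟩⟩
  · intro h s hs
    obtain ⟨c, h1, h2⟩ := h s hs
    exact ⟨c, h1, (hasVal_iff.1 h2).2⟩

/-- the topological zeta functions of the covers for `f + y z` -/
theorem isTop_pair (h1 : ε (E ((Lu ℂ : (MK ℂ)ˣ) : MK ℂ)) = 1)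
    (hu : E ((Lu ℂ : (MK ℂ)ˣ) : MK ℂ) ≠ 1) {n : ℕ} (f : MvPolynomial (Fin n) ℂ) (k : ℕ)
    {Y Y1 : RatFunc ℂ} (hY : IsTopZeta E ε (zetaC f k) Y) (hY1 : IsTopZeta E ε (zetaC f 1) Y1) :
    IsTopZeta E ε (zetaC (addyz f) k) (sh Y +
      W2 * (algebraMap ℂ[X] (RatFunc ℂ) (C (1 - ε (E (a0 f)))) - sh Y1)) := by
  rw [isTop_iff] at hY hY1 ⊢
  intro s hs
  obtain ⟨c, hc, hv⟩ := hY (s + 1) (Nat.succ_pos s)
  obtain ⟨c', hc', hv'⟩ := hY1 (s + 1) (Nat.succ_pos s)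
  push_cast at hv hv'
  refine ⟨_, specAt_pair E ε h1 hu f k s c c' hc hc', ?_⟩
  have hs1 : ((s : ℂ) + 1) ≠ 0 := by exact_mod_cast Nat.succ_ne_zero s
  have h2 := (hasVal_sh hv).add ((hasVal_W2 hs1).mul
    ((hasVal_C (1 - ε (E (a0 f))) (s : ℂ)).sub (hasVal_sh hv')))
  have e1 : c + 1 / ((s : ℂ) + 1) * (1 / ((s : ℂ) + 1)) * (1 - ε (E (a0 f)) - c') =
      c + 1 / ((s : ℂ) + 1) * (1 / ((s : ℂ) + 1)) * (1 - (ε (E (a0 f)) + c')) := by ring
  rwa [e1] at h2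

theorem sum_moebius (e : ℕ) : (∑ q ∈ e.divisorsAntidiagonal,
    ((ArithmeticFunction.moebius q.1 : ℤ) : RatFunc ℂ)) = if e = 1 then 1 else 0 := by
  have h1 : ∑ q ∈ e.divisorsAntidiagonal, ArithmeticFunction.moebius q.1 =
      ∑ i ∈ e.divisors, ArithmeticFunction.moebius i :=
    Nat.sum_divisorsAntidiagonal (fun i _ => ArithmeticFunction.moebius i)
  have h2 : ∑ i ∈ e.divisors, ArithmeticFunction.moebius i = if e = 1 then 1 else 0 := by
    rw [← ArithmeticFunction.coe_mul_zeta_apply, ArithmeticFunction.moebius_mul_coe_zeta,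
      ArithmeticFunction.one_apply]
  have h3 := congrArg (fun m : ℤ => (m : RatFunc ℂ)) (h1.trans h2)
  simp only [Int.cast_sum] at h3
  rw [h3]
  split_ifs <;> simp

/-- **One step: the twisted topological zeta function of `f + y z`.** -/
theorem twisted_step (h1 : ε (E ((Lu ℂ : (MK ℂ)ˣ) : MK ℂ)) = 1)
    (hu : E ((Lu ℂ : (MK ℂ)ˣ) : MK ℂ) ≠ 1) {n : ℕ} (f : MvPolynomial (Fin n) ℂ) {e : ℕ}
    {Z : RatFunc ℂ} (hZ : IsTwistedTop E ε f e Z) :
    ∃ Z', IsTwistedTop E ε (addyz f) e Z' ∧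
      ∀ s₀ : ℂ, s₀ ≠ 0 → s₀ ≠ 1 → s₀ ≠ -1 → Z.denom.eval s₀ = 0 →
        Z'.denom.eval (s₀ - 1) = 0 := by
  obtain ⟨Y, hY, hZY⟩ := hZ
  set Q : RatFunc ℂ := algebraMap ℂ[X] (RatFunc ℂ) (C (1 - ε (E (a0 f)))) - sh (Y 1) with hQ
  refine ⟨sh Z + (if e = 1 then 1 else 0) * (W2 * Q), ⟨fun k => sh (Y k) + W2 * Q,
    fun k hk => isTop_pair E ε h1 hu f k (hY k hk) (hY 1 (one_dvd e)), ?_⟩, ?_⟩
  · have h2 : ∑ q ∈ e.divisorsAntidiagonal, ((ArithmeticFunction.moebius q.1 : ℤ) : RatFunc ℂ) *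
        (sh (Y q.2) + W2 * Q) = sh (∑ q ∈ e.divisorsAntidiagonal,
          ((ArithmeticFunction.moebius q.1 : ℤ) : RatFunc ℂ) * Y q.2) +
        (∑ q ∈ e.divisorsAntidiagonal, ((ArithmeticFunction.moebius q.1 : ℤ) : RatFunc ℂ)) *
          (W2 * Q) := by
      rw [map_sum, Finset.sum_mul, ← Finset.sum_add_distrib]
      refine Finset.sum_congr rfl fun q _ => ?_
      rw [map_mul, map_intCast]
      ring
    beta_reduce
    rw [h2, sum_moebius e, ← hZY, map_mul, map_natCast, mul_add]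
    congr 1
    split_ifs with h3
    · subst h3
      simp
    · simp
  · intro s₀ hs0 hs1 hs2 hp
    by_cases h3 : e = 1
    · subst h3
      have hZ1 : Z = Y 1 := by
        rw [Nat.totient_one, Nat.cast_one, one_mul] at hZY
        rw [hZY]
        simp
      rw [if_pos rfl, one_mul]
      by_contra hne
      have hp1 : (sh Z).denom.eval (s₀ - 1) = 0 := pole_sh (by rw [sub_add_cancel]; exact hp)
      have hreg : HasVal (sh Z + W2 * Q) (s₀ - 1)
          ((sh Z + W2 * Q).num.eval (s₀ - 1) / (sh Z + W2 * Q).denom.eval (s₀ - 1)) :=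
        hasVal_iff.2 ⟨hne, (div_mul_cancel₀ _ hne).symm⟩
      obtain ⟨p, q, e1, e2, -⟩ := hreg
      -- multiply with `(X + 1) ^ 2`
      have e3 : sh Z * algebraMap ℂ[X] (RatFunc ℂ) (((X + C 1) ^ 2 - 1) * q) =
          algebraMap ℂ[X] (RatFunc ℂ) (p * (X + C 1) ^ 2 - C (1 - ε (E (a0 f))) * q) := by
        have h4 := W2_mul
        generalize ((X + C 1) ^ 2 : ℂ[X]) = P2 at h4 ⊢
        rw [map_mul, map_sub, map_one, map_sub, map_mul, ← e1, map_mul, hQ, ← hZ1]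
        linear_combination (-(algebraMap ℂ[X] (RatFunc ℂ) (C (1 - ε (E (a0 f)))) - sh Z) *
          algebraMap ℂ[X] (RatFunc ℂ) q) * h4
      have e4 : (((X + C 1) ^ 2 - 1) * q : ℂ[X]).eval (s₀ - 1) ≠ 0 := by
        rw [eval_mul, eval_sub, eval_pow, eval_add, eval_X, eval_C, eval_one]
        refine mul_ne_zero ?_ e2
        rw [sub_add_cancel]
        intro h5
        have h6 : (s₀ - 1) * (s₀ + 1) = 0 := by linear_combination h5
        rcases mul_eq_zero.1 h6 with h7 | h7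
        · exact hs1 (sub_eq_zero.1 h7)
        · exact hs2 (eq_neg_of_add_eq_zero_left h7)
      have e5 : HasVal (sh Z) (s₀ - 1) ((p * (X + C 1) ^ 2 - C (1 - ε (E (a0 f))) * q).eval
          (s₀ - 1) / (((X + C 1) ^ 2 - 1) * q : ℂ[X]).eval (s₀ - 1)) :=
        ⟨_, _, e3, e4, (div_mul_cancel₀ _ e4).symm⟩
      exact (hasVal_iff.1 e5).1 hp1
    · rw [if_neg h3, zero_mul, add_zero]
      exact pole_sh (by rw [sub_add_cancel]; exact hp)

end rat

end Pool.Agent.Q223.TW
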