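import Pool.Agent.Q223.TW.SeriesL
import Pool.Agent.Q223.TW.Top

/-!
# The local topological zeta functions of `f + y z`
-/

set_option autoImplicit false
set_option linter.unusedSectionVars false

namespace Pool.Agent.Q223.TW

open Pool.Agent.W428.MOT Pool.Agent.TH192.MT Pool.Agent.TH192.MU
open Pool.Agent.Q223.ID
open Pool.Agent.Y229.MS (addyz CE ce_good)
open Pool.Agent.W375.MG (good_units)

/-- the nonzero numbers -/
def Un : Set (AlgebraicClosure ℂ) := {c | c ≠ 0}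

section spec

variable {R : Type} [CommRing R] [IsDomain R] (E : MK ℂ →+* R) (ε : R →+* ℂ)

theorem cE_units : cE Un = ((Lu ℂ : (MK ℂ)ˣ) : MK ℂ) - 1 := by
  obtain ⟨M₀, hM₀⟩ := Pool.Agent.W417.MT.K0.main ℂ
  have h1 := Pool.Agent.W417.MT.Free.chi_gm (K := ℂ)
    (Pool.Agent.W63.MTFin.mapMeas M₀ (algebraMap (K0 ℂ) (MK ℂ)))
  have hL : (Pool.Agent.W63.MTFin.mapMeas M₀ (algebraMap (K0 ℂ) (MK ℂ))).L *
      (((Lu ℂ)⁻¹ : (MK ℂ)ˣ) : MK ℂ) = 1 := Pool.Agent.W63.MTFin.L_mul hM₀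
  have hLY : ((Lu ℂ : (MK ℂ)ˣ) : MK ℂ) * (((Lu ℂ)⁻¹ : (MK ℂ)ˣ) : MK ℂ) = 1 := Units.mul_inv _
  have h2 : (Pool.Agent.W63.MTFin.mapMeas M₀ (algebraMap (K0 ℂ) (MK ℂ))).L =
      ((Lu ℂ : (MK ℂ)ˣ) : MK ℂ) := by
    calc _ = (Pool.Agent.W63.MTFin.mapMeas M₀ (algebraMap (K0 ℂ) (MK ℂ))).L *
        (((Lu ℂ : (MK ℂ)ˣ) : MK ℂ) * (((Lu ℂ)⁻¹ : (MK ℂ)ˣ) : MK ℂ)) := by rw [hLY, mul_one]
      _ = ((Pool.Agent.W63.MTFin.mapMeas M₀ (algebraMap (K0 ℂ) (MK ℂ))).L *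
        (((Lu ℂ)⁻¹ : (MK ℂ)ˣ) : MK ℂ)) * ((Lu ℂ : (MK ℂ)ˣ) : MK ℂ) := by ring
      _ = _ := by rw [hL, one_mul]
  rw [h2] at h1
  rw [cE, ← hM₀]
  exact h1

theorem specAt_pairL (h1 : ε (E ((Lu ℂ : (MK ℂ)ˣ) : MK ℂ)) = 1)
    (hu : E ((Lu ℂ : (MK ℂ)ˣ) : MK ℂ) ≠ 1) {n : ℕ} (f : MvPolynomial (Fin n) ℂ)
    (h0 : MvPolynomial.coeff 0 f = 0) (k s : ℕ) (c c' : ℂ)
    (hc : SpecAt (Units.map (E : MK ℂ →* R) (Lu ℂ)) ε (PowerSeries.map E (zetaE f {0} Un k))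
      (s + 1) c)
    (hc' : SpecAt (Units.map (E : MK ℂ →* R) (Lu ℂ)) ε (PowerSeries.map E (zetaE f {0} Un 1))
      (s + 1) c') :
    SpecAt (Units.map (E : MK ℂ →* R) (Lu ℂ)) ε (PowerSeries.map E (zetaE (addyz f) {0} Un k)) s
      (c + 1 / ((s : ℂ) + 1) * (1 / ((s : ℂ) + 1)) * (1 - c')) := by
  set u : Rˣ := Units.map (E : MK ℂ →* R) (Lu ℂ) with hudef
  have hu0 : (u : R) = E ((Lu ℂ : (MK ℂ)ˣ) : MK ℂ) := rfl
  have hui : ((u⁻¹ : Rˣ) : R) = E (((Lu ℂ)⁻¹ : (MK ℂ)ˣ) : MK ℂ) := rfl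
  have h1' : ε (u : R) = 1 := h1
  have hu' : (u : R) ≠ 1 := hu
  have hεi : ε ((u⁻¹ : Rˣ) : R) = 1 := by
    have := congrArg ε (Units.mul_inv u)
    rwa [map_mul, h1', one_mul, map_one] at this
  have key : PowerSeries.map E (zetaE (addyz f) {0} Un k) =
      PowerSeries.C (u : R) *
        PowerSeries.rescale ((u⁻¹ : Rˣ) : R) (PowerSeries.map E (zetaE f {0} Un k)) +
      gL u * gL u * (PowerSeries.C ((u⁻¹ : Rˣ) : R) * PowerSeries.X *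
        (PowerSeries.C ((u⁻¹ : Rˣ) : R) * PowerSeries.X -
        PowerSeries.rescale ((u⁻¹ : Rˣ) : R) (PowerSeries.map E (zetaE f {0} Un 1)))) := by
    have h2 := zetaE_pair f h0 (ce_good good_units) k
    have h3 : (zetaE (addyz f) {0} Un k) = _ := h2
    rw [h3]
    change PowerSeries.map E (PowerSeries.C _ * PowerSeries.rescale _ (zetaE f {0} Un k) +
      PowerSeries.C (_ * cE Un) * (_ * (_ * (_ - PowerSeries.rescale _ (zetaE f {0} Un 1))))) = _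
    rw [cE_units]
    simp only [map_mul, map_add, map_sub, map_one, PowerSeries.map_C, PowerSeries.map_X,
      map_geoS, map_rescale', ← hu0, ← hui, gL]
    ring
  rw [key]
  have t1 := specAt_mul (specAt_C (u := u) (ε := ε) (u : R) s) (specAt_rescale hc)
  have t2 := specAt_gL (u := u) (ε := ε) h1' hu' s
  have tX := specAt_mul (specAt_C (u := u) (ε := ε) ((u⁻¹ : Rˣ) : R) s) (specAt_X h1' s)
  have t4 := specAt_add t1 (specAt_mul (specAt_mul t2 t2)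
    (specAt_mul tX (specAt_sub tX (specAt_rescale hc'))))
  have e1 : ε (u : R) * c + 1 / ((s : ℂ) + 1) * (1 / ((s : ℂ) + 1)) *
      (ε ((u⁻¹ : Rˣ) : R) * 1 * (ε ((u⁻¹ : Rˣ) : R) * 1 - c')) =
      c + 1 / ((s : ℂ) + 1) * (1 / ((s : ℂ) + 1)) * (1 - c') := by
    rw [h1', hεi]
    ring
  rwa [e1] at t4

end spec

section rat

open Polynomial

variable {R : Type} [CommRing R] [IsDomain R] (E : MK ℂ →+* R) (ε : R →+* ℂ)

/-- the local topological zeta functions for `f + y z` -/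
theorem isTop_pairL (h1 : ε (E ((Lu ℂ : (MK ℂ)ˣ) : MK ℂ)) = 1)
    (hu : E ((Lu ℂ : (MK ℂ)ˣ) : MK ℂ) ≠ 1) {n : ℕ} (f : MvPolynomial (Fin n) ℂ)
    (h0 : MvPolynomial.coeff 0 f = 0) (k : ℕ)
    {Y Y1 : RatFunc ℂ} (hY : IsTopZeta E ε (zetaE f {0} Un k) Y)
    (hY1 : IsTopZeta E ε (zetaE f {0} Un 1) Y1) :
    IsTopZeta E ε (zetaE (addyz f) {0} Un k) (sh Y +
      W2 * (algebraMap ℂ[X] (RatFunc ℂ) (C 1) - sh Y1)) := by
  rw [isTop_iff] at hY hY1 ⊢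
  intro s hs
  obtain ⟨c, hc, hv⟩ := hY (s + 1) (Nat.succ_pos s)
  obtain ⟨c', hc', hv'⟩ := hY1 (s + 1) (Nat.succ_pos s)
  push_cast at hv hv'
  refine ⟨_, specAt_pairL E ε h1 hu f h0 k s c c' hc hc', ?_⟩
  have hs1 : ((s : ℂ) + 1) ≠ 0 := by exact_mod_cast Nat.succ_ne_zero s
  exact (hasVal_sh hv).add ((hasVal_W2 hs1).mul ((hasVal_C 1 (s : ℂ)).sub (hasVal_sh hv')))

/-- the poles move by `-1` -/
theorem pole_step (Z : RatFunc ℂ) (r s₀ : ℂ) (hs1 : s₀ ≠ 1) (hs2 : s₀ ≠ -1)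
    (hp : Z.denom.eval s₀ = 0) :
    (sh Z + W2 * (algebraMap ℂ[X] (RatFunc ℂ) (C r) - sh Z)).denom.eval (s₀ - 1) = 0 := by
  by_contra hne
  set Z' := sh Z + W2 * (algebraMap ℂ[X] (RatFunc ℂ) (C r) - sh Z) with hZ'
  have hp1 : (sh Z).denom.eval (s₀ - 1) = 0 := pole_sh (by rw [sub_add_cancel]; exact hp)
  have hreg : HasVal Z' (s₀ - 1) (Z'.num.eval (s₀ - 1) / Z'.denom.eval (s₀ - 1)) :=
    hasVal_iff.2 ⟨hne, (div_mul_cancel₀ _ hne).symm⟩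
  obtain ⟨p, q, e1, e2, -⟩ := hreg
  have e3 : sh Z * algebraMap ℂ[X] (RatFunc ℂ) (((X + C 1) ^ 2 - 1) * q) =
      algebraMap ℂ[X] (RatFunc ℂ) (p * (X + C 1) ^ 2 - C r * q) := by
    have h4 := W2_mul
    generalize ((X + C 1) ^ 2 : ℂ[X]) = P2 at h4 ⊢
    rw [map_mul, map_sub, map_one, map_sub, map_mul, ← e1, map_mul, hZ']
    linear_combination (-(algebraMap ℂ[X] (RatFunc ℂ) (C r) - sh Z) *
      algebraMap ℂ[X] (RatFunc ℂ) q) * h4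
  have e4 : (((X + C 1) ^ 2 - 1) * q : ℂ[X]).eval (s₀ - 1) ≠ 0 := by
    rw [eval_mul, eval_sub, eval_pow, eval_add, eval_X, eval_C, eval_one]
    refine mul_ne_zero ?_ e2
    rw [sub_add_cancel]
    intro h5
    have h6 : (s₀ - 1) * (s₀ + 1) = 0 := by linear_combination h5
    rcases mul_eq_zero.1 h6 with h7 | h7
    · exact hs1 (sub_eq_zero.1 h7)
    · exact hs2 (eq_neg_of_add_eq_zero_left h7)
  have e5 : HasVal (sh Z) (s₀ - 1) ((p * (X + C 1) ^ 2 - C r * q).eval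
      (s₀ - 1) / (((X + C 1) ^ 2 - 1) * q : ℂ[X]).eval (s₀ - 1)) :=
    ⟨_, _, e3, e4, (div_mul_cancel₀ _ e4).symm⟩
  exact (hasVal_iff.1 e5).1 hp1

/-- multiplication with a constant of Euler characteristic one -/
theorem isTop_C {Zm : PowerSeries (MK ℂ)} {a : MK ℂ} (ha : ε (E a) = 1) {Z : RatFunc ℂ}
    (h : IsTopZeta E ε Zm Z) : IsTopZeta E ε (PowerSeries.C a * Zm) Z := by
  intro s hs
  obtain ⟨c, h1, h2⟩ := h s hs
  refine ⟨c, ?_, h2⟩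
  have h3 := specAt_mul (specAt_C (u := Units.map (E : MK ℂ →* R) (Lu ℂ)) (ε := ε) (E a) s) h1
  rw [ha, one_mul] at h3
  rw [map_mul, PowerSeries.map_C]
  exact h3

theorem eps_zpow (h1 : ε (E ((Lu ℂ : (MK ℂ)ˣ) : MK ℂ)) = 1) (m : ℤ) :
    ε (E (((Lu ℂ) ^ m : (MK ℂ)ˣ) : MK ℂ)) = 1 := by
  have h2 : Units.map ((ε.comp E : MK ℂ →+* ℂ) : MK ℂ →* ℂ) (Lu ℂ) = 1 := Units.ext h1
  have h3 : Units.map ((ε.comp E : MK ℂ →+* ℂ) : MK ℂ →* ℂ) ((Lu ℂ) ^ m) = 1 := by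
    rw [map_zpow, h2, one_zpow]
  exact congrArg Units.val h3

/-- the two forms of the local zeta function -/
theorem zetaO_eq {n : ℕ} (f : MvPolynomial (Fin n) ℂ) : zetaO f =
    PowerSeries.C (((Lu ℂ) ^ (-(n : ℤ)) : (MK ℂ)ˣ) : MK ℂ) * zetaE f {0} Un 1 := by
  obtain ⟨M₀, hM₀⟩ := Pool.Agent.W417.MT.K0.main ℂ
  unfold zetaO
  rw [Fintype.card_fin]
  congr 1
  ext d
  rw [PowerSeries.coeff_mk, zetaE, PowerSeries.coeff_mk]
  split_ifs with h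
  · rfl
  · rw [← hM₀, ← hM₀, Un, chi_JetE_one constr_zero (ce_good good_units) M₀ f d, Fintype.card_fin]

theorem isTop_zetaO (h1 : ε (E ((Lu ℂ : (MK ℂ)ˣ) : MK ℂ)) = 1) {n : ℕ}
    (f : MvPolynomial (Fin n) ℂ) {Z : RatFunc ℂ} :
    IsTopZeta E ε (zetaO f) Z ↔ IsTopZeta E ε (zetaE f {0} Un 1) Z := by
  constructor
  · intro h
    have h2 := isTop_C E ε (eps_zpow E ε h1 (n : ℤ)) h
    rwa [zetaO_eq, ← mul_assoc, ← map_mul, ← Units.val_mul, ← zpow_add, add_neg_cancel, zpow_zero,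
      Units.val_one, map_one, one_mul] at h2
  · intro h
    rw [zetaO_eq]
    exact isTop_C E ε (eps_zpow E ε h1 (-(n : ℤ))) h

end rat

end Pool.Agent.Q223.TW
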