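import Pool.Agent.Q223.TW.Red
import Pool.Agent.Q223.TW.TopL
import Pool.Agent.TH192.MU.TwZ
import Pool.Agent.Y229.GL.Glo

/-!
# The global topological monodromy conjecture: the reduction to programs
-/

set_option autoImplicit false
set_option linter.unusedSectionVars false

namespace Pool.Agent.Q223.TW

open Pool.Agent.W428.MOT Pool.Agent.TH192.MT Pool.Agent.TH192.MU
open Pool.Agent.Q223.ID Pool.Agent.Q223.MM
open Pool.Agent.H628R4.TP
open Pool.Agent.Y229.MS (addyz itr stabK)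

variable {R : Type} [CommRing R] (E : MK ℂ →+* R) (ε : R →+* ℂ)

/-- For every pole `s₀` of the topological zeta function of `f` and every `b` with
`b(s) f ^ s = P(s) f ^ (s + 1)` there is an integer `j` with `b(s₀ + j) = 0`. -/
def WeakG {n : ℕ} (f : MvPolynomial (Fin n) ℂ) : Prop :=
  ∀ Z : RatFunc ℂ, IsTopZeta E ε (zetaM f Set.univ {c | c ≠ 0}) Z → ∀ s₀ : ℂ,
    Z.denom.eval s₀ = 0 → ∀ b : Polynomial ℂ, IsBFunction f b → ∃ j : ℤ, b.eval (s₀ + j) = 0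

/-- Every pole `s₀ ≠ 0` of the topological zeta function of `f` is a root of every `b` with
`b(s) f ^ s = P(s) f ^ (s + 1)`. -/
def StrongG {n : ℕ} (f : MvPolynomial (Fin n) ℂ) : Prop :=
  ∀ Z : RatFunc ℂ, IsTopZeta E ε (zetaM f Set.univ {c | c ≠ 0}) Z → ∀ s₀ : ℂ, s₀ ≠ 0 →
    Z.denom.eval s₀ = 0 → ∀ b : Polynomial ℂ, IsBFunction f b → b.eval s₀ = 0

theorem twisted_one {n : ℕ} {f : MvPolynomial (Fin n) ℂ} {Z : RatFunc ℂ} :
    IsTwistedTop E ε f 1 Z ↔ IsTopZeta E ε (zetaC f 1) Z := by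
  have h1 : ∀ Y : ℕ → RatFunc ℂ, (∑ q ∈ Nat.divisorsAntidiagonal 1,
      ((ArithmeticFunction.moebius q.1 : ℤ) : RatFunc ℂ) * Y q.2) = Y 1 := by
    intro Y
    rw [Nat.divisorsAntidiagonal_one, Finset.sum_singleton]
    show ((ArithmeticFunction.moebius 1 : ℤ) : RatFunc ℂ) * Y 1 = Y 1
    rw [ArithmeticFunction.moebius_apply_one, Int.cast_one, one_mul]
  constructor
  · rintro ⟨Y, hY, hZ⟩
    rw [h1, Nat.totient_one, Nat.cast_one, one_mul] at hZ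
    rw [hZ]
    exact hY 1 dvd_rfl
  · intro h
    refine ⟨fun _ => Z, fun k hk => ?_, ?_⟩
    · rw [Nat.dvd_one.1 hk]
      exact h
    · rw [h1 (fun _ => Z), Nat.totient_one, Nat.cast_one, one_mul]

/-- adding a constant does not change the poles -/
theorem denom_add_C (Z : RatFunc ℂ) (r a : ℂ) :
    (Z + algebraMap (Polynomial ℂ) (RatFunc ℂ) (Polynomial.C r)).denom.eval a = 0 ↔
      Z.denom.eval a = 0 := by
  have h1 : ∀ (Y : RatFunc ℂ) (t : ℂ), Y.denom.eval a ≠ 0 →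
      (Y + algebraMap (Polynomial ℂ) (RatFunc ℂ) (Polynomial.C t)).denom.eval a ≠ 0 := by
    intro Y t hY
    have h2 : HasVal Y a (Y.num.eval a / Y.denom.eval a) :=
      hasVal_iff.2 ⟨hY, (div_mul_cancel₀ _ hY).symm⟩
    exact (hasVal_iff.1 (h2.add (hasVal_C t a))).1
  constructor
  · intro h
    by_contra h2
    exact h1 Z r h2 h
  · intro h
    by_contra h2
    have h3 := h1 _ (-r) h2
    rw [add_assoc, ← map_add, ← Polynomial.C_add, add_neg_cancel, Polynomial.C_0, map_zero,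
      add_zero] at h3
    exact h3 h

theorem top_add_C {Zm : PowerSeries (MK ℂ)} (a : MK ℂ) {Z : RatFunc ℂ} [IsDomain R]
    (h : IsTopZeta E ε Zm Z) : IsTopZeta E ε (Zm + PowerSeries.C a)
      (Z + algebraMap (Polynomial ℂ) (RatFunc ℂ) (Polynomial.C (ε (E a)))) := by
  rw [isTop_iff] at h ⊢
  intro s hs
  obtain ⟨c, h1, h2⟩ := h s hs
  refine ⟨c + ε (E a), ?_, h2.add (hasVal_C _ _)⟩
  rw [map_add, PowerSeries.map_C]
  exact specAt_add h1 (specAt_C _ s)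

variable [IsDomain R]

theorem top_M_C {n : ℕ} {f : MvPolynomial (Fin n) ℂ} {Z : RatFunc ℂ}
    (h : IsTopZeta E ε (zetaM f Set.univ {c | c ≠ 0}) Z) :
    ∃ r : ℂ, IsTwistedTop E ε f 1 (Z + algebraMap (Polynomial ℂ) (RatFunc ℂ) (Polynomial.C r)) := by
  have h1 := top_add_C E ε (-(PowerSeries.coeff 0 (zetaM f Set.univ {c | c ≠ 0}))) h
  rw [map_neg PowerSeries.C, ← sub_eq_add_neg, ← zetaC_one] at h1
  exact ⟨_, (twisted_one E ε).2 h1⟩

theorem top_C_M {n : ℕ} {f : MvPolynomial (Fin n) ℂ} {Z : RatFunc ℂ}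
    (h : IsTwistedTop E ε f 1 Z) :
    ∃ r : ℂ, IsTopZeta E ε (zetaM f Set.univ {c | c ≠ 0})
      (Z + algebraMap (Polynomial ℂ) (RatFunc ℂ) (Polynomial.C r)) := by
  have h1 := top_add_C E ε (PowerSeries.coeff 0 (zetaM f Set.univ {c | c ≠ 0}))
    ((twisted_one E ε).1 h)
  rw [zetaC_one, sub_add_cancel] at h1
  exact ⟨_, h1⟩

theorem weakG_iff {n : ℕ} (f : MvPolynomial (Fin n) ℂ) : WeakG E ε f ↔ WeakTw E ε 1 f := by
  constructor
  · intro h Z hZ s₀ hs b hb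
    obtain ⟨r, hr⟩ := top_C_M E ε hZ
    exact h _ hr s₀ ((denom_add_C Z r s₀).2 hs) b hb
  · intro h Z hZ s₀ hs b hb
    obtain ⟨r, hr⟩ := top_M_C E ε hZ
    exact h _ hr s₀ ((denom_add_C Z r s₀).2 hs) b hb

theorem strongG_iff {n : ℕ} (f : MvPolynomial (Fin n) ℂ) : StrongG E ε f ↔ StrongTw E ε 1 f := by
  constructor
  · intro h Z hZ s₀ hs0 hs b hb
    obtain ⟨r, hr⟩ := top_C_M E ε hZ
    exact h _ hr s₀ hs0 ((denom_add_C Z r s₀).2 hs) b hb
  · intro h Z hZ s₀ hs0 hs b hb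
    obtain ⟨r, hr⟩ := top_M_C E ε hZ
    exact h _ hr s₀ hs0 ((denom_add_C Z r s₀).2 hs) b hb

/-! ### Translations -/

theorem bfun_aut {n : ℕ} {f : MvPolynomial (Fin n) ℂ}
    (τ : MvPolynomial (Fin n) ℂ ≃ₐ[ℂ] MvPolynomial (Fin n) ℂ) {b : Polynomial ℂ}
    (hb : IsBFunction f b) : IsBFunction (τ f) b := by
  have h3 := Pool.Agent.W578.SI.b_transfer τ (Pool.Agent.Y229.PG.cj_all τ) 1 one_ne_zero _ _ hb
  rwa [MvPolynomial.C_1, one_mul] at h3

/-- the translation by `p` -/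
noncomputable def trl {n : ℕ} (p : Fin n → ℂ) :
    MvPolynomial (Fin n) ℂ ≃ₐ[ℂ] MvPolynomial (Fin n) ℂ :=
  AlgEquiv.ofAlgHom (MvPolynomial.aeval fun i => MvPolynomial.X i + MvPolynomial.C (p i))
    (MvPolynomial.aeval fun i => MvPolynomial.X i - MvPolynomial.C (p i))
    (by
      apply MvPolynomial.algHom_ext
      intro i
      rw [AlgHom.comp_apply, MvPolynomial.aeval_X, map_sub, MvPolynomial.aeval_X,
        ← MvPolynomial.algebraMap_eq, AlgHom.commutes, add_sub_cancel_right]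
      rfl)
    (by
      apply MvPolynomial.algHom_ext
      intro i
      rw [AlgHom.comp_apply, MvPolynomial.aeval_X, map_add, MvPolynomial.aeval_X,
        ← MvPolynomial.algebraMap_eq, AlgHom.commutes, sub_add_cancel]
      rfl)

theorem trl_X {n : ℕ} (p : Fin n → ℂ) (i : Fin n) :
    trl p (MvPolynomial.X i) = MvPolynomial.X i + MvPolynomial.C (p i) :=
  MvPolynomial.aeval_X _ _

theorem trl_eval {n : ℕ} (p : Fin n → ℂ) (f : MvPolynomial (Fin n) ℂ) :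
    MvPolynomial.eval 0 (trl p f) = MvPolynomial.eval p f := by
  have h1 : (MvPolynomial.eval (0 : Fin n → ℂ)).comp
      ((trl p : MvPolynomial (Fin n) ℂ ≃ₐ[ℂ] MvPolynomial (Fin n) ℂ) :
        MvPolynomial (Fin n) ℂ →+* MvPolynomial (Fin n) ℂ) = MvPolynomial.eval p := by
    apply MvPolynomial.ringHom_ext
    · intro r
      rw [RingHom.comp_apply, MvPolynomial.eval_C]
      have h2 : (trl p : MvPolynomial (Fin n) ℂ →+* MvPolynomial (Fin n) ℂ) (MvPolynomial.C r) =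
          MvPolynomial.C r := (trl p).commutes r
      rw [h2, MvPolynomial.eval_C]
    · intro i
      rw [RingHom.comp_apply, MvPolynomial.eval_X]
      have h2 : (trl p : MvPolynomial (Fin n) ℂ →+* MvPolynomial (Fin n) ℂ)
          (MvPolynomial.X i) = MvPolynomial.X i + MvPolynomial.C (p i) := trl_X p i
      rw [h2, map_add, MvPolynomial.eval_X, MvPolynomial.eval_C, Pi.zero_apply, zero_add]
  exact congrArg (fun φ : MvPolynomial (Fin n) ℂ →+* ℂ => φ f) h1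

theorem aut_deg {n : ℕ} (τ : MvPolynomial (Fin n) ℂ ≃ₐ[ℂ] MvPolynomial (Fin n) ℂ)
    {f : MvPolynomial (Fin n) ℂ} (hf : f.totalDegree ≠ 0) : (τ f).totalDegree ≠ 0 := by
  intro h
  apply hf
  have h1 := MvPolynomial.totalDegree_eq_zero_iff_eq_C.1 h
  have h2 : f = MvPolynomial.C (MvPolynomial.coeff 0 (τ f)) := by
    apply τ.injective
    refine h1.trans ?_
    exact (τ.commutes _).symm
  rw [h2, MvPolynomial.totalDegree_C]

theorem weakG_aut {n : ℕ} {f : MvPolynomial (Fin n) ℂ}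
    (τ : MvPolynomial (Fin n) ℂ ≃ₐ[ℂ] MvPolynomial (Fin n) ℂ) (h : WeakG E ε (τ f)) :
    WeakG E ε f := by
  rw [weakG_iff] at h ⊢
  intro Z hZ s₀ hs b hb
  exact h Z (twisted_iso E ε τ rfl rfl hZ) s₀ hs b (bfun_aut τ hb)

theorem strongG_aut {n : ℕ} {f : MvPolynomial (Fin n) ℂ}
    (τ : MvPolynomial (Fin n) ℂ ≃ₐ[ℂ] MvPolynomial (Fin n) ℂ) (h : StrongG E ε (τ f)) :
    StrongG E ε f := by
  rw [strongG_iff] at h ⊢
  intro Z hZ s₀ hs0 hs b hb
  exact h Z (twisted_iso E ε τ rfl rfl hZ) s₀ hs0 hs b (bfun_aut τ hb)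

/-- **The reduction for one polynomial.** -/
theorem reduceG (S : Set ℂ) (hS : (1 : ℂ) ∈ AddSubgroup.closure S) (N n : ℕ)
    (f : MvPolynomial (Fin n) ℂ) (hf : f.totalDegree ≠ 0)
    (h0 : MvPolynomial.eval 0 f = 0 ∨ S = Set.univ)
    (hfS : ∀ d, MvPolynomial.coeff d f ∈ AddSubgroup.closure S) :
    ∃ κ₁ : ℕ, ∀ κ, κ₁ ≤ κ → ∃ (o : Fin κ → Option (Fin κ)) (v : Fin κ → Fin n) (c : Fin κ → ℂ),
      Forest o ∧ (∀ m, c m ∈ coeffs S) ∧ MinExp N (prog o v c) ∧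
      ∀ (R : Type) [CommRing R] [IsDomain R] (E : MK ℂ →+* R) (ε : R →+* ℂ),
        ε (E ((Lu ℂ : (MK ℂ)ˣ) : MK ℂ)) = 1 → E ((Lu ℂ : (MK ℂ)ˣ) : MK ℂ) ≠ 1 →
        (WeakG E ε (prog o v c) → WeakG E ε f) ∧ (StrongG E ε (prog o v c) → StrongG E ε f) := by
  obtain ⟨τ, hτ0, hτS⟩ : ∃ τ : MvPolynomial (Fin n) ℂ ≃ₐ[ℂ] MvPolynomial (Fin n) ℂ,
      MvPolynomial.eval 0 (τ f) = 0 ∧
        ∀ d, MvPolynomial.coeff d (τ f) ∈ AddSubgroup.closure S := by
    rcases h0 with h0 | rfl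
    · exact ⟨AlgEquiv.refl, h0, hfS⟩
    · obtain ⟨p, hp⟩ := Pool.Agent.Y229.GL.exists_zero f hf
      exact ⟨trl p, by rw [trl_eval, hp], fun d => AddSubgroup.subset_closure (Set.mem_univ _)⟩
  obtain ⟨κ₁, h1⟩ := reduce S hS N n (τ f) (aut_deg τ hf) hτ0 hτS
  refine ⟨κ₁, fun κ hκ => ?_⟩
  obtain ⟨o, v, c, ho, hc, hm, h2⟩ := h1 κ hκ
  refine ⟨o, v, c, ho, hc, hm, fun R _ _ E ε h3 h4 => ?_⟩
  obtain ⟨h5, h6⟩ := h2 R E ε h3 h4 1 one_pos
  refine ⟨fun h => weakG_aut E ε τ ?_, fun h => strongG_aut E ε τ ?_⟩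
  · rw [weakG_iff] at h ⊢
    exact h5 h
  · rw [strongG_iff] at h ⊢
    exact h6 h

end Pool.Agent.Q223.TW
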