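import Pool.Agent.Q223.TW.Top
import Pool.Agent.Q223.MM.Red

/-!
# The twisted monodromy conjecture: the reduction to programs
-/

set_option autoImplicit false
set_option linter.unusedSectionVars false

namespace Pool.Agent.Q223.TW

open Pool.Agent.W428.MOT Pool.Agent.TH192.MT Pool.Agent.TH192.MU
open Pool.Agent.Q223.ID Pool.Agent.Q223.MM
open Pool.Agent.H628R4.TP
open Pool.Agent.Y229.MS (addyz itr stabK)
open Pool.Agent.Y229.PG (BecomesG becomes_global)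

variable {R : Type} [CommRing R] (E : MK ℂ →+* R) (ε : R →+* ℂ)

/-- For every pole `s₀` of the twisted topological zeta function `Z^(e)` of `f` and every `b` with
`b(s) f ^ s = P(s) f ^ (s + 1)` there is an integer `j` with `b(s₀ + j) = 0`. -/
def WeakTw (e : ℕ) {n : ℕ} (f : MvPolynomial (Fin n) ℂ) : Prop :=
  ∀ Z : RatFunc ℂ, IsTwistedTop E ε f e Z → ∀ s₀ : ℂ, Z.denom.eval s₀ = 0 →
    ∀ b : Polynomial ℂ, IsBFunction f b → ∃ j : ℤ, b.eval (s₀ + j) = 0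

/-- Every pole `s₀ ≠ 0` of the twisted topological zeta function `Z^(e)` of `f` is a root of every `b`
with `b(s) f ^ s = P(s) f ^ (s + 1)`. -/
def StrongTw (e : ℕ) {n : ℕ} (f : MvPolynomial (Fin n) ℂ) : Prop :=
  ∀ Z : RatFunc ℂ, IsTwistedTop E ε f e Z → ∀ s₀ : ℂ, s₀ ≠ 0 → Z.denom.eval s₀ = 0 →
    ∀ b : Polynomial ℂ, IsBFunction f b → b.eval s₀ = 0

theorem twisted_iso {n m : ℕ} (χ : MvPolynomial (Fin n) ℂ ≃ₐ[ℂ] MvPolynomial (Fin m) ℂ)
    (h : m = n) {f : MvPolynomial (Fin n) ℂ} {F : MvPolynomial (Fin m) ℂ} (hχ : χ f = F)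
    {e : ℕ} {Z : RatFunc ℂ} (hZ : IsTwistedTop E ε f e Z) : IsTwistedTop E ε F e Z := by
  obtain ⟨Y, hY, hZY⟩ := hZ
  refine ⟨Y, fun k hk => ?_, hZY⟩
  rw [← hχ, zetaC_iso χ (by rw [Fintype.card_fin, Fintype.card_fin, h])]
  exact hY k hk

variable [IsDomain R]

/-- no poles at positive integers -/
theorem twisted_pos {n : ℕ} {f : MvPolynomial (Fin n) ℂ} {e : ℕ} (he : 0 < e) {Z : RatFunc ℂ}
    (hZ : IsTwistedTop E ε f e Z) {k : ℕ} (hk : 0 < k) : Z.denom.eval (k : ℂ) ≠ 0 := by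
  obtain ⟨Y, hY, hZY⟩ := hZ
  have h1 : ∀ s : Finset (ℕ × ℕ), (∀ q ∈ s, q.2 ∣ e) → ∃ c, HasVal (∑ q ∈ s,
      ((ArithmeticFunction.moebius q.1 : ℤ) : RatFunc ℂ) * Y q.2) (k : ℂ) c := by
    classical
    intro s hs
    induction s using Finset.induction_on with
    | empty =>
      refine ⟨0, 0, 1, ?_, ?_, ?_⟩
      · rw [Finset.sum_empty, map_zero, zero_mul]
      · rw [Polynomial.eval_one]
        exact one_ne_zero
      · rw [Polynomial.eval_zero, zero_mul]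
    | insert q s hq ih =>
      obtain ⟨c, hc⟩ := ih fun q' hq' => hs q' (Finset.mem_insert_of_mem hq')
      obtain ⟨c', -, hc'⟩ := (isTop_iff E ε).1 (hY q.2 (hs q (Finset.mem_insert_self _ _))) k hk
      rw [Finset.sum_insert hq]
      have h2 := hasVal_C ((ArithmeticFunction.moebius q.1 : ℤ) : ℂ) (k : ℂ)
      have h3 : algebraMap (Polynomial ℂ) (RatFunc ℂ)
          (Polynomial.C ((ArithmeticFunction.moebius q.1 : ℤ) : ℂ)) =
          ((ArithmeticFunction.moebius q.1 : ℤ) : RatFunc ℂ) := by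
        rw [map_intCast, map_intCast]
      rw [h3] at h2
      exact ⟨_, (h2.mul hc').add hc⟩
  obtain ⟨c, p, q, e1, e2, -⟩ := h1 e.divisorsAntidiagonal fun q hq =>
    Dvd.intro_left q.1 (Nat.mem_divisorsAntidiagonal.1 hq).1
  rw [← hZY] at e1
  have hφ : ((Nat.totient e : ℕ) : ℂ) ≠ 0 := by
    have h2 : 0 < Nat.totient e := Nat.totient_pos.2 he
    exact_mod_cast h2.ne'
  have e3 : Z * algebraMap (Polynomial ℂ) (RatFunc ℂ) (Polynomial.C ((Nat.totient e : ℕ) : ℂ) * q) =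
      algebraMap (Polynomial ℂ) (RatFunc ℂ) p := by
    rw [← e1, map_mul, map_natCast, map_natCast]
    ring
  have e4 : (Polynomial.C ((Nat.totient e : ℕ) : ℂ) * q).eval (k : ℂ) ≠ 0 := by
    rw [Polynomial.eval_mul, Polynomial.eval_C]
    exact mul_ne_zero hφ e2
  exact (hasVal_iff.1 (⟨_, _, e3, e4, (div_mul_cancel₀ _ e4).symm⟩ :
    HasVal Z k (p.eval (k : ℂ) / (Polynomial.C ((Nat.totient e : ℕ) : ℂ) * q).eval (k : ℂ)))).1

/-- the iteration -/
theorem twisted_itr (h1 : ε (E ((Lu ℂ : (MK ℂ)ˣ) : MK ℂ)) = 1)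
    (hu : E ((Lu ℂ : (MK ℂ)ˣ) : MK ℂ) ≠ 1) {n : ℕ} (f : MvPolynomial (Fin n) ℂ) {e : ℕ}
    {Z : RatFunc ℂ} (hZ : IsTwistedTop E ε f e Z) (κ : ℕ) :
    ∃ Z', IsTwistedTop E ε (itr f κ) e Z' ∧
      ∀ s₀ : ℂ, (∀ j : ℕ, s₀ ≠ j - 1) → Z.denom.eval s₀ = 0 → Z'.denom.eval (s₀ - κ) = 0 := by
  induction κ with
  | zero =>
    refine ⟨Z, hZ, fun s₀ _ h => ?_⟩
    rw [Nat.cast_zero, sub_zero]
    exact h
  | succ κ ih =>
    obtain ⟨Z', h2, h3⟩ := ih
    obtain ⟨Z'', h4, h5⟩ := twisted_step E ε h1 hu (itr f κ) h2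
    refine ⟨Z'', h4, fun s₀ hs h => ?_⟩
    have h6 := h5 (s₀ - κ) ?_ ?_ ?_ (h3 s₀ hs h)
    · push_cast
      rw [← sub_sub]
      exact h6
    · intro h7
      apply hs (κ + 1)
      push_cast
      linear_combination h7
    · intro h7
      apply hs (κ + 2)
      push_cast
      linear_combination h7
    · intro h7
      apply hs κ
      linear_combination h7

/-- **The transfer for one polynomial.** -/
theorem transfer (h1 : ε (E ((Lu ℂ : (MK ℂ)ˣ) : MK ℂ)) = 1)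
    (hu : E ((Lu ℂ : (MK ℂ)ˣ) : MK ℂ) ≠ 1) {n κ : ℕ} {f : MvPolynomial (Fin n) ℂ}
    (hf : f.totalDegree ≠ 0) {F : MvPolynomial (Fin (n + (κ + κ))) ℂ}
    (ψ : MvPolynomial (Fin (n + (κ + κ))) ℂ ≃ₐ[ℂ] MvPolynomial (Fin (n + (κ + κ))) ℂ)
    (hψ : ψ (stabK f κ) = F) {e : ℕ} (he : 0 < e) :
    (WeakTw E ε e F → WeakTw E ε e f) ∧ (StrongTw E ε e F → StrongTw E ε e f) := by
  obtain ⟨χ, hχ⟩ := exists_itr_iso f κ ψ hψ
  have hm1 : ∀ {b : Polynomial ℂ}, IsBFunction f b → b.eval (-1) = 0 := fun hb =>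
    (becomes_global hf hb (k := κ) (G := F) ⟨ψ, hψ⟩).1
  have hfac : ∀ {b : Polynomial ℂ}, IsBFunction f b →
      ∃ c, b = (Polynomial.X + 1) * c := by
    intro b hb
    have h2 : (Polynomial.X + 1 : Polynomial ℂ) ∣ b := by
      have := Polynomial.dvd_iff_isRoot.2 (hm1 hb)
      simpa using this
    exact h2
  constructor
  · intro hF Z hZ s₀ hs b hb
    by_cases hint : ∃ j : ℤ, s₀ = j
    · obtain ⟨j, rfl⟩ := hint
      refine ⟨-1 - j, ?_⟩
      push_cast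
      rw [add_sub_cancel]
      exact hm1 hb
    · push Not at hint
      obtain ⟨Z', hZ', hp⟩ := twisted_itr E ε h1 hu f hZ κ
      have h2 := hp s₀ (fun j h => hint (j - 1) (by push_cast; exact h)) hs
      obtain ⟨c, rfl⟩ := hfac hb
      obtain ⟨j, hj⟩ := hF Z' (twisted_iso E ε χ (by ring) hχ hZ') _ h2 _ (bfun_F hf hb ψ hψ)
      refine ⟨j, ?_⟩
      rw [Polynomial.eval_mul, Polynomial.eval_comp, mul_eq_zero, Polynomial.eval_add,
        Polynomial.eval_X, Polynomial.eval_one, Polynomial.eval_add, Polynomial.eval_X,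
        Polynomial.eval_C] at hj
      rcases hj with hj | hj
      · exfalso
        apply hint (κ - j - 1)
        push_cast
        linear_combination hj
      · rw [Polynomial.eval_mul, show s₀ + (j : ℂ) = s₀ - κ + j + κ by ring, hj, mul_zero]
  · intro hF Z hZ s₀ hs0 hs b hb
    by_cases hint : ∃ j : ℕ, s₀ = j - 1
    · obtain ⟨j, rfl⟩ := hint
      rcases j with _ | j
      · rw [Nat.cast_zero, zero_sub]
        exact hm1 hb
      · exfalso
        push_cast at hs hs0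
        rw [add_sub_cancel_right] at hs hs0
        have hj : 0 < j := Nat.pos_of_ne_zero (by rintro rfl; exact hs0 Nat.cast_zero)
        exact twisted_pos E ε he hZ hj hs
    · push Not at hint
      obtain ⟨Z', hZ', hp⟩ := twisted_itr E ε h1 hu f hZ κ
      have h2 := hp s₀ hint hs
      obtain ⟨c, rfl⟩ := hfac hb
      have hj := hF Z' (twisted_iso E ε χ (by ring) hχ hZ') _
        (fun h => hint (κ + 1) (by push_cast; linear_combination h)) h2 _ (bfun_F hf hb ψ hψ)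
      rw [Polynomial.eval_mul, Polynomial.eval_comp, mul_eq_zero, Polynomial.eval_add,
        Polynomial.eval_X, Polynomial.eval_one, Polynomial.eval_add, Polynomial.eval_X,
        Polynomial.eval_C, sub_add_cancel] at hj
      rcases hj with hj | hj
      · exfalso
        apply hint κ
        linear_combination hj
      · rw [Polynomial.eval_mul, hj, mul_zero]

/-- **The reduction for one polynomial.** -/
theorem reduce (S : Set ℂ) (hS : (1 : ℂ) ∈ AddSubgroup.closure S) (N n : ℕ)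
    (f : MvPolynomial (Fin n) ℂ) (hf : f.totalDegree ≠ 0) (h0 : MvPolynomial.eval 0 f = 0)
    (hfS : ∀ d, MvPolynomial.coeff d f ∈ AddSubgroup.closure S) :
    ∃ κ₁ : ℕ, ∀ κ, κ₁ ≤ κ → ∃ (o : Fin κ → Option (Fin κ)) (v : Fin κ → Fin n) (c : Fin κ → ℂ),
      Forest o ∧ (∀ m, c m ∈ coeffs S) ∧ MinExp N (prog o v c) ∧
      ∀ (R : Type) [CommRing R] [IsDomain R] (E : MK ℂ →+* R) (ε : R →+* ℂ),
        ε (E ((Lu ℂ : (MK ℂ)ˣ) : MK ℂ)) = 1 → E ((Lu ℂ : (MK ℂ)ˣ) : MK ℂ) ≠ 1 →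
        ∀ e : ℕ, 0 < e → (WeakTw E ε e (prog o v c) → WeakTw E ε e f) ∧
          (StrongTw E ε e (prog o v c) → StrongTw E ε e f) := by
  classical
  have hn : 0 < n := by
    rcases Nat.eq_zero_or_pos n with rfl | h
    · exfalso
      apply hf
      rw [MvPolynomial.eq_C_of_isEmpty f, MvPolynomial.totalDegree_C]
    · exact h
  set i0 : Fin n := ⟨0, hn⟩
  have h0' : MvPolynomial.coeff 0 f = 0 := by
    rw [← MvPolynomial.constantCoeff_eq, ← MvPolynomial.eval_zero]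
    exact h0
  rcases bfun_cases hf with ⟨p, hp0, hp⟩ | hall
  · obtain ⟨κ₀, hr⟩ := rep_all f h0' hfS
    obtain ⟨κ₁, h1⟩ := exists_progs i0 hf hr N hp0 hp
    refine ⟨κ₁, fun κ hκ => ?_⟩
    obtain ⟨o, v, c, ho, hc, hm, ψ, hψ⟩ := h1 κ hκ
    exact ⟨o, v, c, ho, hc, hm, fun R _ _ E ε h1 hu e he => transfer E ε h1 hu hf ψ hψ he⟩
  · obtain ⟨κ₀, hr⟩ := rep_var hS i0
    obtain ⟨κ₁, h1⟩ := exists_progs i0 (var_deg i0) hr N one_ne_zero (bfun_X i0)
    refine ⟨κ₁, fun κ hκ => ?_⟩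
    obtain ⟨o, v, c, ho, hc, hm, -⟩ := h1 κ hκ
    refine ⟨o, v, c, ho, hc, hm, fun R _ _ E ε _ _ e _ => ⟨fun _ Z _ s₀ _ b hb => ⟨0, ?_⟩,
      fun _ Z _ s₀ _ _ b hb => ?_⟩⟩
    · rw [hall b hb, Polynomial.eval_zero]
    · rw [hall b hb, Polynomial.eval_zero]

end Pool.Agent.Q223.TW
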