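import Pool.Agent.Q223.TW.Jet

/-!
# The series of the covers for `f + y z`
-/

set_option autoImplicit false
set_option linter.unusedSectionVars false

namespace Pool.Agent.Q223.TW

open MvPolynomial Pool.Agent.W428.MOT Pool.Agent.TH192.MT Pool.Agent.TH192.MU
open Pool.Agent.Q223.ID
open Pool.Agent.W63.MTFin (mapMeas L_mul)
open Pool.Agent.Y229.MS (addyz)

section

variable {K : Type} [Field K] {σ ι : Type} {R : Type} [CommRing R] (M : Meas K R) [Fintype σ]

theorem chi_TF_succ' [Finite ι] (f : ι → MvPolynomial σ K) (i N : ℕ) (hi : i ≤ N + 1) :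
    M.χ _ (TF f i (N + 1)) = M.χ _ (TF f i N) * M.L ^ Fintype.card σ := by
  refine chi_split M (Equiv.ofBijective _ (lastE_bij σ N)) _ _ (constr_TF f i N)
    fun z => ?_
  have h1 : ∀ j, ∀ k ≤ N, PowerSeries.coeff k (aeval (ar z) (f j)) =
      PowerSeries.coeff k (aeval (ar fun i => z ((Equiv.ofBijective _ (lastE_bij σ N))
        (Sum.inl i))) (f j)) := by
    intro j
    refine coeff_congr (f j) N _ _ fun i k hk => ?_
    rw [coeff_ar' _ _ _ (by omega), coeff_ar' _ _ _ (by omega)]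
    rfl
  constructor
  · intro h j k hk
    rw [← h1 j k (by omega)]
    exact h j k hk
  · intro h j k hk
    rw [h1 j k (by omega)]
    exact h j k hk

end

theorem jetF_single {σ : Type} (f : MvPolynomial σ ℂ) (N : ℕ) :
    JetF (fun _ : Unit => f) Set.univ N = JetS f Set.univ {c | c ≠ 0} N := by
  ext z
  constructor
  · rintro ⟨-, h2, _, h3⟩
    exact ⟨trivial, h2 (), h3⟩
  · rintro ⟨-, h2, h3⟩
    exact ⟨trivial, fun _ => h2, (), h3⟩

/-- the geometric series -/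
noncomputable def geoS {A : Type} [CommRing A] (v : A) : PowerSeries A :=
  PowerSeries.mk fun i => v ^ i

theorem geoS_mul {A : Type} [CommRing A] (v : A) :
    (1 - PowerSeries.C v * PowerSeries.X) * geoS v = 1 := by
  ext d
  rcases d with _ | d
  · rw [coeff_zero_lin, geoS, PowerSeries.coeff_mk, pow_zero, PowerSeries.coeff_one, if_pos rfl]
  · rw [coeff_succ_lin, geoS, PowerSeries.coeff_mk, PowerSeries.coeff_mk, PowerSeries.coeff_one,
      if_neg (Nat.succ_ne_zero d), pow_succ]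
    ring

/-- the class of the complement of the zero set -/
noncomputable def a0 {n : ℕ} (f : MvPolynomial (Fin n) ℂ) : MK ℂ :=
  algebraMap (K0 ℂ) (MK ℂ) (cls (Fin n × Fin (0 + 1)) (JetS f Set.univ {c | c ≠ 0} 0))

/-- **The series of the covers for `f + y z`.** -/
theorem zetaC_pair {n : ℕ} (f : MvPolynomial (Fin n) ℂ) (k : ℕ) :
    zetaC (addyz f) k =
      PowerSeries.C ((Lu ℂ : (MK ℂ)ˣ) : MK ℂ) *
        PowerSeries.rescale (((Lu ℂ)⁻¹ : (MK ℂ)ˣ) : MK ℂ) (zetaC f k) +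
      (PowerSeries.C (((Lu ℂ : (MK ℂ)ˣ) : MK ℂ) - 1) * geoS (((Lu ℂ)⁻¹ : (MK ℂ)ˣ) : MK ℂ)) *
      (PowerSeries.C (((Lu ℂ : (MK ℂ)ˣ) : MK ℂ) - 1) * geoS (((Lu ℂ)⁻¹ : (MK ℂ)ˣ) : MK ℂ)) *
        (PowerSeries.C (((Lu ℂ : (MK ℂ)ˣ) : MK ℂ) ^ n) -
          PowerSeries.C (((Lu ℂ)⁻¹ : (MK ℂ)ˣ) : MK ℂ) * PowerSeries.X *
          (PowerSeries.C (a0 f) +
            PowerSeries.rescale (((Lu ℂ)⁻¹ : (MK ℂ)ˣ) : MK ℂ) (zetaC f 1))) -
      PowerSeries.C ((((Lu ℂ : (MK ℂ)ˣ) : MK ℂ) - 1) ^ 2 * ((Lu ℂ : (MK ℂ)ˣ) : MK ℂ) ^ n) := by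
  obtain ⟨M₀, hM₀⟩ := Pool.Agent.W417.MT.K0.main ℂ
  set M := mapMeas M₀ (algebraMap (K0 ℂ) (MK ℂ)) with hM
  set Y : MK ℂ := (((Lu ℂ)⁻¹ : (MK ℂ)ˣ) : MK ℂ) with hY
  set L : MK ℂ := ((Lu ℂ : (MK ℂ)ˣ) : MK ℂ) with hLdef
  have hLY : L * Y = 1 := Units.mul_inv _
  have hML : M.L = L := by
    have hL : M.L * Y = 1 := L_mul hM₀
    calc M.L = M.L * (L * Y) := by rw [hLY, mul_one]
      _ = (M.L * Y) * L := by ring
      _ = _ := by rw [hL, one_mul]
  have hLYn : ∀ m, L ^ m * Y ^ m = 1 := fun m => by rw [← mul_pow, hLY, one_pow]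
  -- the numbers `b i`
  set T : ℕ → ℕ → MK ℂ := fun i N => M.χ _ (TF (fun _ : Unit => f) i N) with hT
  set A : ℕ → MK ℂ := fun d => M.χ _ (JetS f Set.univ {c | c ≠ 0} d) * Y ^ (n * d) with hA
  set b : ℕ → MK ℂ := fun i => T i i * Y ^ (n * i) with hb
  have hTs : ∀ i N, i ≤ N + 1 → T i (N + 1) = T i N * L ^ n := by
    intro i N hi
    rw [hT]
    beta_reduce
    rw [chi_TF_succ' M _ i N hi, hML, Fintype.card_fin]
  have hTb : ∀ i m, T i (i + m) * Y ^ (n * (i + m)) = b i := by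
    intro i m
    induction m with
    | zero => rfl
    | succ m ih =>
      rw [← ih, show i + (m + 1) = i + m + 1 by ring, hTs i (i + m) (by omega),
        show n * (i + m + 1) = n + n * (i + m) by ring, pow_add]
      linear_combination (T i (i + m) * Y ^ (n * (i + m))) * hLYn n
  have hb0 : b 0 = L ^ n := by
    rw [hb]
    beta_reduce
    rw [hT]
    beta_reduce
    rw [chi_TF_zero, hML, mul_zero, pow_zero, mul_one, Fintype.card_fin]
  have hbs : ∀ d, b (d + 1) = b d - A d := by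
    intro d
    have h1 := chi_TF M (fun _ : Unit => f) d
    rw [jetF_single] at h1
    rw [hb, hA]
    beta_reduce
    rw [hTs (d + 1) d le_rfl, show n * (d + 1) = n + n * d by ring, pow_add]
    have h2 : T d d = M.χ _ (JetS f Set.univ {c | c ≠ 0} d) + T (d + 1) d := h1
    rw [h2]
    linear_combination (T (d + 1) d * Y ^ (n * d)) * hLYn n
  -- the coefficients
  have hz : ∀ (m : ℕ) (g : MvPolynomial (Fin m) ℂ) (k d : ℕ),
      PowerSeries.coeff d (zetaC g k) = if d = 0 then 0 else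
        M.χ _ (JetC g k d) * Y ^ (m * d) := by
    intro m g k d
    rw [zetaC, PowerSeries.coeff_mk, zpow_neg, zpow_natCast, ← inv_pow,
      Units.val_pow_eq_pow_val, ← hM₀, Fintype.card_fin]
    rfl
  have ha : ∀ d, PowerSeries.coeff d (PowerSeries.C (a0 f) + PowerSeries.rescale Y (zetaC f 1)) =
      Y ^ d * A d := by
    intro d
    rw [map_add, PowerSeries.coeff_C, PowerSeries.coeff_rescale, hz]
    rcases d with _ | d
    · rw [if_pos rfl, if_pos rfl, mul_zero, add_zero, pow_zero, one_mul, a0, ← hM₀, hA]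
      beta_reduce
      rw [mul_zero, pow_zero, mul_one]
      rfl
    · rw [if_neg (Nat.succ_ne_zero d), if_neg (Nat.succ_ne_zero d), zero_add, chi_JetC_one]
  have hF : ∀ d, M.χ _ (JetC (addyz f) k d) * Y ^ ((n + 2) * d) =
      Y ^ d * (L * (M.χ _ (JetC f k d) * Y ^ (n * d)) +
        (L - 1) ^ 2 * ∑ i ∈ Finset.range (d + 1), b i) := by
    intro d
    rw [chi_JetC_pair M f k d, hML, Finset.mul_sum]
    have h1 : ∀ i ∈ Finset.range (d + 1), (L - 1) * L ^ d * ((L - 1) *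
        M.χ _ (TF (fun _ : Unit => f) i d)) * Y ^ ((n + 2) * d) = Y ^ d * ((L - 1) ^ 2 * b i) := by
      intro i hi
      have h2 := hTb i (d - i)
      rw [Nat.add_sub_cancel' (by have := Finset.mem_range.1 hi; omega)] at h2
      rw [← h2, show (n + 2) * d = n * d + d + d by ring, pow_add, pow_add]
      linear_combination ((L - 1) ^ 2 * T i d * Y ^ (n * d) * Y ^ d) * hLYn d
    rw [add_mul, Finset.sum_mul, Finset.sum_congr rfl h1, ← Finset.mul_sum, mul_add,
      show (n + 2) * d = n * d + d + d by ring, pow_add Y (n * d + d) d, pow_add Y (n * d) d,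
      pow_succ L d]
    linear_combination (M.χ _ (JetC f k d) * Y ^ (n * d) * L * Y ^ d) * hLYn d
  -- the series
  set D : PowerSeries (MK ℂ) := PowerSeries.mk fun d => Y ^ d * ∑ i ∈ Finset.range (d + 1), b i
    with hD
  set B : PowerSeries (MK ℂ) := PowerSeries.mk fun d => Y ^ d * b d with hB
  have r1 : (1 - PowerSeries.C Y * PowerSeries.X) * D = B := by
    ext d
    rcases d with _ | d
    · rw [coeff_zero_lin, hD, hB, PowerSeries.coeff_mk, PowerSeries.coeff_mk, zero_add,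
        Finset.sum_range_one]
    · rw [coeff_succ_lin, hD, hB, PowerSeries.coeff_mk, PowerSeries.coeff_mk,
        PowerSeries.coeff_mk, Finset.sum_range_succ _ (d + 1), pow_succ]
      ring
  have r2 : (1 - PowerSeries.C Y * PowerSeries.X) * B = PowerSeries.C (L ^ n) -
      PowerSeries.C Y * PowerSeries.X * (PowerSeries.C (a0 f) +
        PowerSeries.rescale Y (zetaC f 1)) := by
    ext d
    rcases d with _ | d
    · rw [coeff_zero_lin, hB, PowerSeries.coeff_mk, pow_zero, one_mul, hb0, map_sub,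
        PowerSeries.coeff_C, if_pos rfl, mul_assoc, PowerSeries.coeff_C_mul,
        PowerSeries.coeff_zero_X_mul, mul_zero, sub_zero]
    · rw [coeff_succ_lin, hB, PowerSeries.coeff_mk, PowerSeries.coeff_mk, map_sub,
        PowerSeries.coeff_C, if_neg (Nat.succ_ne_zero d), mul_assoc, PowerSeries.coeff_C_mul,
        PowerSeries.coeff_succ_X_mul, ha, hbs, pow_succ]
      ring
  have r3 : D = geoS Y * geoS Y * (PowerSeries.C (L ^ n) -
      PowerSeries.C Y * PowerSeries.X * (PowerSeries.C (a0 f) +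
        PowerSeries.rescale Y (zetaC f 1))) := by
    rw [← r2, ← r1]
    have h1 := geoS_mul Y
    linear_combination (-(geoS Y * (1 - PowerSeries.C Y * PowerSeries.X) * D) - D) * h1
  have r4 : zetaC (addyz f) k = PowerSeries.C L * PowerSeries.rescale Y (zetaC f k) +
      PowerSeries.C ((L - 1) ^ 2) * D - PowerSeries.C ((L - 1) ^ 2 * L ^ n) := by
    ext d
    rw [map_sub, map_add, PowerSeries.coeff_C_mul, PowerSeries.coeff_C_mul,
      PowerSeries.coeff_rescale, hz, hz, PowerSeries.coeff_C, hD, PowerSeries.coeff_mk]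
    rcases d with _ | d
    · rw [if_pos rfl, if_pos rfl, if_pos rfl, zero_add, Finset.sum_range_one, hb0]
      ring
    · rw [if_neg (Nat.succ_ne_zero d), if_neg (Nat.succ_ne_zero d), if_neg (Nat.succ_ne_zero d),
        hF]
      ring
  rw [r4, r3]
  simp only [map_pow, map_mul]
  ring

/-! ### Invariance under isomorphisms -/

theorem chi_JetC_iso {R : Type} [CommRing R] (M : Meas ℂ R) {σ τ : Type} [Fintype σ] [Fintype τ]
    (ψ : MvPolynomial σ ℂ ≃ₐ[ℂ] MvPolynomial τ ℂ) (f : MvPolynomial σ ℂ) (k N : ℕ) :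
    M.χ _ (JetC (ψ f) k N) = M.χ _ (JetC f k N) := by
  have h1 : ∀ g, (ψ : MvPolynomial σ ℂ →ₐ[ℂ] MvPolynomial τ ℂ)
      ((ψ.symm : MvPolynomial τ ℂ →ₐ[ℂ] MvPolynomial σ ℂ) g) = g :=
    fun g => ψ.apply_symm_apply g
  have h2 : ∀ g, (ψ.symm : MvPolynomial τ ℂ →ₐ[ℂ] MvPolynomial σ ℂ)
      ((ψ : MvPolynomial σ ℂ →ₐ[ℂ] MvPolynomial τ ℂ) g) = g :=
    fun g => ψ.symm_apply_apply g
  have key : ∀ {σ τ : Type} (φ : MvPolynomial σ ℂ →ₐ[ℂ] MvPolynomial τ ℂ) (p),
      IsPF (fun z : Pt ℂ (Unit ⊕ τ × Fin (N + 1)) =>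
        (Sum.elim (fun u => z (Sum.inl u)) (Tm φ N fun i => z (Sum.inr i)) :
          Unit ⊕ σ × Fin (N + 1) → AlgebraicClosure ℂ) p) := by
    intro σ τ φ p
    rcases p with p | p
    · exact IsPF.coord _
    · exact (isPF_Tm φ N p).comp (fun z : Pt ℂ (Unit ⊕ τ × Fin (N + 1)) =>
        fun i => z (Sum.inr i)) fun i => IsPF.coord _
  refine M.iso _ _ (constr_JetC _ k N) (constr_JetC _ k N)
    (fun z => Sum.elim (fun u => z (Sum.inl u))
      (Tm (ψ : MvPolynomial σ ℂ →ₐ[ℂ] MvPolynomial τ ℂ) N fun i => z (Sum.inr i)))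
    (fun z => Sum.elim (fun u => z (Sum.inl u))
      (Tm (ψ.symm : MvPolynomial τ ℂ →ₐ[ℂ] MvPolynomial σ ℂ) N fun i => z (Sum.inr i)))
    (regularOn_poly (key _) _) (regularOn_poly (key _) _) ?_ ?_ ?_ ?_
  · rintro z ⟨g0, -, g2, g3⟩
    refine ⟨g0, trivial, fun j hj => ?_, ?_⟩
    · change PowerSeries.coeff j (aeval (ar (Tm _ N fun i => z (Sum.inr i))) f) = 0
      rw [coeff_Tm _ _ _ _ hj.le]
      exact g2 j hj
    · change PowerSeries.coeff N (aeval (ar (Tm _ N fun i => z (Sum.inr i))) f) =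
        z (Sum.inl ()) ^ k
      rw [coeff_Tm _ _ _ _ le_rfl]
      exact g3
  · rintro z ⟨g0, -, g2, g3⟩
    have e3 : (ψ.symm : MvPolynomial τ ℂ →ₐ[ℂ] MvPolynomial σ ℂ) (ψ f) = f :=
      ψ.symm_apply_apply f
    refine ⟨g0, trivial, fun j hj => ?_, ?_⟩
    · change PowerSeries.coeff j (aeval (ar (Tm _ N fun i => z (Sum.inr i))) (ψ f)) = 0
      rw [coeff_Tm _ _ _ _ hj.le, e3]
      exact g2 j hj
    · change PowerSeries.coeff N (aeval (ar (Tm _ N fun i => z (Sum.inr i))) (ψ f)) =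
        z (Sum.inl ()) ^ k
      rw [coeff_Tm _ _ _ _ le_rfl, e3]
      exact g3
  · intro z _
    funext i
    rcases i with i | i
    · rfl
    · exact congrFun (Tm_Tm _ _ h1 fun i => z (Sum.inr i)) i
  · intro z _
    funext i
    rcases i with i | i
    · rfl
    · exact congrFun (Tm_Tm _ _ h2 fun i => z (Sum.inr i)) i

theorem zetaC_iso {σ τ : Type} [Fintype σ] [Fintype τ]
    (ψ : MvPolynomial σ ℂ ≃ₐ[ℂ] MvPolynomial τ ℂ)
    (hc : Fintype.card τ = Fintype.card σ) (f : MvPolynomial σ ℂ) (k : ℕ) :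
    zetaC (ψ f) k = zetaC f k := by
  obtain ⟨M₀, hM₀⟩ := Pool.Agent.W417.MT.K0.main ℂ
  ext d
  rw [zetaC, zetaC, PowerSeries.coeff_mk, PowerSeries.coeff_mk, ← hM₀, ← hM₀,
    chi_JetC_iso M₀ ψ f k d, hc]

end Pool.Agent.Q223.TW
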