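import Pool.Agent.Q223.TW.PairL
import Pool.Agent.Q223.TW.Series

/-!
# The local series for `f + y z` over a field
-/

set_option autoImplicit false
set_option linter.unusedSectionVars false

namespace Pool.Agent.Q223.TW.LK

open MvPolynomial Pool.Agent.W428.MOT Pool.Agent.TH192.MT Pool.Agent.TH192.MU
open Pool.Agent.Q223.ID
open Pool.Agent.W63.MTFin (mapMeas L_mul)
open Pool.Agent.Y229.MS (addyz CE ce_good)
open Pool.Agent.W375.MG (good_units)

variable {K : Type} [Field K]

/-- the coefficients of `f(φ) - w ^ k t ^ N` -/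
noncomputable def cw {n : ℕ} (f : MvPolynomial (Fin n) K) (k N j : ℕ)
    (z : Pt K (Unit ⊕ Fin n × Fin (N + 1))) : AlgebraicClosure K :=
  PowerSeries.coeff j (aeval (ar fun i => z (Sum.inr i)) f) -
    if j = N then z (Sum.inl ()) ^ k else 0

theorem isPF_cw {n : ℕ} (f : MvPolynomial (Fin n) K) (k N j : ℕ) : IsPF (cw f k N j) := by
  refine IsPF.sub ?_ ?_
  · exact (isPF_coeff f j).comp (fun z : Pt K (Unit ⊕ Fin n × Fin (N + 1)) =>
      fun i => z (Sum.inr i)) fun i => IsPF.coord _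
  · split_ifs
    · exact (IsPF.coord _).pow k
    · exact IsPF.zero

theorem aeval_yz {n N : ℕ} (f : MvPolynomial (Fin n) K) (z : Pt K (Fin (n + 2) × Fin (N + 1))) :
    aeval (ar z) (addyz f) = aeval (ar fun p : Fin n × Fin (N + 1) =>
      z (Fin.castAdd 2 p.1, p.2)) f +
      ser (fun a => z (Fin.natAdd n 0, a)) * ser (fun a => z (Fin.natAdd n 1, a)) := by
  rw [addyz, map_add, map_mul, aeval_X, aeval_X, aeval_rename]
  rfl

/-! ### Jets with origin in `W`, with a parameter -/

/-- the pairs of `w ∈ E` and a jet `φ` with origin in `W` and `f(φ) = w ^ k t ^ N` modulo `t ^ (N + 1)` -/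
def JetE {σ : Type} (f : MvPolynomial σ K) (W : Set (Pt K σ)) (E : Set (AlgebraicClosure K))
    (k N : ℕ) : Set (Pt K (Unit ⊕ σ × Fin (N + 1))) :=
  {z | z (Sum.inl ()) ∈ E ∧
    (fun i => z (Sum.inr i)) ∈ JetS f W {c | c = z (Sum.inl ()) ^ k} N}

/-- the jets with origin in `W` and order at least `i` -/
def TJ {σ : Type} (f : MvPolynomial σ K) (W : Set (Pt K σ)) (i N : ℕ) :
    Set (Pt K (σ × Fin (N + 1))) :=
  {z | (fun i => z (i, 0)) ∈ W ∧ ∀ j < i, PowerSeries.coeff j (aeval (ar z) f) = 0}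

section constr

variable {σ : Type} {W : Set (Pt K σ)} (hW : Constr W) {E : Set (AlgebraicClosure K)} (hE : CE E)

include hW

theorem constr_TJ (f : MvPolynomial σ K) (i N : ℕ) : Constr (TJ f W i N) :=
  Constr.and (hW.preimage (fun z : Pt K (σ × Fin (N + 1)) => fun i => z (i, 0))
    fun i => IsPF.coord _) (Constr.allLt _ fun j _ => Constr.eqz (isPF_coeff f j))

include hE

theorem constr_JetS (f : MvPolynomial σ K) (N : ℕ) : Constr (JetS f W E N) :=
  Constr.and (hW.preimage (fun z : Pt K (σ × Fin (N + 1)) => fun i => z (i, 0))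
    fun i => IsPF.coord _) (Constr.and (Constr.allLt _ fun j _ => Constr.eqz (isPF_coeff f j))
    (hE _ (isPF_coeff f N)))

theorem constr_JetE (f : MvPolynomial σ K) (k N : ℕ) : Constr (JetE f W E k N) := by
  have h1 : ∀ j, IsPF fun z : Pt K (Unit ⊕ σ × Fin (N + 1)) =>
      PowerSeries.coeff j (aeval (ar fun i => z (Sum.inr i)) f) := fun j =>
    (isPF_coeff f j).comp (fun z : Pt K (Unit ⊕ σ × Fin (N + 1)) => fun i => z (Sum.inr i))
      fun i => IsPF.coord _
  exact Constr.and (hE _ (IsPF.coord _)) (Constr.and (hW.preimage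
    (fun z : Pt K (Unit ⊕ σ × Fin (N + 1)) => fun i => z (Sum.inr (i, 0))) fun i => IsPF.coord _)
    (Constr.and (Constr.allLt _ fun j _ => Constr.eqz (h1 j))
      (Constr.eq (h1 N) ((IsPF.coord _).pow k))))

variable {R : Type} [CommRing R] (M : Meas K R) [Fintype σ]

/-- the parameter is determined by the jet if `k = 1` -/
theorem chi_JetE_one (f : MvPolynomial σ K) (N : ℕ) :
    M.χ _ (JetE f W E 1 N) = M.χ _ (JetS f W E N) := by
  refine M.iso _ _ (constr_JetE hW hE f 1 N) (constr_JetS hW hE f N)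
    (fun z i => z (Sum.inr i))
    (fun y => Sum.elim (fun _ => PowerSeries.coeff N (aeval (ar y) f)) y)
    (regularOn_poly (fun i => IsPF.coord _) _) ?_ ?_ ?_ ?_ ?_
  · refine regularOn_poly (fun i => ?_) _
    rcases i with i | i
    · exact isPF_coeff f N
    · exact IsPF.coord _
  · rintro z ⟨h2, h3, h4, h5⟩
    refine ⟨h3, h4, ?_⟩
    have h6 : PowerSeries.coeff N (aeval (ar fun i => z (Sum.inr i)) f) = z (Sum.inl ()) ^ 1 := h5
    change PowerSeries.coeff N (aeval (ar fun i => z (Sum.inr i)) f) ∈ E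
    rw [h6, pow_one]
    exact h2
  · rintro y ⟨h3, h4, h5⟩
    refine ⟨h5, h3, h4, ?_⟩
    change PowerSeries.coeff N (aeval (ar y) f) = PowerSeries.coeff N (aeval (ar y) f) ^ 1
    rw [pow_one]
  · rintro z ⟨h2, h3, h4, h5⟩
    have h6 : PowerSeries.coeff N (aeval (ar fun i => z (Sum.inr i)) f) = z (Sum.inl ()) ^ 1 := h5
    funext i
    rcases i with i | i
    · change PowerSeries.coeff N (aeval (ar fun i => z (Sum.inr i)) f) = z (Sum.inl i)
      rw [h6, pow_one]
    · rfl
  · intro y _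
    rfl

end constr

section local_

variable {n : ℕ}

/-- the parameters -/
def SE (W : Set (Pt K (Fin n))) (E : Set (AlgebraicClosure K)) (N : ℕ) :
    Set (Pt K (Unit ⊕ Fin n × Fin (N + 1))) :=
  {z | z (Sum.inl ()) ∈ E ∧ (fun i => z (Sum.inr (i, 0))) ∈ W}

theorem constr_SE {W : Set (Pt K (Fin n))} (hW : Constr W) {E : Set (AlgebraicClosure K)}
    (hE : CE E) (N : ℕ) : Constr (SE W E N) :=
  Constr.and (hE _ (IsPF.coord _)) (hW.preimage
    (fun z : Pt K (Unit ⊕ Fin n × Fin (N + 1)) => fun i => z (Sum.inr (i, 0))) fun i =>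
      IsPF.coord _)

theorem Vc_topE (f : MvPolynomial (Fin n) K) (W : Set (Pt K (Fin n)))
    (E : Set (AlgebraicClosure K)) (k N : ℕ) :
    Vc (SE W E N) (cw f k N) (N + 1) = JetE f W E k N := by
  ext z
  constructor
  · rintro ⟨h1, h2⟩
    refine ⟨h1.1, h1.2, fun j hj => ?_, ?_⟩
    · have := h2 j (by omega)
      rwa [cw, if_neg (by omega), sub_zero] at this
    · have := h2 N (by omega)
      rw [cw, if_pos rfl, sub_eq_zero] at this
      exact this
  · rintro ⟨h1, h0, h2, h3⟩
    refine ⟨⟨h1, h0⟩, fun j hj => ?_⟩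
    by_cases h : j = N
    · subst h
      rw [cw, if_pos rfl, sub_eq_zero]
      exact h3
    · rw [cw, if_neg h, sub_zero]
      exact h2 j (by omega)

variable {R : Type} [CommRing R] (M : Meas K R)

theorem chi_VcE (f : MvPolynomial (Fin n) K) {W : Set (Pt K (Fin n))} (hW : Constr W)
    {E : Set (AlgebraicClosure K)} (hE : CE E) (k N i : ℕ) (hi : i ≤ N) :
    M.χ _ (Vc (SE W E N) (cw f k N) i) =
      M.χ (Fin 1) {z | z 0 ∈ E} * M.χ _ (TJ f W i N) := by
  have h1 : Constr {z : Pt K (Fin 1) | z 0 ∈ E} := hE _ (IsPF.coord 0)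
  have h2 : Constr (TJ f W i N) := constr_TJ hW f i N
  rw [← M.prod _ _ h1 h2]
  refine M.iso _ _ (constr_Vc (constr_SE hW hE N) (isPF_cw f k N) i)
    (Constr.and (h1.preimage (fun z : Pt K (Fin 1 ⊕ Fin n × Fin (N + 1)) => fun i => z (Sum.inl i))
      fun i => IsPF.coord _) (h2.preimage
      (fun z : Pt K (Fin 1 ⊕ Fin n × Fin (N + 1)) => fun i => z (Sum.inr i)) fun i => IsPF.coord _))
    (fun z => Sum.elim (fun _ => z (Sum.inl ())) fun p => z (Sum.inr p))
    (fun w => Sum.elim (fun _ => w (Sum.inl 0)) fun p => w (Sum.inr p))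
    (regularOn_poly (fun i => ?_) _) (regularOn_poly (fun i => ?_) _) ?_ ?_ ?_ ?_
  · rcases i with i | i
    · exact IsPF.coord _
    · exact IsPF.coord _
  · rcases i with i | i
    · exact IsPF.coord _
    · exact IsPF.coord _
  · rintro z ⟨h3, h4⟩
    refine ⟨h3.1, h3.2, fun j hj => ?_⟩
    have := h4 j hj
    rw [cw, if_neg (by omega), sub_zero] at this
    exact this
  · rintro w ⟨h3, h3', h4⟩
    refine ⟨⟨h3, h3'⟩, fun j hj => ?_⟩
    rw [cw, if_neg (by omega), sub_zero]
    exact h4 j hj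
  · rintro z -
    funext i
    rcases i with i | i
    · rfl
    · rfl
  · rintro w -
    funext i
    rcases i with i | i
    · rw [Subsingleton.elim i 0]
      rfl
    · rfl

theorem mem_JetE_pair {N : ℕ} (f : MvPolynomial (Fin n) K) (E : Set (AlgebraicClosure K)) (k : ℕ)
    (z : Pt K (Unit ⊕ Fin (n + 2) × Fin (N + 1))) (w : Pt K ((Unit ⊕ Fin n × Fin (N + 1)) ⊕
      (Fin (N + 1) ⊕ Fin (N + 1))))
    (h0 : w (Sum.inl (Sum.inl ())) = z (Sum.inl ()))
    (hx : ∀ p : Fin n × Fin (N + 1), w (Sum.inl (Sum.inr p)) = z (Sum.inr (Fin.castAdd 2 p.1, p.2)))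
    (hy : ∀ a, w (Sum.inr (Sum.inl a)) = z (Sum.inr (Fin.natAdd n 0, a)))
    (hz : ∀ a, w (Sum.inr (Sum.inr a)) = z (Sum.inr (Fin.natAdd n 1, a))) :
    z ∈ JetE (addyz f) {0} E k N ↔ w ∈ PSL (SE {0} E N) (cw f k N) N := by
  have e1 : (fun p : Fin n × Fin (N + 1) => w (Sum.inl (Sum.inr p))) =
      fun p => z (Sum.inr (Fin.castAdd 2 p.1, p.2)) := funext hx
  have e2 : (fun a => w (Sum.inr (Sum.inl a))) = fun a => z (Sum.inr (Fin.natAdd n 0, a)) :=
    funext hy
  have e3 : (fun a => w (Sum.inr (Sum.inr a))) = fun a => z (Sum.inr (Fin.natAdd n 1, a)) :=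
    funext hz
  have key : ∀ j, PowerSeries.coeff j (aeval (ar fun i => z (Sum.inr i)) (addyz f)) =
      PowerSeries.coeff j (aeval (ar fun i => w (Sum.inl (Sum.inr i))) f) +
      PowerSeries.coeff j (ser (fun a => w (Sum.inr (Sum.inl a))) *
        ser (fun a => w (Sum.inr (Sum.inr a)))) := by
    intro j
    rw [aeval_yz, map_add, e1, e2, e3]
  constructor
  · rintro ⟨h1, h4, h2, h3⟩
    have h5 : ∀ i, z (Sum.inr (i, 0)) = 0 := fun i => congrFun h4 i
    refine ⟨⟨⟨by show w (Sum.inl (Sum.inl ())) ∈ E; rw [h0]; exact h1, ?_⟩, fun j hj => ?_⟩, ?_, ?_⟩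
    · show (fun i => w (Sum.inl (Sum.inr (i, 0)))) = 0
      funext i
      rw [hx]
      exact h5 _
    · by_cases h : j = N
      · subst h
        rw [cw, if_pos rfl]
        have h4 : PowerSeries.coeff j (aeval (ar fun i => z (Sum.inr i)) (addyz f)) =
          z (Sum.inl ()) ^ k := h3
        rw [key] at h4
        rw [h0]
        linear_combination h4
      · rw [cw, if_neg h, sub_zero]
        have h4 := h2 j (by omega)
        rw [key] at h4
        exact h4
    · rw [hy]
      exact h5 _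
    · rw [hz]
      exact h5 _
  · rintro ⟨⟨⟨h1, h1'⟩, h2⟩, hy0, hz0⟩
    have h5 : ∀ i : Fin n, w (Sum.inl (Sum.inr (i, 0))) = 0 := fun i => congrFun h1' i
    refine ⟨by rw [← h0]; exact h1, ?_, fun j hj => ?_, ?_⟩
    · show (fun i => z (Sum.inr (i, 0))) = 0
      funext i
      refine Fin.addCases (fun i => ?_) (fun b => ?_) i
      · have := hx (i, 0)
        simp only at this
        rw [← this]
        exact h5 i
      · fin_cases b
        · exact (hy 0).symm.trans hy0
        · exact (hz 0).symm.trans hz0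
    · have h4 := h2 j (by omega)
      rw [cw, if_neg (by omega), sub_zero] at h4
      rw [key]
      exact h4
    · have h4 := h2 N (by omega)
      rw [cw, if_pos rfl] at h4
      show PowerSeries.coeff N (aeval (ar fun i => z (Sum.inr i)) (addyz f)) = z (Sum.inl ()) ^ k
      rw [key, ← h0]
      linear_combination h4

theorem constr_zero {σ : Type} [Finite σ] : Constr ({0} : Set (Pt K σ)) := by
  have h1 := (Constr.all (p := fun (j : σ) (z : Pt K σ) => z j = 0) fun j =>
    Constr.eqz (IsPF.coord j))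
  have h2 : ({0} : Set (Pt K σ)) = {z : Pt K σ | ∀ j, z j = 0} := by
    ext z
    simp only [Set.mem_singleton_iff, Set.mem_ofPred_eq]
    exact ⟨fun h j => congrFun h j, fun h => funext h⟩
  rw [h2]
  exact h1

/-- **The class of the local jets of `f + y z`.** -/
theorem chi_JetE_pair (f : MvPolynomial (Fin n) K) {E : Set (AlgebraicClosure K)} (hE : CE E)
    (k m : ℕ) :
    M.χ _ (JetE (addyz f) {0} E k (m + 1)) = M.χ _ (JetE f {0} E k (m + 1)) * M.L ^ (m + 2) +
      ∑ i ∈ Finset.range m, (M.L - 1) * M.L ^ (m + 1) *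
        (M.χ (Fin 1) {z | z 0 ∈ E} * M.χ _ (TJ f {0} (i + 2) (m + 1))) := by
  have h1 := chi_PSL M m (constr_SE (constr_zero (σ := Fin n)) hE (m + 1)) (isPF_cw f k (m + 1))
  rw [Vc_topE] at h1
  rw [Finset.sum_congr rfl fun i hi => by
    rw [chi_VcE M f constr_zero hE k (m + 1) (i + 2) (by have := Finset.mem_range.1 hi; omega)]]
    at h1
  rw [← h1]
  refine M.iso _ _ (constr_JetE constr_zero hE _ k (m + 1))
    (constr_PSL (constr_SE constr_zero hE (m + 1)) (isPF_cw f k (m + 1)) (m + 1))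
    (fun z => Sum.elim (Sum.elim (fun _ => z (Sum.inl ()))
      (fun p => z (Sum.inr (Fin.castAdd 2 p.1, p.2))))
      (Sum.elim (fun a => z (Sum.inr (Fin.natAdd n 0, a)))
        fun a => z (Sum.inr (Fin.natAdd n 1, a))))
    (fun w => Sum.elim (fun _ => w (Sum.inl (Sum.inl ()))) fun p =>
      Fin.addCases (fun a => w (Sum.inl (Sum.inr (a, p.2))))
        (fun b => Fin.cases (w (Sum.inr (Sum.inl p.2))) (fun _ => w (Sum.inr (Sum.inr p.2))) b) p.1)
    (regularOn_poly (fun i => ?_) _) (regularOn_poly (fun i => ?_) _) ?_ ?_ ?_ ?_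
  · rcases i with (i | i) | i | i
    · exact IsPF.coord _
    · exact IsPF.coord _
    · exact IsPF.coord _
    · exact IsPF.coord _
  · rcases i with i | ⟨i, a⟩
    · exact IsPF.coord _
    · refine Fin.addCases (fun i => ?_) (fun b => ?_) i
      · simp only [Sum.elim_inr, Fin.addCases_left]
        exact IsPF.coord _
      · simp only [Sum.elim_inr, Fin.addCases_right]
        refine Fin.cases ?_ (fun b => ?_) b
        · exact IsPF.coord _
        · exact IsPF.coord _
  · intro z hz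
    exact (mem_JetE_pair f E k z _ rfl (fun _ => rfl) (fun _ => rfl) fun _ => rfl).1 hz
  · intro w hw
    refine (mem_JetE_pair f E k _ w rfl (fun p => ?_) (fun a => ?_) fun a => ?_).2 hw
    · simp only [Sum.elim_inr, Fin.addCases_left]
    · simp only [Sum.elim_inr, Fin.addCases_right]
      rfl
    · simp only [Sum.elim_inr, Fin.addCases_right]
      rfl
  · intro z _
    funext i
    rcases i with i | ⟨i, a⟩
    · rfl
    · refine Fin.addCases (fun i => ?_) (fun b => ?_) i
      · simp only [Sum.elim_inr, Fin.addCases_left, Sum.elim_inl]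
      · simp only [Sum.elim_inr, Fin.addCases_right, Sum.elim_inl]
        fin_cases b
        · rfl
        · rfl
  · intro w _
    funext i
    rcases i with (i | i) | i | i
    · rfl
    · simp only [Sum.elim_inl, Sum.elim_inr, Fin.addCases_left]
    · simp only [Sum.elim_inl, Sum.elim_inr, Fin.addCases_right]
      rfl
    · simp only [Sum.elim_inr, Fin.addCases_right]
      rfl

end local_

/-- the series of the classes of `JetE f W E k d`, `d ≥ 1` -/
noncomputable def zetaE {σ : Type} [Fintype σ] (f : MvPolynomial σ K) (W : Set (Pt K σ))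
    (E : Set (AlgebraicClosure K)) (k : ℕ) : PowerSeries (MK K) :=
  PowerSeries.mk fun d => if d = 0 then 0 else
    algebraMap (K0 K) (MK K) (cls (Unit ⊕ σ × Fin (d + 1)) (JetE f W E k d)) *
      (((Lu K) ^ (-((Fintype.card σ * d : ℕ) : ℤ)) : (MK K)ˣ) : MK K)

/-- the class of `E` -/
noncomputable def cE (E : Set (AlgebraicClosure K)) : MK K :=
  algebraMap (K0 K) (MK K) (cls (Fin 1) {z : Pt K (Fin 1) | z 0 ∈ E})

section

variable {σ : Type} {R : Type} [CommRing R] (M : Meas K R) [Fintype σ]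

theorem chi_TJ_succ {W : Set (Pt K σ)} (hW : Constr W) (f : MvPolynomial σ K) (i N : ℕ)
    (hi : i ≤ N + 1) :
    M.χ _ (TJ f W i (N + 1)) = M.χ _ (TJ f W i N) * M.L ^ Fintype.card σ := by
  refine chi_split M (Equiv.ofBijective _ (lastE_bij σ N)) _ _ (constr_TJ hW f i N)
    fun z => ?_
  have h1 : ∀ k ≤ N, PowerSeries.coeff k (aeval (ar z) f) =
      PowerSeries.coeff k (aeval (ar fun i => z ((Equiv.ofBijective _ (lastE_bij σ N))
        (Sum.inl i))) f) := by
    refine coeff_congr f N _ _ fun i k hk => ?_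
    rw [coeff_ar' _ _ _ (by omega), coeff_ar' _ _ _ (by omega)]
    rfl
  have h0 : (fun i => z (i, (0 : Fin (N + 1 + 1)))) = fun i =>
      z ((Equiv.ofBijective _ (lastE_bij σ N)) (Sum.inl (i, 0))) := by
    funext i
    rfl
  constructor
  · rintro ⟨g, h⟩
    refine ⟨by rw [h0] at g; exact g, fun k hk => ?_⟩
    rw [← h1 k (by omega)]
    exact h k hk
  · rintro ⟨g, h⟩
    refine ⟨by rw [h0]; exact g, fun k hk => ?_⟩
    rw [h1 k (by omega)]
    exact h k hk

theorem chi_TJ {W : Set (Pt K σ)} (hW : Constr W) (f : MvPolynomial σ K) (N : ℕ) :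
    M.χ _ (TJ f W N N) = M.χ _ (JetS f W {c | c ≠ 0} N) + M.χ _ (TJ f W (N + 1) N) := by
  rw [← M.add _ _ (constr_JetS hW (ce_good good_units) f N) (constr_TJ hW f (N + 1) N)]
  · congr 1
    ext z
    simp only [TJ, JetS, Set.mem_union, Set.mem_ofPred_eq]
    constructor
    · rintro ⟨h0, h⟩
      by_cases h1 : PowerSeries.coeff N (aeval (ar z) f) = 0
      · refine Or.inr ⟨h0, fun k hk => ?_⟩
        rcases Nat.lt_succ_iff_lt_or_eq.1 hk with h2 | rfl
        · exact h k h2
        · exact h1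
      · exact Or.inl ⟨h0, h, h1⟩
    · rintro (h | h)
      · exact ⟨h.1, h.2.1⟩
      · exact ⟨h.1, fun k hk => h.2 k (by omega)⟩
  · rw [Set.disjoint_left]
    rintro z ⟨-, -, hj⟩ h
    exact hj (h.2 N (Nat.lt_succ_self N))

end

/-- the class of the jets with origin `0` -/
theorem chi_origin {n : ℕ} {R : Type} [CommRing R] (M : Meas K R) (f : MvPolynomial (Fin n) K)
    (h0 : coeff 0 f = 0) : M.χ _ (TJ f {0} 1 0) = 1 := by
  have h2 : (TJ f {0} 1 0 : Set (Pt K (Fin n × Fin 1))) = {z | ∀ p, z p = 0} := by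
    ext z
    constructor
    · rintro ⟨h, -⟩ ⟨i, k⟩
      have hk : k = 0 := Fin.ext (by have := k.2; omega)
      rw [hk]
      exact congrFun h i
    · intro h
      refine ⟨funext fun i => h _, fun j hj => ?_⟩
      obtain rfl : j = 0 := by omega
      have h3 : ar z = 0 := by
        funext i
        ext k
        rw [coeff_ar]
        split_ifs
        · rw [h]
          rfl
        · rfl
      rw [h3, MvPolynomial.aeval_zero, constantCoeff_eq, h0, map_zero, map_zero]
  rw [h2, ← M.point (ι := Empty)]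
  refine M.iso _ _ ?_ Constr.univ (fun _ i => i.elim) (fun _ _ => 0) (fun i => i.elim)
    (fun i => IsPF.zero.isRF _) (fun _ _ => trivial) (fun _ _ _ => rfl) ?_ ?_
  · exact Constr.all fun i => Constr.eqz (IsPF.coord i)
  · intro z hz
    funext i
    exact (hz i).symm
  · intro w _
    funext i
    exact i.elim

/-- **The local series for `f + y z`.** -/
theorem zetaE_pair [CharZero K] {n : ℕ} (f : MvPolynomial (Fin n) K) (h0 : coeff 0 f = 0)
    {E : Set (AlgebraicClosure K)} (hE : CE E) (k : ℕ) :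
    zetaE (addyz f) {0} E k =
      PowerSeries.C ((Lu K : (MK K)ˣ) : MK K) *
        PowerSeries.rescale (((Lu K)⁻¹ : (MK K)ˣ) : MK K) (zetaE f {0} E k) +
      PowerSeries.C ((((Lu K : (MK K)ˣ) : MK K) - 1) * cE E) *
        (geoS (((Lu K)⁻¹ : (MK K)ˣ) : MK K) * geoS (((Lu K)⁻¹ : (MK K)ˣ) : MK K) *
        (PowerSeries.C (((Lu K)⁻¹ : (MK K)ˣ) : MK K) * PowerSeries.X *
          (PowerSeries.C (((Lu K)⁻¹ : (MK K)ˣ) : MK K) * PowerSeries.X -
            PowerSeries.rescale (((Lu K)⁻¹ : (MK K)ˣ) : MK K)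
              (zetaE f {0} {c | c ≠ 0} 1)))) := by
  obtain ⟨M₀, hM₀⟩ := Pool.Agent.W417.MT.K0.main K
  set M := mapMeas M₀ (algebraMap (K0 K) (MK K)) with hM
  set Y : MK K := (((Lu K)⁻¹ : (MK K)ˣ) : MK K) with hY
  set L : MK K := ((Lu K : (MK K)ˣ) : MK K) with hLdef
  have hLY : L * Y = 1 := Units.mul_inv _
  have hML : M.L = L := by
    have hL : M.L * Y = 1 := L_mul hM₀
    calc M.L = M.L * (L * Y) := by rw [hLY, mul_one]
      _ = (M.L * Y) * L := by ring
      _ = _ := by rw [hL, one_mul]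
  have hLYn : ∀ m, L ^ m * Y ^ m = 1 := fun m => by rw [← mul_pow, hLY, one_pow]
  have hcE : cE E = M.χ (Fin 1) {z | z 0 ∈ E} := by
    rw [cE, ← hM₀]
    rfl
  set T : ℕ → ℕ → MK K := fun i N => M.χ _ (TJ f {0} i N) with hT
  set A : ℕ → MK K := fun d => M.χ _ (JetS f {0} {c | c ≠ 0} d) * Y ^ (n * d) with hA
  set b : ℕ → MK K := fun i => T i i * Y ^ (n * i) with hb
  have hTs : ∀ i N, i ≤ N + 1 → T i (N + 1) = T i N * L ^ n := by
    intro i N hi
    rw [hT]
    beta_reduce
    rw [chi_TJ_succ M constr_zero _ i N hi, hML, Fintype.card_fin]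
  have hTb : ∀ i m, T i (i + m) * Y ^ (n * (i + m)) = b i := by
    intro i m
    induction m with
    | zero => rfl
    | succ m ih =>
      rw [← ih, show i + (m + 1) = i + m + 1 by ring, hTs i (i + m) (by omega),
        show n * (i + m + 1) = n + n * (i + m) by ring, pow_add]
      linear_combination (T i (i + m) * Y ^ (n * (i + m))) * hLYn n
  have hb1 : b 1 = 1 := by
    rw [hb]
    beta_reduce
    rw [hTs 1 0 le_rfl, hT]
    beta_reduce
    rw [chi_origin M f h0, mul_one, one_mul, hLYn]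
  have hbs : ∀ d, b (d + 1) = b d - A d := by
    intro d
    have h1 := chi_TJ M (constr_zero (σ := Fin n)) f d
    rw [hb, hA]
    beta_reduce
    rw [hTs (d + 1) d le_rfl, show n * (d + 1) = n + n * d by ring, pow_add]
    have h2 : T d d = M.χ _ (JetS f {0} {c | c ≠ 0} d) + T (d + 1) d := h1
    rw [h2]
    linear_combination (T (d + 1) d * Y ^ (n * d)) * hLYn n
  have hz : ∀ (m : ℕ) (g : MvPolynomial (Fin m) K) (W) (E') (k d : ℕ),
      PowerSeries.coeff d (zetaE g W E' k) = if d = 0 then 0 else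
        M.χ _ (JetE g W E' k d) * Y ^ (m * d) := by
    intro m g W E' k d
    rw [zetaE, PowerSeries.coeff_mk, zpow_neg, zpow_natCast, ← inv_pow,
      Units.val_pow_eq_pow_val, ← hM₀, Fintype.card_fin]
    rfl
  have hF : ∀ m, M.χ _ (JetE (addyz f) {0} E k (m + 1)) * Y ^ ((n + 2) * (m + 1)) =
      Y ^ (m + 1) * (L * (M.χ _ (JetE f {0} E k (m + 1)) * Y ^ (n * (m + 1))) +
        (L - 1) * cE E * ∑ i ∈ Finset.range m, b (i + 2)) := by
    intro m
    rw [chi_JetE_pair M f hE k m, hML, ← hcE, Finset.mul_sum]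
    have h1 : ∀ i ∈ Finset.range m, (L - 1) * L ^ (m + 1) * (cE E *
        M.χ _ (TJ f {0} (i + 2) (m + 1))) * Y ^ ((n + 2) * (m + 1)) =
        Y ^ (m + 1) * ((L - 1) * cE E * b (i + 2)) := by
      intro i hi
      have h2 := hTb (i + 2) (m + 1 - (i + 2))
      rw [Nat.add_sub_cancel' (by have := Finset.mem_range.1 hi; omega)] at h2
      rw [← h2, show (n + 2) * (m + 1) = n * (m + 1) + (m + 1) + (m + 1) by ring, pow_add, pow_add]
      linear_combination ((L - 1) * cE E * T (i + 2) (m + 1) * Y ^ (n * (m + 1)) *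
        Y ^ (m + 1)) * hLYn (m + 1)
    rw [add_mul, Finset.sum_mul, Finset.sum_congr rfl h1, ← Finset.mul_sum,
      show (n + 2) * (m + 1) = n * (m + 1) + (m + 1) + (m + 1) by ring,
      pow_add Y (n * (m + 1) + (m + 1)) (m + 1), pow_add Y (n * (m + 1)) (m + 1),
      pow_succ L (m + 1)]
    linear_combination (M.χ _ (JetE f {0} E k (m + 1)) * Y ^ (n * (m + 1)) * L *
      Y ^ (m + 1)) * hLYn (m + 1)
  set D : PowerSeries (MK K) := PowerSeries.mk fun d => Y ^ d * ∑ i ∈ Finset.range (d - 1),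
    b (i + 2) with hD
  set B : PowerSeries (MK K) := PowerSeries.mk fun d => if d ≤ 1 then 0 else Y ^ d * b d with hB
  have r1 : (1 - PowerSeries.C Y * PowerSeries.X) * D = B := by
    ext d
    rcases d with _ | _ | d
    · rw [coeff_zero_lin, hD, hB, PowerSeries.coeff_mk, PowerSeries.coeff_mk]
      simp
    · rw [coeff_succ_lin, hD, hB, PowerSeries.coeff_mk, PowerSeries.coeff_mk,
        PowerSeries.coeff_mk]
      simp
    · rw [coeff_succ_lin, hD, hB, PowerSeries.coeff_mk, PowerSeries.coeff_mk,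
        PowerSeries.coeff_mk, if_neg (by omega), show d + 1 + 1 - 1 = d + 1 from rfl,
        show d + 1 - 1 = d from rfl, Finset.sum_range_succ _ d, pow_succ Y (d + 1)]
      ring
  have r2 : (1 - PowerSeries.C Y * PowerSeries.X) * B =
      PowerSeries.C Y * PowerSeries.X * (PowerSeries.C Y * PowerSeries.X -
        PowerSeries.rescale Y (zetaE f {0} {c | c ≠ 0} 1)) := by
    ext d
    rcases d with _ | _ | d
    · rw [coeff_zero_lin, hB, PowerSeries.coeff_mk, if_pos (by omega), mul_assoc,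
        PowerSeries.coeff_C_mul, PowerSeries.coeff_zero_X_mul, mul_zero]
    · rw [coeff_succ_lin, hB, PowerSeries.coeff_mk, PowerSeries.coeff_mk, if_pos (by omega),
        if_pos (by omega), mul_assoc, PowerSeries.coeff_C_mul, PowerSeries.coeff_succ_X_mul,
        map_sub, PowerSeries.coeff_C_mul, PowerSeries.coeff_zero_X, PowerSeries.coeff_rescale, hz,
        if_pos rfl]
      ring
    · rw [coeff_succ_lin, hB, PowerSeries.coeff_mk, PowerSeries.coeff_mk, if_neg (by omega),
        mul_assoc, PowerSeries.coeff_C_mul, PowerSeries.coeff_succ_X_mul,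
        map_sub, PowerSeries.coeff_C_mul, PowerSeries.coeff_X, PowerSeries.coeff_rescale, hz,
        if_neg (Nat.succ_ne_zero d), chi_JetE_one constr_zero (ce_good good_units) M f (d + 1)]
      rcases d with _ | d
      · rw [if_pos (by omega), if_pos rfl, hbs 1, hb1, hA]
        ring
      · rw [if_neg (by omega), if_neg (by omega), hbs (d + 1 + 1), hA]
        ring
  have r3 : D = geoS Y * geoS Y * (PowerSeries.C Y * PowerSeries.X * (PowerSeries.C Y *
      PowerSeries.X - PowerSeries.rescale Y (zetaE f {0} {c | c ≠ 0} 1))) := by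
    rw [← r2, ← r1]
    have h1 := geoS_mul Y
    linear_combination (-(geoS Y * (1 - PowerSeries.C Y * PowerSeries.X) * D) - D) * h1
  have r4 : zetaE (addyz f) {0} E k = PowerSeries.C L * PowerSeries.rescale Y (zetaE f {0} E k) +
      PowerSeries.C ((L - 1) * cE E) * D := by
    ext d
    rw [map_add, PowerSeries.coeff_C_mul, PowerSeries.coeff_C_mul,
      PowerSeries.coeff_rescale, hz, hz, hD, PowerSeries.coeff_mk]
    rcases d with _ | d
    · rw [if_pos rfl, if_pos rfl]
      simp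
    · rw [if_neg (Nat.succ_ne_zero d), if_neg (Nat.succ_ne_zero d), hF,
        show d + 1 - 1 = d from rfl]
      ring
  rw [r4, r3]

/-! ### Invariance under isomorphisms -/

theorem chi_JetE_iso {R : Type} [CommRing R] (M : Meas K R) {σ τ : Type} [Fintype σ] [Fintype τ]
    (ψ : MvPolynomial σ K ≃ₐ[K] MvPolynomial τ K) (hψ : ∀ i, constantCoeff (ψ (X i)) = 0)
    (hψ' : ∀ i, constantCoeff (ψ.symm (X i)) = 0) (f : MvPolynomial σ K)
    {E : Set (AlgebraicClosure K)} (hE : CE E) (k N : ℕ) :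
    M.χ _ (JetE (ψ f) {0} E k N) = M.χ _ (JetE f {0} E k N) := by
  have h1 : ∀ g, (ψ : MvPolynomial σ K →ₐ[K] MvPolynomial τ K)
      ((ψ.symm : MvPolynomial τ K →ₐ[K] MvPolynomial σ K) g) = g :=
    fun g => ψ.apply_symm_apply g
  have h2 : ∀ g, (ψ.symm : MvPolynomial τ K →ₐ[K] MvPolynomial σ K)
      ((ψ : MvPolynomial σ K →ₐ[K] MvPolynomial τ K) g) = g :=
    fun g => ψ.symm_apply_apply g
  have key : ∀ {σ τ : Type} (φ : MvPolynomial σ K →ₐ[K] MvPolynomial τ K) (p),
      IsPF (fun z : Pt K (Unit ⊕ τ × Fin (N + 1)) =>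
        (Sum.elim (fun u => z (Sum.inl u)) (Tm φ N fun i => z (Sum.inr i)) :
          Unit ⊕ σ × Fin (N + 1) → AlgebraicClosure K) p) := by
    intro σ τ φ p
    rcases p with p | p
    · exact IsPF.coord _
    · exact (isPF_Tm φ N p).comp (fun z : Pt K (Unit ⊕ τ × Fin (N + 1)) =>
        fun i => z (Sum.inr i)) fun i => IsPF.coord _
  have org : ∀ {σ τ : Type} (φ : MvPolynomial σ K →ₐ[K] MvPolynomial τ K),
      (∀ i, constantCoeff (φ (X i)) = 0) → ∀ z : Pt K (τ × Fin (N + 1)),
      (fun i => z (i, 0)) ∈ ({0} : Set (Pt K τ)) →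
      (fun i => Tm φ N z (i, 0)) ∈ ({0} : Set (Pt K σ)) := by
    intro σ τ φ hφ z hz
    funext i
    change PowerSeries.coeff 0 (aeval (ar z) (φ (X i))) = 0
    have h3 := coeff_congr (φ (X i)) 0 (ar z) 0 (fun i k hk => by
      obtain rfl : k = 0 := by omega
      rw [coeff_ar' _ _ _ (Nat.succ_pos N)]
      have := congrFun hz i
      simpa using this) 0 le_rfl
    rw [h3, MvPolynomial.aeval_zero, hφ, map_zero, map_zero]
  refine M.iso _ _ (constr_JetE constr_zero hE _ k N) (constr_JetE constr_zero hE _ k N)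
    (fun z => Sum.elim (fun u => z (Sum.inl u))
      (Tm (ψ : MvPolynomial σ K →ₐ[K] MvPolynomial τ K) N fun i => z (Sum.inr i)))
    (fun z => Sum.elim (fun u => z (Sum.inl u))
      (Tm (ψ.symm : MvPolynomial τ K →ₐ[K] MvPolynomial σ K) N fun i => z (Sum.inr i)))
    (regularOn_poly (key _) _) (regularOn_poly (key _) _) ?_ ?_ ?_ ?_
  · rintro z ⟨g0, g1, g2, g3⟩
    refine ⟨g0, org _ hψ _ g1, fun j hj => ?_, ?_⟩
    · change PowerSeries.coeff j (aeval (ar (Tm _ N fun i => z (Sum.inr i))) f) = 0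
      rw [coeff_Tm _ _ _ _ hj.le]
      exact g2 j hj
    · change PowerSeries.coeff N (aeval (ar (Tm _ N fun i => z (Sum.inr i))) f) =
        z (Sum.inl ()) ^ k
      rw [coeff_Tm _ _ _ _ le_rfl]
      exact g3
  · rintro z ⟨g0, g1, g2, g3⟩
    have e3 : (ψ.symm : MvPolynomial τ K →ₐ[K] MvPolynomial σ K) (ψ f) = f :=
      ψ.symm_apply_apply f
    refine ⟨g0, org _ hψ' _ g1, fun j hj => ?_, ?_⟩
    · change PowerSeries.coeff j (aeval (ar (Tm _ N fun i => z (Sum.inr i))) (ψ f)) = 0
      rw [coeff_Tm _ _ _ _ hj.le, e3]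
      exact g2 j hj
    · change PowerSeries.coeff N (aeval (ar (Tm _ N fun i => z (Sum.inr i))) (ψ f)) =
        z (Sum.inl ()) ^ k
      rw [coeff_Tm _ _ _ _ le_rfl, e3]
      exact g3
  · intro z _
    funext i
    rcases i with i | i
    · rfl
    · exact congrFun (Tm_Tm _ _ h1 fun i => z (Sum.inr i)) i
  · intro z _
    funext i
    rcases i with i | i
    · rfl
    · exact congrFun (Tm_Tm _ _ h2 fun i => z (Sum.inr i)) i

theorem zetaE_iso [CharZero K] {σ τ : Type} [Fintype σ] [Fintype τ]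
    (ψ : MvPolynomial σ K ≃ₐ[K] MvPolynomial τ K) (hψ : ∀ i, constantCoeff (ψ (X i)) = 0)
    (hψ' : ∀ i, constantCoeff (ψ.symm (X i)) = 0)
    (hc : Fintype.card τ = Fintype.card σ) (f : MvPolynomial σ K)
    {E : Set (AlgebraicClosure K)} (hE : CE E) (k : ℕ) :
    zetaE (ψ f) {0} E k = zetaE f {0} E k := by
  obtain ⟨M₀, hM₀⟩ := Pool.Agent.W417.MT.K0.main K
  ext d
  rw [zetaE, zetaE, PowerSeries.coeff_mk, PowerSeries.coeff_mk, ← hM₀, ← hM₀,
    chi_JetE_iso M₀ ψ hψ hψ' f hE k d, hc]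

end Pool.Agent.Q223.TW.LK
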