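import Pool.Agent.Q223.TW.PtK
import Pool.Agent.Q223.TW.MotW

/-!
# The strong motivic monodromy conjecture at points: reduction to programs
-/

set_option autoImplicit false
set_option linter.unusedSectionVars false

namespace Pool.Agent.Q223.TW

open MvPolynomial Pool.Agent.H628R4.TP Pool.Agent.Y229.MS Pool.Agent.Q223.MM
open Pool.Agent.W428.MOT (Pt Constr ratRing Lu MK geo zeta)
open Pool.Agent.W375.MG (IsPole ratRing_mono)
open Pool.Agent.W63.MTFin (geo_mul geo_mem X_mem C_mem)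
open Pool.Agent.Y229.PG (becomes_global)
open Pool.Agent.Y229.RE (stab)
open Pool.Agent.Q223.TW.LK (Rec ptI tr rec_pt zeta_pt)

section core

variable {K : Type} [Field K]

theorem of_fst {Z : PowerSeries (MK K)} {S : Set (ℤ × ℤ)} (h : fst' K * Z ∈ ratRing K S) :
    Z ∈ ratRing K (insert (-1, 1) S) := by
  have h1 := geo_mul (K := K) (-1) 1 one_pos
  rw [show (1 : ℤ).toNat = 1 from rfl, zpow_neg_one, pow_one] at h1
  have h2 : geo K (-1) 1 * (fst' K * Z) = Z := by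
    unfold fst'
    calc _ = ((1 - PowerSeries.C (((Lu K)⁻¹ : (MK K)ˣ) : MK K) * PowerSeries.X) * geo K (-1) 1) *
        Z := by ring
      _ = _ := by rw [h1, one_mul]
  rw [← h2]
  exact (ratRing K _).mul_mem (geo_mem (p := ((-1 : ℤ), (1 : ℤ))) (Set.mem_insert _ _))
    (ratRing_mono (Set.subset_insert _ _) h)

/-- the shifted slope -/
theorem shift_div {κ : ℕ} {q : ℤ × ℤ} (hq : 0 < q.2) :
    ((q.1 + κ * q.2 : ℤ) : ℂ) / (q.2 : ℤ) = (q.1 : ℂ) / q.2 + κ := by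
  have hq0 : (q.2 : ℂ) ≠ 0 := by exact_mod_cast hq.ne'
  push_cast
  field_simp

/-- the slopes after the descent -/
theorem shift_root {κ : ℕ} {c : Polynomial ℂ} {q : ℤ × ℤ} (hq : 0 < q.2)
    (h : ((Polynomial.X + 1) * c.comp (Polynomial.X + Polynomial.C (κ : ℂ))).eval
      ((q.1 : ℂ) / q.2) = 0) :
    c.eval (((q.1 + κ * q.2 : ℤ) : ℂ) / (q.2 : ℤ)) = 0 ∨
      ((q.1 + κ * q.2 : ℤ) : ℂ) / (q.2 : ℤ) = (κ : ℂ) - 1 := by
  rw [shift_div hq]
  rw [Polynomial.eval_mul, Polynomial.eval_comp, mul_eq_zero, Polynomial.eval_add,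
    Polynomial.eval_X, Polynomial.eval_one, Polynomial.eval_add, Polynomial.eval_X,
    Polynomial.eval_C] at h
  rcases h with h | h
  · right
    linear_combination h
  · left
    exact h

/-- **The strong form from four members of the sequence.** -/
theorem strong_core {Q : ℕ → PowerSeries (MK K)} (hQ : Rec Q) (κ : ℕ) (c : Polynomial ℂ)
    (h : ∀ j < 4, ∃ S : Finset (ℤ × ℤ), (∀ p ∈ S, 0 < p.2 ∧
      ((Polynomial.X + 1) * c.comp (Polynomial.X + Polynomial.C ((κ + j : ℕ) : ℂ))).eval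
        ((p.1 : ℂ) / p.2) = 0) ∧ Q (κ + j) ∈ ratRing K S) :
    ∃ S : Finset (ℤ × ℤ), (∀ p ∈ S, 0 < p.2 ∧ ((Polynomial.X + 1) * c).eval
      ((p.1 : ℂ) / p.2) = 0) ∧ Q 0 ∈ ratRing K S := by
  classical
  obtain ⟨S0, hS0, z0⟩ := h 0 (by norm_num)
  obtain ⟨S1, hS1, z1⟩ := h 1 (by norm_num)
  obtain ⟨S2, hS2, z2⟩ := h 2 (by norm_num)
  obtain ⟨S3, hS3, z3⟩ := h 3 (by norm_num)
  have d0 := LK.descend hQ κ _ _ (fun p hp => (hS0 p hp).1) (fun p hp => (hS1 p hp).1) z0 z1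
  have d2 := LK.descend hQ (κ + 2) _ _ (fun p hp => (hS2 p hp).1) (fun p hp => (hS3 p hp).1) z2 z3
  have pos0 : ∀ p ∈ shn κ (S0 : Set (ℤ × ℤ)) ∪ shn (κ + 1) (S1 : Set (ℤ × ℤ)), 0 < p.2 := by
    rintro p (hp | hp)
    · exact shn_pos (fun q hq => (hS0 q hq).1) p hp
    · exact shn_pos (fun q hq => (hS1 q hq).1) p hp
  have pos2 : ∀ p ∈ shn (κ + 2) (S2 : Set (ℤ × ℤ)) ∪ shn (κ + 2 + 1) (S3 : Set (ℤ × ℤ)),
      0 < p.2 := by
    rintro p (hp | hp)
    · exact shn_pos (fun q hq => (hS2 q hq).1) p hp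
    · exact shn_pos (fun q hq => (hS3 q hq).1) p hp
  have r0 : ∀ p ∈ shn κ (S0 : Set (ℤ × ℤ)) ∪ shn (κ + 1) (S1 : Set (ℤ × ℤ)),
      c.eval ((p.1 : ℂ) / p.2) = 0 ∨ (p.1 : ℂ) / p.2 = (κ : ℂ) - 1 ∨ (p.1 : ℂ) / p.2 = κ := by
    rintro p (⟨q, hq, rfl⟩ | ⟨q, hq, rfl⟩)
    · rcases shift_root (hS0 q hq).1 (hS0 q hq).2 with h1 | h1
      · exact Or.inl h1
      · exact Or.inr (Or.inl h1)
    · rcases shift_root (hS1 q hq).1 (hS1 q hq).2 with h1 | h1
      · exact Or.inl h1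
      · refine Or.inr (Or.inr (h1.trans ?_))
        push_cast
        ring
  have r2 : ∀ p ∈ shn (κ + 2) (S2 : Set (ℤ × ℤ)) ∪ shn (κ + 2 + 1) (S3 : Set (ℤ × ℤ)),
      c.eval ((p.1 : ℂ) / p.2) = 0 ∨ (p.1 : ℂ) / p.2 = (κ : ℂ) + 1 ∨
        (p.1 : ℂ) / p.2 = κ + 2 := by
    rintro p (⟨q, hq, rfl⟩ | ⟨q, hq, rfl⟩)
    · rcases shift_root (hS2 q hq).1 (hS2 q hq).2 with h1 | h1
      · exact Or.inl h1
      · refine Or.inr (Or.inl (h1.trans ?_))
        push_cast
        ring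
    · rcases shift_root (hS3 q hq).1 (hS3 q hq).2 with h1 | h1
      · exact Or.inl h1
      · refine Or.inr (Or.inr (h1.trans ?_))
        push_cast
        ring
  obtain ⟨D, hD, hz⟩ := ratRing_inter pos0 pos2 d0 d2
  have posI : ∀ p ∈ insert (-(D : ℤ), (D : ℤ)) {p ∈ shn κ (S0 : Set (ℤ × ℤ)) ∪
      shn (κ + 1) (S1 : Set (ℤ × ℤ)) | ∃ q ∈ shn (κ + 2) (S2 : Set (ℤ × ℤ)) ∪
        shn (κ + 2 + 1) (S3 : Set (ℤ × ℤ)), p.1 * q.2 = q.1 * p.2}, 0 < p.2 := by
    rintro p (rfl | ⟨hp, -⟩)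
    · exact Int.natCast_pos.2 hD
    · exact pos0 p hp
  obtain ⟨S, hS, hzS⟩ := exists_finset posI hz
  refine ⟨S, fun p hp => ⟨posI p (hS p hp), ?_⟩, hzS⟩
  rw [Polynomial.eval_mul, mul_eq_zero]
  rcases hS p hp with rfl | ⟨hp1, q, hq, hpq⟩
  · left
    have h7 : (D : ℂ) ≠ 0 := by exact_mod_cast hD.ne'
    rw [Polynomial.eval_add, Polynomial.eval_X, Polynomial.eval_one]
    push_cast
    field_simp
    ring
  · right
    have hpp := pos0 p hp1
    have hqq := pos2 q hq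
    have he : (p.1 : ℂ) / p.2 = (q.1 : ℂ) / q.2 := by
      have h1 : (p.2 : ℂ) ≠ 0 := by exact_mod_cast hpp.ne'
      have h2 : (q.2 : ℂ) ≠ 0 := by exact_mod_cast hqq.ne'
      rw [div_eq_div_iff h1 h2]
      exact_mod_cast hpq
    rcases r0 p hp1 with h1 | h1
    · exact h1
    · rcases r2 q hq with h2 | h2
      · rw [he]
        exact h2
      · exfalso
        rw [he] at h1
        have h3 : (κ : ℂ) - 1 = κ + 1 ∨ (κ : ℂ) - 1 = κ + 2 ∨ (κ : ℂ) = κ + 1 ∨
            (κ : ℂ) = κ + 2 := by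
          rcases h1 with h1 | h1 <;> rcases h2 with h2 | h2
          · exact Or.inl (h1.symm.trans h2)
          · exact Or.inr (Or.inl (h1.symm.trans h2))
          · exact Or.inr (Or.inr (Or.inl (h1.symm.trans h2)))
          · exact Or.inr (Or.inr (Or.inr (h1.symm.trans h2)))
        rcases h3 with h3 | h3 | h3 | h3
        · have h4 : (2 : ℂ) = 0 := by linear_combination -h3
          norm_num at h4
        · have h4 : (3 : ℂ) = 0 := by linear_combination -h3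
          norm_num at h4
        · have h4 : (1 : ℂ) = 0 := by linear_combination -h3
          norm_num at h4
        · have h4 : (2 : ℂ) = 0 := by linear_combination -h3
          norm_num at h4

end core

variable {k : Type} [Field k] [Algebra k ℂ]

/-- **Q1 for `f ∈ k[x_1, …, x_n]` at the point `x` with coordinates in the field `K ⊇ k`.** If `b ≠ 0` and
`b(s) f ^ s = P(s) f ^ (s + 1)`, there is a finite set `S` of pairs `(a, d)` with `d > 0` and
`b(a / d) = 0` such that the local motivic zeta function `Z_{f,x}(T) ∈ 𝓜_K[[T]]` is in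
`𝓜_K[T, 1 / (1 - 𝕃 ^ a T ^ d)]_{(a, d) ∈ S}`. -/
def StrongPt {n : ℕ} (f : MvPolynomial (Fin n) k) (K : Type) [Field K] [Algebra k K]
    (x : Fin n → K) : Prop :=
  ∀ b : Polynomial ℂ, b ≠ 0 → IsBFunction (map (algebraMap k ℂ) f) b →
    ∃ S : Finset (ℤ × ℤ), (∀ p ∈ S, 0 < p.2 ∧ b.eval ((p.1 : ℂ) / p.2) = 0) ∧
      zeta (map (algebraMap k K) f) x ∈ ratRing K S

theorem root_neg_one {n : ℕ} {f : MvPolynomial (Fin n) k} (hf : f.totalDegree ≠ 0)
    {b : Polynomial ℂ} (hb : IsBFunction (map (algebraMap k ℂ) f) b) : b.eval (-1) = 0 :=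
  (becomes_global (map_deg hf) hb (k := 0)
    (G := stab (map (algebraMap k ℂ) f) 0) ⟨AlgEquiv.refl, rfl⟩).1

/-- **The form with poles.** -/
theorem strong_iff_poles {n : ℕ} {f : MvPolynomial (Fin n) k} (hf : f.totalDegree ≠ 0)
    (K : Type) [Field K] [Algebra k K] (x : Fin n → K) :
    StrongPt f K x ↔ ∀ b : Polynomial ℂ, b ≠ 0 → IsBFunction (map (algebraMap k ℂ) f) b →
      (∃ S : Finset (ℤ × ℤ), (∀ p ∈ S, 0 < p.2) ∧
        zeta (map (algebraMap k K) f) x ∈ ratRing K S) ∧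
      ∀ s : ℚ, IsPole (zeta (map (algebraMap k K) f) x) s → b.eval (s : ℂ) = 0 := by
  constructor
  · intro h b hb0 hb
    obtain ⟨S, hS, hz⟩ := h b hb0 hb
    refine ⟨⟨S, fun p hp => (hS p hp).1, hz⟩, fun s hs => ?_⟩
    by_contra hne
    apply hs
    refine ratRing_mono ?_ hz
    intro p hp
    refine ⟨(hS p hp).1, fun h1 => hne ?_⟩
    rw [← h1]
    have h2 := (hS p hp).2
    push_cast
    exact h2
  · intro h b hb0 hb
    obtain ⟨⟨S, hS, hz⟩, hp⟩ := h b hb0 hb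
    obtain ⟨S', hS', hz'⟩ := ring_of_poles (fun s => b.eval (s : ℂ) = 0) hS hz hp
    refine ⟨S', fun p hp => ⟨(hS' p hp).1, ?_⟩, hz'⟩
    rcases (hS' p hp).2 with h1 | h1
    · push_cast at h1
      exact h1
    · have h2 : (p.2 : ℂ) ≠ 0 := by exact_mod_cast (hS' p hp).1.ne'
      have h3 : (p.1 : ℂ) / p.2 = -1 := by
        rw [h1]
        push_cast
        field_simp
      rw [h3]
      exact root_neg_one hf hb

/-- the points of the programs -/
theorem exists_pt {n κ : ℕ} (f : MvPolynomial (Fin n) k) {F : MvPolynomial (Fin (n + (κ + κ))) k}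
    (ψ : MvPolynomial (Fin (n + (κ + κ))) k ≃ₐ[k] MvPolynomial (Fin (n + (κ + κ))) k)
    (hψ : ψ (stabK f κ) = F) (K : Type) [Field K] [CharZero K] [Algebra k K] (x : Fin n → K)
    (h0 : aeval x f = 0) :
    ∃ p : Fin (n + (κ + κ)) → K, aeval p F = 0 ∧ zeta (map (algebraMap k K) F) p =
      zeta (itr (map (algebraMap k K) f) κ) (ptI x κ) := by
  obtain ⟨χ, hχ⟩ := Pool.Agent.Y405.MS.itr K (map (algebraMap k K) f) κ
  obtain ⟨ψ', hψ'⟩ := Pool.Agent.Y405.MS.bc k K ψ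
  have hF : (χ.trans ψ') (itr (map (algebraMap k K) f) κ) = map (algebraMap k K) F := by
    show ψ' (χ (itr _ κ)) = _
    rw [hχ, ← map_stabK, hψ', hψ]
  have h1 := zeta_pt (by ring) (χ.trans ψ') (itr (map (algebraMap k K) f) κ) (ptI x κ)
  rw [hF] at h1
  refine ⟨_, ?_, h1⟩
  have h2 : ∀ q : MvPolynomial (Fin (n + 2 * κ)) K,
      eval (fun j => eval (ptI x κ) ((χ.trans ψ').symm (X j))) ((χ.trans ψ') q) =
        eval (ptI x κ) q := by
    intro q
    have e : (aeval (fun j => eval (ptI x κ) ((χ.trans ψ').symm (X j))) :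
        MvPolynomial (Fin (n + (κ + κ))) K →ₐ[K] K) =
        (aeval (ptI x κ)).comp (χ.trans ψ').symm.toAlgHom := by
      apply MvPolynomial.algHom_ext
      intro i
      rw [aeval_X, ← coe_aeval_eq_eval]
      rfl
    rw [← coe_aeval_eq_eval, ← coe_aeval_eq_eval]
    show aeval (fun j => eval (ptI x κ) ((χ.trans ψ').symm (X j))) ((χ.trans ψ') q) = _
    rw [e]
    show aeval (ptI x κ) ((χ.trans ψ').symm ((χ.trans ψ') q)) = aeval (ptI x κ) q
    rw [AlgEquiv.symm_apply_apply]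
  have h3 := h2 (itr (map (algebraMap k K) f) κ)
  rw [hF] at h3
  have h4 : eval (ptI x κ) (itr (map (algebraMap k K) f) κ) = 0 := by
    rw [← LK.coeff_tr, LK.tr_itr]
    refine LK.coeff_itr _ ?_ κ
    rw [LK.coeff_tr, eval_map, ← aeval_def]
    exact h0
  rw [h4, eval_map, ← aeval_def] at h3
  exact h3

/-- **The transfer.** -/
theorem transferPt {n : ℕ} {f : MvPolynomial (Fin n) k} (hf : f.totalDegree ≠ 0) (κ : ℕ)
    (F : ∀ j : ℕ, MvPolynomial (Fin (n + (κ + j + (κ + j)))) k)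
    (hF : ∀ j : ℕ, ∃ ψ : MvPolynomial (Fin (n + (κ + j + (κ + j)))) k ≃ₐ[k]
      MvPolynomial (Fin (n + (κ + j + (κ + j)))) k, ψ (stabK f (κ + j)) = F j)
    (K : Type) [Field K] [Algebra k K] (x : Fin n → K) (h0 : aeval x f = 0) :
    ∃ p : ∀ j : ℕ, Fin (n + (κ + j + (κ + j))) → K, (∀ j, aeval (p j) (F j) = 0) ∧
      ((∀ j < 4, StrongPt (F j) K (p j)) → StrongPt f K x) := by
  classical
  have hk0 : CharZero k := RingHom.charZero (algebraMap k ℂ)
  have hK0 : CharZero K := charZero_of_injective_algebraMap (algebraMap k K).injective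
  choose ψ hψ using hF
  choose p hp1 hp2 using fun j => exists_pt f (ψ j) (hψ j) K x h0
  refine ⟨p, hp1, fun h b hb0 hb => ?_⟩
  have hm1 := root_neg_one hf hb
  obtain ⟨c, rfl⟩ : (Polynomial.X + 1 : Polynomial ℂ) ∣ b := by
    have := Polynomial.dvd_iff_isRoot.2 hm1
    simpa using this
  have hne : ∀ κ : ℕ, (Polynomial.X + 1) * c.comp (Polynomial.X + Polynomial.C (κ : ℂ)) ≠ 0 := by
    intro κ h0
    apply hb0
    rcases mul_eq_zero.1 h0 with h3 | h3
    · rw [h3, zero_mul]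
    · have h4 := congrArg (fun p => p.comp (Polynomial.X - Polynomial.C (κ : ℂ))) h3
      simp only [Polynomial.comp_assoc, Polynomial.zero_comp] at h4
      rw [Polynomial.add_comp, Polynomial.X_comp, Polynomial.C_comp, sub_add_cancel,
        Polynomial.comp_X] at h4
      rw [h4, mul_zero]
  have hrec := rec_pt (map (algebraMap k K) f) x (by rw [eval_map, ← aeval_def]; exact h0)
  obtain ⟨S, hS, hz⟩ := strong_core hrec κ c (fun j hj => by
    obtain ⟨S, hS, hz⟩ := h j hj _ (hne (κ + j)) (bfun_FK hf hb (ψ j) (hψ j))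
    refine ⟨S, hS, ?_⟩
    rw [hp2 j] at hz
    exact (ratRing K _).mul_mem (fst_mem _) hz)
  have h5 := of_fst hz
  refine ⟨insert (-1, 1) S, fun q hq => ?_, ?_⟩
  · rcases Finset.mem_insert.1 hq with rfl | hq
    · refine ⟨one_pos, ?_⟩
      have e1 : ((-1 : ℤ) : ℂ) / ((1 : ℤ) : ℂ) = -1 := by norm_num
      rw [e1]
      exact hm1
    · exact hS q hq
  · rw [Finset.coe_insert]
    exact h5

/-- **The reduction for one polynomial.** -/
theorem reducePt (S : Set k) (hS : (1 : k) ∈ AddSubgroup.closure S) (N n : ℕ)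
    (f : MvPolynomial (Fin n) k) (hf : f.totalDegree ≠ 0)
    (hfS : ∀ d, coeff d f ∈ AddSubgroup.closure S) :
    ∃ (κ : ℕ) (a : k), 0 < κ ∧ a ∈ AddSubgroup.closure S ∧
      ∃ (o : ∀ j : ℕ, Fin (κ + j) → Option (Fin (κ + j)))
      (v : ∀ j : ℕ, Fin (κ + j) → Fin n) (c : ∀ j : ℕ, Fin (κ + j) → k),
      (∀ j, Forest (o j) ∧ (∀ m, c j m ∈ coeffs S) ∧
        MinExp N (map (algebraMap k ℂ) (progA (o j) (v j) (c j) a))) ∧
      ∀ (K : Type) [Field K] [Algebra k K] (x : Fin n → K), aeval x f = 0 →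
        ∃ p : ∀ j : ℕ, Fin (n + (κ + j + (κ + j))) → K,
          (∀ j, aeval (p j) (progA (o j) (v j) (c j) a) = 0) ∧
          ((∀ j < 4, StrongPt (progA (o j) (v j) (c j) a) K (p j)) → StrongPt f K x) := by
  classical
  have hn : 0 < n := by
    rcases Nat.eq_zero_or_pos n with rfl | h
    · exfalso
      apply hf
      rw [eq_C_of_isEmpty f, totalDegree_C]
    · exact h
  set i0 : Fin n := ⟨0, hn⟩
  by_cases hbf : ∃ b : Polynomial ℂ, IsBFunction (map (algebraMap k ℂ) f) b ∧ b ≠ 0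
  · obtain ⟨b, hb, hb0⟩ := hbf
    have hm1 := root_neg_one hf hb
    obtain ⟨p, rfl⟩ : (Polynomial.X + 1 : Polynomial ℂ) ∣ b := by
      have := Polynomial.dvd_iff_isRoot.2 hm1
      simpa using this
    obtain ⟨κ₀, hr⟩ := rep_all (S := S) (f - C (coeff 0 f)) (by
      rw [coeff_sub, coeff_zero_C, sub_self]) (by
      intro d
      rw [coeff_sub, coeff_C]
      refine AddSubgroup.sub_mem _ (hfS d) ?_
      split_ifs
      · exact hfS 0
      · exact AddSubgroup.zero_mem _)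
    obtain ⟨κ₁, h1⟩ := exists_progsM i0 hf hr N (right_ne_zero_of_mul hb0) hb
    choose o v c ho hc hm ψ hψ using fun j : ℕ => h1 (κ₁ + 1 + j) (by omega)
    exact ⟨κ₁ + 1, coeff 0 f, Nat.succ_pos _, hfS 0, o, v, c, fun j => ⟨ho j, hc j, hm j⟩,
      fun K _ _ x h0 => transferPt hf (κ₁ + 1) (fun j => progA (o j) (v j) (c j) (coeff 0 f))
        (fun j => ⟨ψ j, hψ j⟩) K x h0⟩
  · push Not at hbf
    obtain ⟨κ₀, hr⟩ := rep_varK hS i0
    have hX : (X i0 : MvPolynomial (Fin n) k).totalDegree ≠ 0 := by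
      rw [totalDegree_X]
      exact one_ne_zero
    obtain ⟨κ₁, h1⟩ := exists_progsM i0 hX hr N one_ne_zero (by
      rw [map_X]
      exact bfun_X i0)
    choose o v c ho hc hm ψ hψ using fun j : ℕ => h1 (κ₁ + 1 + j) (by omega)
    refine ⟨κ₁ + 1, 0, Nat.succ_pos _, AddSubgroup.zero_mem _, o, v, c,
      fun j => ⟨ho j, hc j, hm j⟩, fun K _ _ x _ => ?_⟩
    obtain ⟨p, hp, -⟩ := transferPt hX (κ₁ + 1) (fun j => progA (o j) (v j) (c j) 0)
        (fun j => ⟨ψ j, hψ j⟩) K (fun _ => (0 : K)) (by rw [aeval_X])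
    exact ⟨p, hp, fun _ b hb0 hb => absurd (hbf b hb) hb0⟩

end Pool.Agent.Q223.TW
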