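import Pool.Agent.Q223.TW.LocK
import Pool.Agent.Q223.TW.Inter
import Pool.Agent.Y229.MS.Fin

/-!
# The recursion of the local series and the descent
-/

set_option autoImplicit false
set_option linter.unusedSectionVars false

namespace Pool.Agent.Q223.TW.LK

open MvPolynomial
open Pool.Agent.W428.MOT (Pt Constr ratRing Lu MK K0 geo)
open Pool.Agent.W375.MG (ratRing_mono good_units)
open Pool.Agent.W63.MTFin (geo_mul geo_mem X_mem C_mem)
open Pool.Agent.Y229.MS (addyz CE ce_good itr fst' shn shn_pos rescale_mem shn_union shn_shn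
  rescale_C' rescale_X')

/-! ### Descent for sequences -/

section

variable {K : Type} [Field K]

/-- the recursion with the characteristic roots `𝕃` and `𝕃 ^ 2` -/
def Rec (Q : ℕ → PowerSeries (MK K)) : Prop := ∀ j,
  PowerSeries.rescale ((Lu K : (MK K)ˣ) : MK K)
      (PowerSeries.rescale ((Lu K : (MK K)ˣ) : MK K) (Q (j + 2))) =
    (PowerSeries.C ((Lu K : (MK K)ˣ) : MK K) + PowerSeries.C ((Lu K : (MK K)ˣ) : MK K) ^ 2) *
      PowerSeries.rescale ((Lu K : (MK K)ˣ) : MK K) (Q (j + 1)) -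
    PowerSeries.C ((Lu K : (MK K)ˣ) : MK K) ^ 3 * Q j

theorem step {Q : ℕ → PowerSeries (MK K)} (hQ : Rec Q) (j : ℕ) {S1 S2 : Set (ℤ × ℤ)}
    (hS1 : ∀ p ∈ S1, 0 < p.2) (hS2 : ∀ p ∈ S2, 0 < p.2) (h1 : Q (j + 1) ∈ ratRing K S1)
    (h2 : Q (j + 2) ∈ ratRing K S2) : Q j ∈ ratRing K (shn 1 S1 ∪ shn 1 (shn 1 S2)) := by
  have h3 := hQ j
  set L : MK K := ((Lu K : (MK K)ˣ) : MK K) with hL
  set Y : MK K := (((Lu K)⁻¹ : (MK K)ˣ) : MK K) with hY
  have hLY : PowerSeries.C L * PowerSeries.C Y = (1 : PowerSeries (MK K)) := by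
    rw [← map_mul, hL, hY, Units.mul_inv, map_one]
  have h4 : Q j = PowerSeries.C Y ^ 3 * ((PowerSeries.C L + PowerSeries.C L ^ 2) *
      PowerSeries.rescale L (Q (j + 1)) - PowerSeries.rescale L (PowerSeries.rescale L
        (Q (j + 2)))) := by
    rw [h3]
    have h5 : (PowerSeries.C L * PowerSeries.C Y) ^ 3 = (1 : PowerSeries (MK K)) := by
      rw [hLY, one_pow]
    linear_combination (-Q j) * h5
  rw [h4]
  have m1 : PowerSeries.rescale L (Q (j + 1)) ∈ ratRing K (shn 1 S1 ∪ shn 1 (shn 1 S2)) :=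
    ratRing_mono Set.subset_union_left (rescale_mem hS1 h1)
  have m2 : PowerSeries.rescale L (PowerSeries.rescale L (Q (j + 2))) ∈
      ratRing K (shn 1 S1 ∪ shn 1 (shn 1 S2)) :=
    ratRing_mono Set.subset_union_right (rescale_mem (shn_pos hS2) (rescale_mem hS2 h2))
  exact (ratRing K _).mul_mem ((ratRing K _).pow_mem (C_mem _ _) 3) ((ratRing K _).sub_mem
    ((ratRing K _).mul_mem ((ratRing K _).add_mem (C_mem _ _) ((ratRing K _).pow_mem (C_mem _ _) 2))
      m1) m2)

/-- **Descent.** -/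
theorem descend {Q : ℕ → PowerSeries (MK K)} (hQ : Rec Q) :
    ∀ (κ : ℕ) (S1 S2 : Set (ℤ × ℤ)), (∀ p ∈ S1, 0 < p.2) → (∀ p ∈ S2, 0 < p.2) →
      Q κ ∈ ratRing K S1 → Q (κ + 1) ∈ ratRing K S2 →
      Q 0 ∈ ratRing K (shn κ S1 ∪ shn (κ + 1) S2) := by
  intro κ
  induction κ with
  | zero =>
    intro S1 S2 _ _ hz1 _
    refine ratRing_mono ?_ hz1
    intro p hp
    refine Or.inl ⟨p, hp, ?_⟩
    simp
  | succ κ ih =>
    intro S1 S2 hS1 hS2 hz1 hz2
    have h3 := step hQ κ hS1 hS2 hz1 hz2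
    have h4 := ih (shn 1 S1 ∪ shn 1 (shn 1 S2)) S1 ?_ hS1 h3 hz1
    · rw [shn_union, shn_shn, shn_shn, shn_shn] at h4
      refine ratRing_mono ?_ h4
      rintro p ((hp | hp) | hp)
      · exact Or.inl hp
      · right
        rw [show κ + (1 + 1) = κ + 1 + 1 by ring] at hp
        exact hp
      · exact Or.inl hp
    · rintro p (hp | hp)
      · exact shn_pos hS1 p hp
      · exact shn_pos (shn_pos hS2) p hp

end

/-! ### The recursion of the local series -/

section

variable {A : Type} [CommRing A]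

/-- the identity of rational functions -/
theorem rat_identity (L X g h : A) (hg : (1 - X) * g = 1) (hh : (1 - L * X) * h = 1) :
    L * (1 - L * X) * g ^ 2 + h * L * (L - (L - 1) ^ 2 * X * g ^ 2) - (L + L ^ 2) * g = 0 := by
  set E := L * (1 - L * X) * g ^ 2 + h * L * (L - (L - 1) ^ 2 * X * g ^ 2) - (L + L ^ 2) * g with hE
  have h1 : E * ((1 - X) ^ 2 * (1 - L * X)) = 0 := by
    rw [hE]
    linear_combination (L * (1 - L * X) ^ 2 * ((1 - X) * g + 1) -
      L * (L - 1) ^ 2 * X * ((1 - X) * g + 1) - (L + L ^ 2) * (1 - X) * (1 - L * X)) * hg +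
      (L ^ 2 * (1 - X) ^ 2 - L * (L - 1) ^ 2 * X * ((1 - X) * g) ^ 2) * hh
  calc E = E * ((1 - X) * g) ^ 2 * ((1 - L * X) * h) := by rw [hg, hh, one_pow, mul_one, mul_one]
    _ = (E * ((1 - X) ^ 2 * (1 - L * X))) * g ^ 2 * h := by ring
    _ = 0 := by rw [h1, zero_mul, zero_mul]

end

variable {K : Type} [Field K] [CharZero K]

theorem rescale_geoS (L Y : MK K) (hLY : L * Y = 1) :
    PowerSeries.rescale L (geoS Y) = geoS (1 : MK K) := by
  ext d
  rw [PowerSeries.coeff_rescale, geoS, geoS, PowerSeries.coeff_mk, PowerSeries.coeff_mk, one_pow,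
    ← mul_pow, hLY, one_pow]

theorem cE_units' : cE (K := K) {c | c ≠ 0} = ((Lu K : (MK K)ˣ) : MK K) - 1 := by
  obtain ⟨M₀, hM₀⟩ := Pool.Agent.W417.MT.K0.main K
  have h1 := Pool.Agent.W417.MT.Free.chi_gm (K := K)
    (Pool.Agent.W63.MTFin.mapMeas M₀ (algebraMap (K0 K) (MK K)))
  have hL : (Pool.Agent.W63.MTFin.mapMeas M₀ (algebraMap (K0 K) (MK K))).L *
      (((Lu K)⁻¹ : (MK K)ˣ) : MK K) = 1 := Pool.Agent.W63.MTFin.L_mul hM₀
  have hLY : ((Lu K : (MK K)ˣ) : MK K) * (((Lu K)⁻¹ : (MK K)ˣ) : MK K) = 1 := Units.mul_inv _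
  have h2 : (Pool.Agent.W63.MTFin.mapMeas M₀ (algebraMap (K0 K) (MK K))).L =
      ((Lu K : (MK K)ˣ) : MK K) := by
    calc _ = (Pool.Agent.W63.MTFin.mapMeas M₀ (algebraMap (K0 K) (MK K))).L *
        (((Lu K : (MK K)ˣ) : MK K) * (((Lu K)⁻¹ : (MK K)ˣ) : MK K)) := by rw [hLY, mul_one]
      _ = ((Pool.Agent.W63.MTFin.mapMeas M₀ (algebraMap (K0 K) (MK K))).L *
        (((Lu K)⁻¹ : (MK K)ˣ) : MK K)) * ((Lu K : (MK K)ˣ) : MK K) := by ring
      _ = _ := by rw [hL, one_mul]
  rw [h2] at h1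
  rw [cE, ← hM₀]
  exact h1

theorem coeff_itr {n : ℕ} (f : MvPolynomial (Fin n) K) (h0 : coeff 0 f = 0) :
    ∀ j, coeff 0 (itr f j) = 0
  | 0 => h0
  | j + 1 => by
    have h1 := coeff_itr f h0 j
    show coeff 0 (addyz (itr f j)) = 0
    rw [← constantCoeff_eq] at h1 ⊢
    unfold addyz
    rw [map_add, map_mul, constantCoeff_X, constantCoeff_X, mul_zero, add_zero,
      constantCoeff_rename, h1]

/-- **The recursion.** -/
theorem rec_zetaE {n : ℕ} (f : MvPolynomial (Fin n) K) (h0 : coeff 0 f = 0)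
    {E : Set (AlgebraicClosure K)} (hE : CE E) :
    Rec fun j => fst' K * zetaE (itr f j) {0} E 1 := by
  intro j
  have hj0 := coeff_itr f h0 j
  have hj1 := coeff_itr f h0 (j + 1)
  have e1 := zetaE_pair (itr f j) hj0 hE 1
  have e2 := zetaE_pair (itr f (j + 1)) hj1 hE 1
  have e3 := zetaE_pair (itr f j) hj0 (ce_good good_units) 1
  rw [cE_units'] at e3
  set L : MK K := ((Lu K : (MK K)ˣ) : MK K) with hL
  set Y : MK K := (((Lu K)⁻¹ : (MK K)ˣ) : MK K) with hY
  have hLY : L * Y = 1 := by rw [hL, hY, Units.mul_inv]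
  have hRR : ∀ Z : PowerSeries (MK K), PowerSeries.rescale L (PowerSeries.rescale Y Z) = Z := by
    intro Z
    rw [PowerSeries.rescale_rescale, mul_comm, hLY, PowerSeries.rescale_one, RingHom.id_apply]
  have hly : PowerSeries.C L * PowerSeries.C Y = (1 : PowerSeries (MK K)) := by
    rw [← map_mul, hLY, map_one]
  have hg0 := geoS_mul (1 : MK K)
  set g : PowerSeries (MK K) := geoS 1 with hg
  have hg1 : (1 - PowerSeries.X) * g = 1 := by
    rw [map_one, one_mul] at hg0
    exact hg0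
  have hh1 := congrArg (PowerSeries.rescale L) hg1
  rw [map_mul, map_sub, map_one, rescale_X'] at hh1
  set h : PowerSeries (MK K) := PowerSeries.rescale L g with hh
  have i1 : itr f (j + 1) = addyz (itr f j) := rfl
  have i2 : itr f (j + 2) = addyz (itr f (j + 1)) := rfl
  rw [← i1] at e1 e3
  rw [← i2] at e2
  set Z0 := zetaE (itr f j) {0} E 1 with hZ0
  set Z1 := zetaE (itr f (j + 1)) {0} E 1 with hZ1
  set Z2 := zetaE (itr f (j + 2)) {0} E 1 with hZ2
  set U0 := zetaE (itr f j) {0} {c | c ≠ 0} 1 with hU0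
  set U1 := zetaE (itr f (j + 1)) {0} {c | c ≠ 0} 1 with hU1
  have hxy : PowerSeries.C Y * (PowerSeries.C L * PowerSeries.X) =
      (PowerSeries.X : PowerSeries (MK K)) := by
    rw [← mul_assoc, mul_comm (PowerSeries.C Y), hly, one_mul]
  have resc : ∀ (Z Z' U : PowerSeries (MK K)) (c : MK K),
      Z' = PowerSeries.C L * PowerSeries.rescale Y Z + PowerSeries.C c * (geoS Y * geoS Y *
        (PowerSeries.C Y * PowerSeries.X * (PowerSeries.C Y * PowerSeries.X -
          PowerSeries.rescale Y U))) →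
      PowerSeries.rescale L Z' = PowerSeries.C L * Z + PowerSeries.C c * (g * g *
        (PowerSeries.X * (PowerSeries.X - U))) := by
    intro Z Z' U c hZ
    rw [hZ]
    simp only [map_add, map_mul, map_sub, rescale_C', rescale_X', rescale_geoS L Y hLY, hRR, hxy]
    rfl
  have f1 := resc _ _ _ _ e1
  have f2 := resc _ _ _ _ e2
  have f3 := resc _ _ _ _ e3
  have hrat := rat_identity (PowerSeries.C L) PowerSeries.X g h hg1 hh1
  have f4 : PowerSeries.rescale L (PowerSeries.rescale L Z2) = PowerSeries.C L *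
      (PowerSeries.C L * Z0 + PowerSeries.C ((L - 1) * cE E) * (g * g *
        (PowerSeries.X * (PowerSeries.X - U0)))) + PowerSeries.C ((L - 1) * cE E) * (h * h *
        (PowerSeries.C L * PowerSeries.X * (PowerSeries.C L * PowerSeries.X -
          (PowerSeries.C L * U0 + PowerSeries.C ((L - 1) * (L - 1)) * (g * g *
        (PowerSeries.X * (PowerSeries.X - U0))))))) := by
    generalize PowerSeries.C ((L - 1) * (L - 1)) = d2 at f3 ⊢
    have e5 : PowerSeries.rescale L (PowerSeries.C ((L - 1) * cE E)) =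
        PowerSeries.C ((L - 1) * cE E) := rescale_C' _ _
    generalize PowerSeries.C ((L - 1) * cE E) = d1 at f1 f2 e5 ⊢
    simp only [f2, map_add, map_mul, map_sub, rescale_C', rescale_X', f1, f3, e5]
    rfl
  have hfst1 : PowerSeries.rescale L (fst' K) = 1 - PowerSeries.X := by
    unfold fst'
    rw [map_sub, map_one, map_mul, rescale_C', rescale_X', ← hY, hxy]
  show PowerSeries.rescale L (PowerSeries.rescale L (fst' K * Z2)) =
    (PowerSeries.C L + PowerSeries.C L ^ 2) * PowerSeries.rescale L (fst' K * Z1) -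
      PowerSeries.C L ^ 3 * (fst' K * Z0)
  rw [map_mul, map_mul, map_mul, hfst1, map_sub, map_one, rescale_X', f4, f1]
  unfold fst'
  rw [← hY]
  generalize PowerSeries.C ((L - 1) * cE E) = e
  rw [map_mul (PowerSeries.C) (L - 1) (L - 1), map_sub, map_one]
  generalize PowerSeries.C L = l at *
  generalize PowerSeries.C Y = y at *
  generalize (PowerSeries.X : PowerSeries (MK K)) = x at *
  linear_combination (e * x * (x - U0)) * hrat +
    (e * x * (x - U0) * l * (l - (l - 1) ^ 2 * x * g ^ 2) * h) * hh1 -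
    (e * x * (x - U0) * (l + l ^ 2) * g) * hg1 - (l ^ 2 * x * Z0) * hly

end Pool.Agent.Q223.TW.LK
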