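import Pool.Agent.Q223.TW.Pair
import Pool.Agent.Q223.ID.Series
import Pool.Agent.TH192.MU.Tw
import Pool.Agent.Y229.MS.Stm

/-!
# The classes of the covers of the sets of jets of `f + y z`
-/

set_option autoImplicit false
set_option linter.unusedSectionVars false

namespace Pool.Agent.Q223.TW

open MvPolynomial Pool.Agent.W428.MOT Pool.Agent.TH192.MT Pool.Agent.TH192.MU
open Pool.Agent.Q223.ID
open Pool.Agent.Y229.MS (addyz)

/-- the parameters with `w ≠ 0` -/
def Sw (n N : ℕ) : Set (Pt ℂ (Unit ⊕ Fin n × Fin (N + 1))) := {z | z (Sum.inl ()) ≠ 0}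

/-- the coefficients of `f(φ) - w ^ k t ^ N` -/
noncomputable def cw {n : ℕ} (f : MvPolynomial (Fin n) ℂ) (k N j : ℕ)
    (z : Pt ℂ (Unit ⊕ Fin n × Fin (N + 1))) : AlgebraicClosure ℂ :=
  PowerSeries.coeff j (aeval (ar fun i => z (Sum.inr i)) f) -
    if j = N then z (Sum.inl ()) ^ k else 0

theorem constr_Sw (n N : ℕ) : Constr (Sw n N) := (Constr.eqz (IsPF.coord _)).compl

theorem isPF_cw {n : ℕ} (f : MvPolynomial (Fin n) ℂ) (k N j : ℕ) : IsPF (cw f k N j) := by
  refine IsPF.sub ?_ ?_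
  · exact (pf_ar f j).comp (fun z : Pt ℂ (Unit ⊕ Fin n × Fin (N + 1)) =>
      fun i => z (Sum.inr i)) fun i => IsPF.coord _
  · split_ifs
    · exact (IsPF.coord _).pow k
    · exact IsPF.zero

theorem constr_JetC {σ : Type} (f : MvPolynomial σ ℂ) (k d : ℕ) : Constr (JetC f k d) := by
  have h1 : ∀ j, IsPF fun z : Pt ℂ (Unit ⊕ σ × Fin (d + 1)) =>
      PowerSeries.coeff j (aeval (ar fun i => z (Sum.inr i)) f) := fun j =>
    (isPF_coeff f j).comp (fun z : Pt ℂ (Unit ⊕ σ × Fin (d + 1)) => fun i => z (Sum.inr i))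
      fun i => IsPF.coord _
  unfold JetC JetS
  exact Constr.and (Constr.not (Constr.eqz (IsPF.coord _)))
    (Constr.and (Constr.const _) (Constr.and (Constr.allLt _ fun j _ => Constr.eqz (h1 j))
    (Constr.eq (h1 d) ((IsPF.coord _).pow k))))

theorem Vc_top {n : ℕ} (f : MvPolynomial (Fin n) ℂ) (k N : ℕ) :
    Vc (Sw n N) (cw f k N) (N + 1) = JetC f k N := by
  ext z
  constructor
  · rintro ⟨h1, h2⟩
    refine ⟨h1, trivial, fun j hj => ?_, ?_⟩
    · have := h2 j (by omega)
      rwa [cw, if_neg (by omega), sub_zero] at this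
    · have := h2 N (by omega)
      rw [cw, if_pos rfl, sub_eq_zero] at this
      exact this
  · rintro ⟨h1, -, h2, h3⟩
    refine ⟨h1, fun j hj => ?_⟩
    by_cases h : j = N
    · subst h
      rw [cw, if_pos rfl, sub_eq_zero]
      exact h3
    · rw [cw, if_neg h, sub_zero]
      exact h2 j (by omega)

variable {R : Type} [CommRing R] (M : Meas ℂ R)

theorem chi_Vc {n : ℕ} (f : MvPolynomial (Fin n) ℂ) (k N i : ℕ) (hi : i ≤ N) :
    M.χ _ (Vc (Sw n N) (cw f k N) i) = (M.L - 1) * M.χ _ (TF (fun _ : Unit => f) i N) := by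
  have h1 : Constr {z : Pt ℂ (Fin 1) | z 0 ≠ 0} := (Constr.eqz (IsPF.coord 0)).compl
  have h2 : Constr (TF (fun _ : Unit => f) i N) := constr_TF _ i N
  rw [← Pool.Agent.W417.MT.Free.chi_gm, ← M.prod _ _ h1 h2]
  refine M.iso _ _ (constr_Vc (constr_Sw n N) (isPF_cw f k N) i)
    (Constr.and (h1.preimage (fun z : Pt ℂ (Fin 1 ⊕ Fin n × Fin (N + 1)) => fun i => z (Sum.inl i))
      fun i => IsPF.coord _) (h2.preimage
      (fun z : Pt ℂ (Fin 1 ⊕ Fin n × Fin (N + 1)) => fun i => z (Sum.inr i)) fun i => IsPF.coord _))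
    (fun z => Sum.elim (fun _ => z (Sum.inl ())) fun p => z (Sum.inr p))
    (fun w => Sum.elim (fun _ => w (Sum.inl 0)) fun p => w (Sum.inr p))
    (regularOn_poly (fun i => ?_) _) (regularOn_poly (fun i => ?_) _) ?_ ?_ ?_ ?_
  · rcases i with i | i
    · exact IsPF.coord _
    · exact IsPF.coord _
  · rcases i with i | i
    · exact IsPF.coord _
    · exact IsPF.coord _
  · rintro z ⟨h3, h4⟩
    refine ⟨h3, fun _ j hj => ?_⟩
    have := h4 j hj
    rw [cw, if_neg (by omega), sub_zero] at this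
    exact this
  · rintro w ⟨h3, h4⟩
    refine ⟨h3, fun j hj => ?_⟩
    rw [cw, if_neg (by omega), sub_zero]
    exact h4 () j hj
  · rintro z -
    funext i
    rcases i with i | i
    · rfl
    · rfl
  · rintro w -
    funext i
    rcases i with i | i
    · rw [Subsingleton.elim i 0]
      rfl
    · rfl

theorem aeval_yz {n N : ℕ} (f : MvPolynomial (Fin n) ℂ) (z : Pt ℂ (Fin (n + 2) × Fin (N + 1))) :
    aeval (ar z) (addyz f) = aeval (ar fun p : Fin n × Fin (N + 1) =>
      z (Fin.castAdd 2 p.1, p.2)) f +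
      ser (fun a => z (Fin.natAdd n 0, a)) * ser (fun a => z (Fin.natAdd n 1, a)) := by
  rw [addyz, map_add, map_mul, aeval_X, aeval_X, aeval_rename]
  rfl

theorem mem_JetC_pair {n N : ℕ} (f : MvPolynomial (Fin n) ℂ) (k : ℕ)
    (z : Pt ℂ (Unit ⊕ Fin (n + 2) × Fin (N + 1))) (w : Pt ℂ ((Unit ⊕ Fin n × Fin (N + 1)) ⊕
      (Fin (N + 1) ⊕ Fin (N + 1))))
    (h0 : w (Sum.inl (Sum.inl ())) = z (Sum.inl ()))
    (hx : ∀ p : Fin n × Fin (N + 1), w (Sum.inl (Sum.inr p)) = z (Sum.inr (Fin.castAdd 2 p.1, p.2)))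
    (hy : ∀ a, w (Sum.inr (Sum.inl a)) = z (Sum.inr (Fin.natAdd n 0, a)))
    (hz : ∀ a, w (Sum.inr (Sum.inr a)) = z (Sum.inr (Fin.natAdd n 1, a))) :
    z ∈ JetC (addyz f) k N ↔ w ∈ PS (Sw n N) (cw f k N) (N + 1) := by
  have e1 : (fun p : Fin n × Fin (N + 1) => w (Sum.inl (Sum.inr p))) =
      fun p => z (Sum.inr (Fin.castAdd 2 p.1, p.2)) := funext hx
  have e2 : (fun a => w (Sum.inr (Sum.inl a))) = fun a => z (Sum.inr (Fin.natAdd n 0, a)) :=
    funext hy
  have e3 : (fun a => w (Sum.inr (Sum.inr a))) = fun a => z (Sum.inr (Fin.natAdd n 1, a)) :=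
    funext hz
  have key : ∀ j, PowerSeries.coeff j (aeval (ar fun i => z (Sum.inr i)) (addyz f)) =
      PowerSeries.coeff j (aeval (ar fun i => w (Sum.inl (Sum.inr i))) f) +
      PowerSeries.coeff j (ser (fun a => w (Sum.inr (Sum.inl a))) *
        ser (fun a => w (Sum.inr (Sum.inr a)))) := by
    intro j
    rw [aeval_yz, map_add, e1, e2, e3]
  constructor
  · rintro ⟨h1, -, h2, h3⟩
    refine ⟨by show w (Sum.inl (Sum.inl ())) ≠ 0; rw [h0]; exact h1, fun j hj => ?_⟩
    by_cases h : j = N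
    · subst h
      rw [cw, if_pos rfl]
      have h4 : PowerSeries.coeff j (aeval (ar fun i => z (Sum.inr i)) (addyz f)) =
        z (Sum.inl ()) ^ k := h3
      rw [key] at h4
      rw [h0]
      linear_combination h4
    · rw [cw, if_neg h, sub_zero]
      have h4 := h2 j (by omega)
      rw [key] at h4
      exact h4
  · rintro ⟨h1, h2⟩
    refine ⟨by rw [← h0]; exact h1, trivial, fun j hj => ?_, ?_⟩
    · have h4 := h2 j (by omega)
      rw [cw, if_neg (by omega), sub_zero] at h4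
      rw [key]
      exact h4
    · have h4 := h2 N (by omega)
      rw [cw, if_pos rfl] at h4
      show PowerSeries.coeff N (aeval (ar fun i => z (Sum.inr i)) (addyz f)) = z (Sum.inl ()) ^ k
      rw [key, ← h0]
      linear_combination h4

/-- **The class of the cover for `f + y z`.** -/
theorem chi_JetC_pair {n : ℕ} (f : MvPolynomial (Fin n) ℂ) (k N : ℕ) :
    M.χ _ (JetC (addyz f) k N) = M.χ _ (JetC f k N) * M.L ^ (N + 1) +
      ∑ i ∈ Finset.range (N + 1), (M.L - 1) * M.L ^ N *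
        ((M.L - 1) * M.χ _ (TF (fun _ : Unit => f) i N)) := by
  have h1 := chi_PS M (N + 1) (constr_Sw n N) (isPF_cw f k N)
  rw [Vc_top, Nat.add_sub_cancel] at h1
  rw [Finset.sum_congr rfl fun i hi => by
    rw [chi_Vc M f k N i (by have := Finset.mem_range.1 hi; omega)]] at h1
  rw [← h1]
  refine M.iso _ _ (constr_JetC _ k N) (constr_PS (constr_Sw n N) (isPF_cw f k N) (N + 1))
    (fun z => Sum.elim (Sum.elim (fun _ => z (Sum.inl ()))
      (fun p => z (Sum.inr (Fin.castAdd 2 p.1, p.2))))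
      (Sum.elim (fun a => z (Sum.inr (Fin.natAdd n 0, a)))
        fun a => z (Sum.inr (Fin.natAdd n 1, a))))
    (fun w => Sum.elim (fun _ => w (Sum.inl (Sum.inl ()))) fun p =>
      Fin.addCases (fun a => w (Sum.inl (Sum.inr (a, p.2))))
        (fun b => Fin.cases (w (Sum.inr (Sum.inl p.2))) (fun _ => w (Sum.inr (Sum.inr p.2))) b) p.1)
    (regularOn_poly (fun i => ?_) _) (regularOn_poly (fun i => ?_) _) ?_ ?_ ?_ ?_
  · rcases i with (i | i) | i | i
    · exact IsPF.coord _
    · exact IsPF.coord _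
    · exact IsPF.coord _
    · exact IsPF.coord _
  · rcases i with i | ⟨i, a⟩
    · exact IsPF.coord _
    · refine Fin.addCases (fun i => ?_) (fun b => ?_) i
      · simp only [Sum.elim_inr, Fin.addCases_left]
        exact IsPF.coord _
      · simp only [Sum.elim_inr, Fin.addCases_right]
        refine Fin.cases ?_ (fun b => ?_) b
        · exact IsPF.coord _
        · exact IsPF.coord _
  · intro z hz
    exact (mem_JetC_pair f k z _ rfl (fun _ => rfl) (fun _ => rfl) fun _ => rfl).1 hz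
  · intro w hw
    refine (mem_JetC_pair f k _ w rfl (fun p => ?_) (fun a => ?_) fun a => ?_).2 hw
    · simp only [Sum.elim_inr, Fin.addCases_left]
    · simp only [Sum.elim_inr, Fin.addCases_right]
      rfl
    · simp only [Sum.elim_inr, Fin.addCases_right]
      rfl
  · intro z _
    funext i
    rcases i with i | ⟨i, a⟩
    · rfl
    · refine Fin.addCases (fun i => ?_) (fun b => ?_) i
      · simp only [Sum.elim_inr, Fin.addCases_left, Sum.elim_inl]
      · simp only [Sum.elim_inr, Fin.addCases_right, Sum.elim_inl]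
        fin_cases b
        · rfl
        · rfl
  · intro w _
    funext i
    rcases i with (i | i) | i | i
    · rfl
    · simp only [Sum.elim_inl, Sum.elim_inr, Fin.addCases_left]
    · simp only [Sum.elim_inl, Sum.elim_inr, Fin.addCases_right]
      rfl
    · simp only [Sum.elim_inr, Fin.addCases_right]
      rfl

end Pool.Agent.Q223.TW
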