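import Pool.Agent.Q223.MM.Red
import Pool.Agent.Y229.PS.Main

/-!
# Local functional equations and local programs
-/

set_option autoImplicit false
set_option linter.unusedSectionVars false

namespace Pool.Agent.Q223.TW

open MvPolynomial Pool.Agent.Q223.MM
open Pool.Agent.H628R4.TP
open Pool.Agent.Y229.MS (addyz itr stabK)
open Pool.Agent.Y229.PS (becomes_local formal_of_local IsFormalBFunction Becomes stabP)
open Pool.Agent.Y229.GL (IsCoord)

/-- the homomorphism fixes the origin -/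
def Org {σ τ : Type} (φ : MvPolynomial σ ℂ →ₐ[ℂ] MvPolynomial τ ℂ) : Prop :=
  ∀ i, constantCoeff (φ (X i)) = 0

/-- the isomorphism fixes the origin -/
def OrgE {σ τ : Type} (ψ : MvPolynomial σ ℂ ≃ₐ[ℂ] MvPolynomial τ ℂ) : Prop :=
  (∀ i, constantCoeff (ψ (X i)) = 0) ∧ ∀ i, constantCoeff (ψ.symm (X i)) = 0

theorem org_cc {σ τ : Type} {φ : MvPolynomial σ ℂ →ₐ[ℂ] MvPolynomial τ ℂ} (h : Org φ)
    (g : MvPolynomial σ ℂ) : constantCoeff (φ g) = constantCoeff g := by
  have h1 : (constantCoeff : MvPolynomial τ ℂ →+* ℂ).comp (φ : MvPolynomial σ ℂ →+* _) =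
      constantCoeff := by
    apply MvPolynomial.ringHom_ext
    · intro r
      rw [RingHom.comp_apply, constantCoeff_C]
      have h2 : (φ : MvPolynomial σ ℂ →+* MvPolynomial τ ℂ) (C r) = C r := φ.commutes r
      rw [h2, constantCoeff_C]
    · intro i
      rw [RingHom.comp_apply, constantCoeff_X]
      exact h i
  exact DFunLike.congr_fun h1 g

/-- the chain rule -/
theorem chain {σ τ : Type} [Fintype σ] [DecidableEq σ] (φ : MvPolynomial σ ℂ →ₐ[ℂ] MvPolynomial τ ℂ)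
    (j : τ) (g : MvPolynomial σ ℂ) :
    pderiv j (φ g) = ∑ i, φ (pderiv i g) * pderiv j (φ (X i)) := by
  induction g using MvPolynomial.induction_on with
  | C a =>
    have h1 : φ (C a) = C a := φ.commutes a
    rw [h1, pderiv_C]
    simp
  | add p q hp hq =>
    rw [map_add, map_add, hp, hq, ← Finset.sum_add_distrib]
    refine Finset.sum_congr rfl fun i _ => ?_
    rw [map_add, map_add]
    ring
  | mul_X p k hp =>
    rw [map_mul, Derivation.leibniz, hp, smul_eq_mul, smul_eq_mul]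
    have h1 : ∀ i, φ (pderiv i (p * X k)) * pderiv j (φ (X i)) =
        φ (X k) * (φ (pderiv i p) * pderiv j (φ (X i))) +
        (if i = k then φ p * pderiv j (φ (X i)) else 0) := by
      intro i
      rw [Derivation.leibniz, smul_eq_mul, smul_eq_mul, map_add, map_mul, map_mul]
      by_cases h : i = k
      · subst h
        rw [if_pos rfl, pderiv_X_self, map_one]
        ring
      · rw [if_neg h, pderiv_X_of_ne (fun h' => h h'.symm), map_zero]
        ring
    rw [Finset.sum_congr rfl fun i _ => h1 i, Finset.sum_add_distrib, ← Finset.mul_sum,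
      Finset.sum_ite_eq' Finset.univ k, if_pos (Finset.mem_univ k)]
    ring

theorem coeff_single {n : ℕ} (g : MvPolynomial (Fin n) ℂ) (j : Fin n) :
    coeff (Finsupp.single j 1) g = constantCoeff (pderiv j g) := by
  rw [constantCoeff_eq, coeff_pderiv]
  simp

/-- automorphisms which fix the origin are formal coordinates -/
theorem isCoord_aut {n : ℕ} (ψ : MvPolynomial (Fin n) ℂ ≃ₐ[ℂ] MvPolynomial (Fin n) ℂ)
    (h : Org (ψ : MvPolynomial (Fin n) ℂ →ₐ[ℂ] MvPolynomial (Fin n) ℂ)) :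
    IsCoord fun i => ((ψ (X i) : MvPolynomial (Fin n) ℂ) : MvPowerSeries (Fin n) ℂ) := by
  classical
  unfold IsCoord
  set A : Matrix (Fin n) (Fin n) ℂ := Matrix.of fun i j =>
    MvPowerSeries.coeff (Finsupp.single j 1)
      ((ψ (X i) : MvPolynomial (Fin n) ℂ) : MvPowerSeries (Fin n) ℂ) with hA
  set B : Matrix (Fin n) (Fin n) ℂ := Matrix.of fun k i =>
    constantCoeff (pderiv i (ψ.symm (X k))) with hB
  have h1 : B * A = 1 := by
    ext k j
    rw [Matrix.mul_apply, Matrix.one_apply]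
    have h2 := congrArg constantCoeff (chain (ψ : MvPolynomial (Fin n) ℂ →ₐ[ℂ]
      MvPolynomial (Fin n) ℂ) j (ψ.symm (X k)))
    have h3 : (ψ : MvPolynomial (Fin n) ℂ →ₐ[ℂ] MvPolynomial (Fin n) ℂ) (ψ.symm (X k)) = X k :=
      ψ.apply_symm_apply (X k)
    rw [h3, map_sum] at h2
    have h4 : ∀ i, B k i * A i j = constantCoeff
        ((ψ : MvPolynomial (Fin n) ℂ →ₐ[ℂ] MvPolynomial (Fin n) ℂ) (pderiv i (ψ.symm (X k))) *
        pderiv j ((ψ : MvPolynomial (Fin n) ℂ →ₐ[ℂ] MvPolynomial (Fin n) ℂ) (X i))) := by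
      intro i
      rw [map_mul, org_cc h, hA, hB, Matrix.of_apply, Matrix.of_apply, MvPolynomial.coeff_coe,
        coeff_single]
      rfl
    rw [Finset.sum_congr rfl fun i _ => h4 i, ← h2, pderiv_X, Pi.single_apply]
    by_cases hk : k = j
    · rw [if_pos hk, if_pos hk, map_one]
    · rw [if_neg hk, if_neg hk, map_zero]
  intro h0
  have h5 := congrArg Matrix.det h1
  rw [Matrix.det_mul, Matrix.det_one] at h5
  rw [h0, mul_zero] at h5
  exact zero_ne_one h5

theorem becomes_aut {n κ : ℕ} (f : MvPolynomial (Fin n) ℂ)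
    (ψ : MvPolynomial (Fin (n + (κ + κ))) ℂ ≃ₐ[ℂ] MvPolynomial (Fin (n + (κ + κ))) ℂ)
    (h : Org (ψ : MvPolynomial (Fin (n + (κ + κ))) ℂ →ₐ[ℂ] MvPolynomial (Fin (n + (κ + κ))) ℂ))
    {F : MvPolynomial (Fin (n + (κ + κ))) ℂ} (hψ : ψ (stabK f κ) = F) :
    Becomes (f : MvPowerSeries (Fin n) ℂ) κ F := by
  have h0 : ∀ i, MvPowerSeries.constantCoeff
      ((ψ (X i) : MvPolynomial (Fin (n + (κ + κ))) ℂ) : MvPowerSeries (Fin (n + (κ + κ))) ℂ) = 0 := by
    intro i
    rw [← MvPowerSeries.coeff_zero_eq_constantCoeff_apply, MvPolynomial.coeff_coe,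
      ← constantCoeff_eq]
    exact h i
  refine ⟨fun i => ((ψ (X i) : MvPolynomial (Fin (n + (κ + κ))) ℂ) :
    MvPowerSeries (Fin (n + (κ + κ))) ℂ), 1, isCoord_aut ψ h, h0, isUnit_one, ?_⟩
  have h1 : stabP (f : MvPowerSeries (Fin n) ℂ) κ =
      ((stabK f κ : MvPolynomial (Fin (n + (κ + κ))) ℂ) : MvPowerSeries _ ℂ) := by
    unfold stabP stabK
    rw [MvPolynomial.coe_add, MvPowerSeries.rename_coe]
    congr 1
    have h2 := map_sum (MvPolynomial.coeToMvPowerSeries.ringHom (R := ℂ)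
      (σ := Fin (n + (κ + κ)))) (fun i : Fin κ => (X (Fin.natAdd n (Fin.castAdd κ i)) *
        X (Fin.natAdd n (Fin.natAdd κ i)) : MvPolynomial (Fin (n + (κ + κ))) ℂ)) Finset.univ
    rw [MvPolynomial.coeToMvPowerSeries.ringHom_apply] at h2
    rw [h2]
    refine Finset.sum_congr rfl fun i _ => ?_
    rw [MvPolynomial.coeToMvPowerSeries.ringHom_apply, MvPolynomial.coe_mul, MvPolynomial.coe_X,
      MvPolynomial.coe_X]
  rw [h1, MvPowerSeries.subst_coe, one_mul, ← hψ]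
  have h3 : ((aeval fun i => ((ψ (X i) : MvPolynomial (Fin (n + (κ + κ))) ℂ) :
      MvPowerSeries (Fin (n + (κ + κ))) ℂ) : MvPolynomial (Fin (n + (κ + κ))) ℂ →ₐ[ℂ]
      MvPowerSeries (Fin (n + (κ + κ))) ℂ) : MvPolynomial (Fin (n + (κ + κ))) ℂ →+* _) =
      (MvPolynomial.coeToMvPowerSeries.ringHom (R := ℂ) (σ := Fin (n + (κ + κ)))).comp
        (ψ : MvPolynomial (Fin (n + (κ + κ))) ℂ →+* MvPolynomial (Fin (n + (κ + κ))) ℂ) := by
    apply MvPolynomial.ringHom_ext
    · intro r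
      have e1 : (ψ : MvPolynomial (Fin (n + (κ + κ))) ℂ →+* MvPolynomial (Fin (n + (κ + κ))) ℂ)
          (C r) = C r := ψ.commutes r
      rw [RingHom.comp_apply, e1, MvPolynomial.coeToMvPowerSeries.ringHom_apply,
        MvPolynomial.coe_C]
      exact (aeval _ : MvPolynomial (Fin (n + (κ + κ))) ℂ →ₐ[ℂ] _).commutes r
    · intro i
      rw [RingHom.comp_apply, MvPolynomial.coeToMvPowerSeries.ringHom_apply]
      exact aeval_X _ _
  exact DFunLike.congr_fun h3 (stabK f κ)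

/-- a local `b`-function of `F` from one of `f` -/
theorem bfun_L {n κ : ℕ} {f : MvPolynomial (Fin n) ℂ} (hf : f ≠ 0) (h0 : coeff 0 f = 0)
    {b : Polynomial ℂ} (hb : IsLocalBFunction f b)
    {F : MvPolynomial (Fin (n + (κ + κ))) ℂ}
    (ψ : MvPolynomial (Fin (n + (κ + κ))) ℂ ≃ₐ[ℂ] MvPolynomial (Fin (n + (κ + κ))) ℂ)
    (h : Org (ψ : MvPolynomial (Fin (n + (κ + κ))) ℂ →ₐ[ℂ] MvPolynomial (Fin (n + (κ + κ))) ℂ))
    (hψ : ψ (stabK f κ) = F) : b.eval (-1) = 0 ∧ ∀ c : Polynomial ℂ, b = (Polynomial.X + 1) * c →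
      IsLocalBFunction F ((Polynomial.X + 1) * c.comp (Polynomial.X + Polynomial.C (κ : ℂ))) := by
  refine becomes_local (f := (f : MvPowerSeries (Fin n) ℂ)) ?_ ?_ (formal_of_local hb)
    (becomes_aut f ψ h hψ)
  · intro h1
    apply hf
    exact MvPolynomial.coe_injective (R := ℂ) (σ := Fin n) (by rw [h1, MvPolynomial.coe_zero])
  · rw [← MvPowerSeries.coeff_zero_eq_constantCoeff_apply, MvPolynomial.coeff_coe]
    exact h0

/-! ### The automorphism -/

theorem org_aut {n κ : ℕ} {o : Fin κ → Option (Fin κ)} (ho : Forest o) {v : Fin κ → Fin n}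
    {d : Fin κ → MvPolynomial (Fin n) ℂ} (hd : ∀ m, constantCoeff (d m) = 0) :
    OrgE (aut o v d ho) := by
  have hr : ∀ g : MvPolynomial (Fin n) ℂ,
      constantCoeff (rename (Fin.castAdd (κ + κ)) g) = constantCoeff g := fun g =>
    constantCoeff_rename _ g
  have hw : ∀ m, constantCoeff (wv ℂ o v m) = 0 := by
    intro m
    unfold wv xv
    rw [map_mul, constantCoeff_X, mul_zero]
  constructor
  · refine all_vars (fun i => ?_) (fun m => ?_) (fun m => ?_)
    · change constantCoeff (fwd o v d (xv ℂ κ i)) = 0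
      rw [fwd_x]
      exact constantCoeff_X _ _
    · change constantCoeff (fwd o v d (yv ℂ n m)) = 0
      rw [fwd_y, map_add, hr, hd, add_zero]
      exact constantCoeff_X _ _
    · change constantCoeff (fwd o v d (zv ℂ n m)) = 0
      rw [fwd_z, map_sub, hw, sub_zero]
      exact constantCoeff_X _ _
  · refine all_vars (fun i => ?_) (fun m => ?_) (fun m => ?_)
    · change constantCoeff (bwd o v d (xv ℂ κ i)) = 0
      rw [bwd_x]
      exact constantCoeff_X _ _
    · change constantCoeff (bwd o v d (yv ℂ n m)) = 0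
      rw [bwd_y, map_sub, hr, hd, sub_zero]
      exact constantCoeff_X _ _
    · change constantCoeff (bwd o v d (zv ℂ n m)) = 0
      rw [bwd_z, inv_eq ho v m, map_add, map_mul]
      unfold xv zv
      rw [constantCoeff_X, constantCoeff_X, mul_zero, add_zero]

theorem horner_cc {n κ : ℕ} {o : Fin κ → Option (Fin κ)} {v : Fin κ → Fin n}
    {c : Fin κ → ℂ} {e : Fin κ → MvPolynomial (Fin n) ℂ} {f : MvPolynomial (Fin n) ℂ}
    (h : Horner o v c 0 e f) (m : Fin κ) : constantCoeff (e m - C (c m)) = 0 := by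
  rw [map_sub, constantCoeff_C, h.1 m, map_add, constantCoeff_C, map_sum,
    Finset.sum_eq_zero, add_zero, sub_self]
  intro j _
  split_ifs
  · rw [map_mul, constantCoeff_X, zero_mul]
  · exact map_zero _

/-- The polynomial `∑ c_m z_(o m) x_(v m) + ∑ y_m (z_m - z_(o m) x_(v m))`, where `z_(o m)` is `1` if
`o m = none`; the variables are `x_1, …, x_n`, `y_1, …, y_κ`, `z_1, …, z_κ` in this order. -/
noncomputable def progL {n κ : ℕ} (o : Fin κ → Option (Fin κ)) (v : Fin κ → Fin n)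
    (c : Fin κ → ℂ) : MvPolynomial (Fin (n + (κ + κ))) ℂ :=
  ∑ m, (C (c m) * (((o m).elim 1 fun m' => X (Fin.natAdd n (Fin.natAdd κ m'))) *
      X (Fin.castAdd (κ + κ) (v m))) +
    X (Fin.natAdd n (Fin.castAdd κ m)) * (X (Fin.natAdd n (Fin.natAdd κ m)) -
      ((o m).elim 1 fun m' => X (Fin.natAdd n (Fin.natAdd κ m'))) *
        X (Fin.castAdd (κ + κ) (v m))))

theorem progD_eq {n κ : ℕ} (o : Fin κ → Option (Fin κ)) (v : Fin κ → Fin n)
    (c : Fin κ → ℂ) : progD o v c c = progL o v c := by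
  unfold progD progL
  refine Finset.sum_congr rfl fun m _ => ?_
  unfold wv yv zv xv
  ring

/-- the minimal exponent of `F` at the origin is larger than `N` -/
def MinExpL {n : ℕ} (N : ℕ) (F : MvPolynomial (Fin n) ℂ) : Prop :=
  ∃ c : Polynomial ℂ, c ≠ 0 ∧ IsLocalBFunction F ((Polynomial.X + 1) * c) ∧
    ∀ r ∈ c.roots, r.re < -(N : ℝ)

/-- the local program of a Horner scheme -/
theorem exists_progL {S : Set ℂ} {n κ : ℕ} {f : MvPolynomial (Fin n) ℂ}
    (h : Rep (coeffs S) κ 0 f) :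
    ∃ (o : Fin κ → Option (Fin κ)) (v : Fin κ → Fin n) (c : Fin κ → ℂ),
      Forest o ∧ (∀ m, c m ∈ coeffs S) ∧
      ∃ ψ : MvPolynomial (Fin (n + (κ + κ))) ℂ ≃ₐ[ℂ] MvPolynomial (Fin (n + (κ + κ))) ℂ,
        OrgE ψ ∧ ψ (stabK f κ) = progL o v c := by
  obtain ⟨o, v, c, e, ho, hc, hH⟩ := h
  have h1 := org_aut (v := v) ho (d := fun m => e m - C (c m)) (horner_cc hH)
  refine ⟨o, v, c, ho, hc, aut o v (fun m => e m - C (c m)) ho, h1, ?_⟩
  rw [← progD_eq]
  exact prog_iso ho hH c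

theorem minExp_L {n κ : ℕ} {f : MvPolynomial (Fin n) ℂ} (hf : f ≠ 0) (h0 : coeff 0 f = 0) (N : ℕ)
    {c : Polynomial ℂ} (hc0 : c ≠ 0) (hb : IsLocalBFunction f ((Polynomial.X + 1) * c))
    (hN : ∀ r ∈ c.roots, r.re < (κ : ℝ) - N)
    {F : MvPolynomial (Fin (n + (κ + κ))) ℂ}
    (ψ : MvPolynomial (Fin (n + (κ + κ))) ℂ ≃ₐ[ℂ] MvPolynomial (Fin (n + (κ + κ))) ℂ)
    (h : Org (ψ : MvPolynomial (Fin (n + (κ + κ))) ℂ →ₐ[ℂ] MvPolynomial (Fin (n + (κ + κ))) ℂ))
    (hψ : ψ (stabK f κ) = F) : MinExpL N F := by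
  have hne : c.comp (Polynomial.X + Polynomial.C (κ : ℂ)) ≠ 0 := by
    intro h0
    apply hc0
    have h1 := congrArg (fun p => p.comp (Polynomial.X - Polynomial.C (κ : ℂ))) h0
    simp only [Polynomial.comp_assoc, Polynomial.zero_comp] at h1
    rw [Polynomial.add_comp, Polynomial.X_comp, Polynomial.C_comp, sub_add_cancel,
      Polynomial.comp_X] at h1
    exact h1
  refine ⟨_, hne, (bfun_L hf h0 hb ψ h hψ).2 c rfl, fun r hr => ?_⟩
  rw [Polynomial.mem_roots hne, Polynomial.IsRoot.def, Polynomial.eval_comp] at hr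
  have h2 := hN _ ((Polynomial.mem_roots hc0).2 hr)
  rw [Polynomial.eval_add, Polynomial.eval_X, Polynomial.eval_C, Complex.add_re,
    Complex.natCast_re] at h2
  linarith

/-- local programs of all large sizes -/
theorem exists_progsL {S : Set ℂ} {n : ℕ} (i0 : Fin n) {f : MvPolynomial (Fin n) ℂ}
    (hf : f ≠ 0) (h0 : coeff 0 f = 0) {κ₀ : ℕ} (hr : Rep (coeffs S) κ₀ 0 f) (N : ℕ)
    {c : Polynomial ℂ} (hc0 : c ≠ 0) (hb : IsLocalBFunction f ((Polynomial.X + 1) * c)) :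
    ∃ κ₁, ∀ κ, κ₁ ≤ κ → ∃ (o : Fin κ → Option (Fin κ)) (v : Fin κ → Fin n) (c : Fin κ → ℂ),
      Forest o ∧ (∀ m, c m ∈ coeffs S) ∧ MinExpL N (progL o v c) ∧
      ∃ ψ : MvPolynomial (Fin (n + (κ + κ))) ℂ ≃ₐ[ℂ] MvPolynomial (Fin (n + (κ + κ))) ℂ,
        OrgE ψ ∧ ψ (stabK f κ) = progL o v c := by
  obtain ⟨M, hM⟩ := re_bound c
  refine ⟨max κ₀ (M + N), fun κ hκ => ?_⟩
  obtain ⟨o, v, c', ho, hc', ψ, hψ1, hψ⟩ :=
    exists_progL (rep_ge i0 hr κ ((le_max_left _ _).trans hκ))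
  refine ⟨o, v, c', ho, hc', minExp_L hf h0 N hc0 hb (fun r hr => ?_) ψ hψ1.1 hψ, ψ, hψ1, hψ⟩
  have h1 : ((M + N : ℕ) : ℝ) ≤ (κ : ℝ) := by exact_mod_cast (le_max_right _ _).trans hκ
  push_cast at h1
  have h2 := hM r hr
  linarith

/-- the case distinction for the existence of local `b`-functions -/
theorem bfun_casesL {n : ℕ} {f : MvPolynomial (Fin n) ℂ} (hf : f ≠ 0) (h0 : coeff 0 f = 0) :
    (∃ c : Polynomial ℂ, c ≠ 0 ∧ IsLocalBFunction f ((Polynomial.X + 1) * c)) ∨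
      ∀ b : Polynomial ℂ, IsLocalBFunction f b → b = 0 := by
  by_cases h : ∃ b : Polynomial ℂ, IsLocalBFunction f b ∧ b ≠ 0
  · obtain ⟨b, hb, hb0⟩ := h
    left
    have hm1 := (bfun_L (κ := 0) hf h0 hb AlgEquiv.refl (fun i => constantCoeff_X _ _) rfl).1
    obtain ⟨c, rfl⟩ : (Polynomial.X + 1 : Polynomial ℂ) ∣ b := by
      have := Polynomial.dvd_iff_isRoot.2 hm1
      simpa using this
    exact ⟨c, right_ne_zero_of_mul hb0, hb⟩
  · right
    push Not at h
    exact h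

theorem bfun_XL {n : ℕ} (i : Fin n) :
    IsLocalBFunction (X i : MvPolynomial (Fin n) ℂ) ((Polynomial.X + 1) * 1) := by
  refine ⟨1, fun _ => 0, fun _ => 1, fun _ => ⟨_, deriv_mem i⟩, fun s => ?_⟩
  rw [Fin.sum_univ_one, pow_zero, map_one, one_mul, one_mul, mul_one, Polynomial.eval_add,
    Polynomial.eval_X, Polynomial.eval_one]
  have h1 : (pderiv i (X i ^ (s + 1)) : MvPolynomial (Fin n) ℂ) = C ((s : ℂ) + 1) * X i ^ s := by
    rw [pderiv_pow, pderiv_X_self, mul_one, add_tsub_cancel_right, map_add, map_one]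
    push_cast
    rfl
  show _ = (((pderiv i (X i ^ (s + 1))) : MvPolynomial (Fin n) ℂ) : MvPowerSeries (Fin n) ℂ)
  rw [h1, MvPolynomial.coe_mul, MvPolynomial.coe_C]

theorem itr_equiv {n : ℕ} (f : MvPolynomial (Fin n) ℂ) (κ : ℕ) :
    ∃ e : Fin (n + 2 * κ) ≃ Fin (n + (κ + κ)), rename e (itr f κ) = stabK f κ := by
  obtain ⟨g, hg, hr⟩ := Pool.Agent.Y405.MS.itr_aux f κ
  let h : Fin n ⊕ (Fin κ ⊕ Fin κ) ≃ Fin (n + (κ + κ)) :=
    (Equiv.sumCongr (Equiv.refl _) finSumFinEquiv).trans finSumFinEquiv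
  have hb : Function.Bijective (h ∘ g) := by
    rw [Fintype.bijective_iff_injective_and_card]
    refine ⟨h.injective.comp hg, ?_⟩
    rw [Fintype.card_fin, Fintype.card_fin]
    omega
  refine ⟨Equiv.ofBijective _ hb, ?_⟩
  show rename (h ∘ g) (itr f κ) = _
  rw [← rename_rename, hr, map_add, rename_rename, map_sum]
  unfold stabK
  congr 1
  refine Finset.sum_congr rfl fun i _ => ?_
  rw [map_mul, rename_X, rename_X]
  rfl

theorem itr_cc {n : ℕ} (f : MvPolynomial (Fin n) ℂ) (h0 : coeff 0 f = 0) :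
    ∀ κ : ℕ, coeff 0 (itr f κ) = 0
  | 0 => h0
  | κ + 1 => by
    show coeff 0 (addyz (itr f κ)) = 0
    rw [← constantCoeff_eq, addyz, map_add, map_mul, constantCoeff_X, zero_mul, add_zero,
      constantCoeff_rename, constantCoeff_eq]
    exact itr_cc f h0 κ

/-! ### Local programs are polynomials of the same kind -/

theorem progL_coeff {S : Set ℂ} (hS : (1 : ℂ) ∈ AddSubgroup.closure S) {n κ : ℕ}
    (o : Fin κ → Option (Fin κ)) (v : Fin κ → Fin n) (c : Fin κ → ℂ)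
    (hc : ∀ m, c m ∈ coeffs S) (d : Fin (n + (κ + κ)) →₀ ℕ) :
    coeff d (progL o v c) ∈ AddSubgroup.closure S := by
  classical
  unfold progL
  rw [coeff_sum]
  refine AddSubgroup.sum_mem _ fun m _ => ?_
  have e1 : ∀ i : Fin (n + (κ + κ)), (X i : MvPolynomial (Fin (n + (κ + κ))) ℂ) =
      monomial (Finsupp.single i 1) 1 := fun i => rfl
  have e2 : ((o m).elim 1 fun m' => X (Fin.natAdd n (Fin.natAdd κ m')) :
      MvPolynomial (Fin (n + (κ + κ))) ℂ) =
      monomial ((o m).elim 0 fun m' => Finsupp.single (Fin.natAdd n (Fin.natAdd κ m')) 1) 1 := by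
    cases o m with
    | none => rfl
    | some m' => rfl
  rw [e2]
  simp only [e1, C_mul_monomial, mul_sub, monomial_mul, mul_one, coeff_add, coeff_sub]
  exact AddSubgroup.add_mem _ (coeff_mono_mem (coeffs_mem (hc m)) _ _)
    (AddSubgroup.sub_mem _ (coeff_mono_mem hS _ _) (coeff_mono_mem hS _ _))

theorem progL_zero {n κ : ℕ} (o : Fin κ → Option (Fin κ)) (v : Fin κ → Fin n) (c : Fin κ → ℂ) :
    coeff 0 (progL o v c) = 0 := by
  rw [← constantCoeff_eq]
  unfold progL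
  rw [map_sum]
  refine Finset.sum_eq_zero fun m _ => ?_
  rw [map_add, map_mul, map_mul, map_mul, constantCoeff_X, constantCoeff_X, mul_zero, mul_zero,
    zero_mul, add_zero]

theorem progL_ne {n κ : ℕ} (o : Fin κ → Option (Fin κ)) (v : Fin κ → Fin n) (c : Fin κ → ℂ)
    (hκ : 0 < κ) : progL o v c ≠ 0 := by
  classical
  intro h0
  set m0 : Fin κ := ⟨0, hκ⟩
  have h2 : eval (assign (fun _ => 0) (fun m => if m = m0 then 1 else 0)
      (fun m => if m = m0 then 1 else 0)) (progL o v c) = 1 := by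
    unfold progL
    rw [map_sum]
    simp only [map_add, map_mul, map_sub, eval_C, eval_X, assign_x, assign_y, assign_z, mul_zero,
      sub_zero, zero_add]
    rw [Finset.sum_eq_single m0]
    · simp
    · intro m _ hm
      simp [hm]
    · intro h
      exact absurd (Finset.mem_univ _) h
  rw [h0, map_zero] at h2
  exact zero_ne_one h2

end Pool.Agent.Q223.TW
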