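import Pool.Agent.Q223.TW.TopL
import Pool.Agent.Q223.TW.LocB

/-!
# The local topological monodromy conjecture: the reduction to programs
-/

set_option autoImplicit false
set_option linter.unusedSectionVars false

namespace Pool.Agent.Q223.TW

open Pool.Agent.W428.MOT Pool.Agent.TH192.MT Pool.Agent.TH192.MU
open Pool.Agent.Q223.ID Pool.Agent.Q223.MM
open Pool.Agent.H628R4.TP
open Pool.Agent.Y229.MS (addyz itr stabK ce_good)
open Pool.Agent.W375.MG (good_units)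

variable {R : Type} [CommRing R] (E : MK ℂ →+* R) (ε : R →+* ℂ)

/-- For every pole `s₀` of the local topological zeta function of `f` at the origin and every local
`b` with `b(s) f ^ s = P(s) f ^ (s + 1)` there is an integer `j` with `b(s₀ + j) = 0`. -/
def WeakL {n : ℕ} (f : MvPolynomial (Fin n) ℂ) : Prop :=
  ∀ Z : RatFunc ℂ, IsTopZeta E ε (zetaO f) Z → ∀ s₀ : ℂ, Z.denom.eval s₀ = 0 →
    ∀ b : Polynomial ℂ, IsLocalBFunction f b → ∃ j : ℤ, b.eval (s₀ + j) = 0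

/-- Every pole `s₀ ≠ 0` of the local topological zeta function of `f` at the origin is a root of every
local `b` with `b(s) f ^ s = P(s) f ^ (s + 1)`. -/
def StrongL {n : ℕ} (f : MvPolynomial (Fin n) ℂ) : Prop :=
  ∀ Z : RatFunc ℂ, IsTopZeta E ε (zetaO f) Z → ∀ s₀ : ℂ, s₀ ≠ 0 → Z.denom.eval s₀ = 0 →
    ∀ b : Polynomial ℂ, IsLocalBFunction f b → b.eval s₀ = 0

variable [IsDomain R]

/-- the iteration -/
theorem local_itr (h1 : ε (E ((Lu ℂ : (MK ℂ)ˣ) : MK ℂ)) = 1)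
    (hu : E ((Lu ℂ : (MK ℂ)ˣ) : MK ℂ) ≠ 1) {n : ℕ} (f : MvPolynomial (Fin n) ℂ)
    (h0 : MvPolynomial.coeff 0 f = 0)
    {Z : RatFunc ℂ} (hZ : IsTopZeta E ε (zetaE f {0} Un 1) Z) (κ : ℕ) :
    ∃ Z', IsTopZeta E ε (zetaE (itr f κ) {0} Un 1) Z' ∧
      ∀ s₀ : ℂ, (∀ j : ℕ, s₀ ≠ j - 1) → Z.denom.eval s₀ = 0 → Z'.denom.eval (s₀ - κ) = 0 := by
  induction κ with
  | zero =>
    refine ⟨Z, hZ, fun s₀ _ h => ?_⟩
    rw [Nat.cast_zero, sub_zero]
    exact h
  | succ κ ih =>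
    obtain ⟨Z', h2, h3⟩ := ih
    refine ⟨_, isTop_pairL E ε h1 hu (itr f κ) (itr_cc f h0 κ) 1 h2 h2, fun s₀ hs h => ?_⟩
    have h6 := pole_step Z' 1 (s₀ - κ) ?_ ?_ (h3 s₀ hs h)
    · push_cast
      rw [← sub_sub]
      exact h6
    · intro h7
      apply hs (κ + 2)
      push_cast
      linear_combination h7
    · intro h7
      apply hs κ
      linear_combination h7

/-- the zeta function of `F` from the one of `itr f κ` -/
theorem zeta_FL {n κ : ℕ} {f : MvPolynomial (Fin n) ℂ} {F : MvPolynomial (Fin (n + (κ + κ))) ℂ}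
    (ψ : MvPolynomial (Fin (n + (κ + κ))) ℂ ≃ₐ[ℂ] MvPolynomial (Fin (n + (κ + κ))) ℂ)
    (hO : OrgE ψ) (hψ : ψ (stabK f κ) = F) :
    zetaE F {0} Un 1 = zetaE (itr f κ) {0} Un 1 := by
  obtain ⟨e, he⟩ := itr_equiv f κ
  have h2 : MvPolynomial.rename e (itr f κ) = (MvPolynomial.renameEquiv ℂ e) (itr f κ) := rfl
  have hc1 : ∀ i, MvPolynomial.constantCoeff (MvPolynomial.renameEquiv ℂ e (MvPolynomial.X i)) =
      0 := by
    intro i
    show MvPolynomial.constantCoeff (MvPolynomial.rename e (MvPolynomial.X i)) = 0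
    rw [MvPolynomial.rename_X, MvPolynomial.constantCoeff_X]
  have hc2 : ∀ i, MvPolynomial.constantCoeff
      ((MvPolynomial.renameEquiv ℂ e).symm (MvPolynomial.X i)) = 0 := by
    intro i
    show MvPolynomial.constantCoeff (MvPolynomial.rename e.symm (MvPolynomial.X i)) = 0
    rw [MvPolynomial.rename_X, MvPolynomial.constantCoeff_X]
  have hcard := Fintype.card_congr e
  have hz : zetaE ((MvPolynomial.renameEquiv ℂ e) (itr f κ)) {0} Un 1 =
      zetaE (itr f κ) {0} Un 1 :=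
    zetaE_iso (MvPolynomial.renameEquiv ℂ e) hc1 hc2 hcard.symm (itr f κ)
      (ce_good good_units) 1
  have hz2 : zetaE (ψ (stabK f κ)) {0} Un 1 = zetaE (stabK f κ) {0} Un 1 :=
    zetaE_iso ψ hO.1 hO.2 rfl (stabK f κ) (ce_good good_units) 1
  rw [← hψ, hz2, ← he, h2, hz]

/-- **The transfer for one polynomial.** -/
theorem transferL (h1 : ε (E ((Lu ℂ : (MK ℂ)ˣ) : MK ℂ)) = 1)
    (hu : E ((Lu ℂ : (MK ℂ)ˣ) : MK ℂ) ≠ 1) {n κ : ℕ} {f : MvPolynomial (Fin n) ℂ}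
    (hf : f ≠ 0) (h0 : MvPolynomial.coeff 0 f = 0) {F : MvPolynomial (Fin (n + (κ + κ))) ℂ}
    (ψ : MvPolynomial (Fin (n + (κ + κ))) ℂ ≃ₐ[ℂ] MvPolynomial (Fin (n + (κ + κ))) ℂ)
    (hO : OrgE ψ) (hψ : ψ (stabK f κ) = F) :
    (WeakL E ε F → WeakL E ε f) ∧ (StrongL E ε F → StrongL E ε f) := by
  have hb : ∀ {b : Polynomial ℂ}, IsLocalBFunction f b → b.eval (-1) = 0 ∧
      ∃ c, b = (Polynomial.X + 1) * c ∧ IsLocalBFunction F ((Polynomial.X + 1) *
        c.comp (Polynomial.X + Polynomial.C (κ : ℂ))) := by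
    intro b hb
    obtain ⟨h2, h3⟩ := bfun_L hf h0 hb ψ hO.1 hψ
    refine ⟨h2, ?_⟩
    obtain ⟨c, hc⟩ : (Polynomial.X + 1 : Polynomial ℂ) ∣ b := by
      have := Polynomial.dvd_iff_isRoot.2 h2
      simpa using this
    exact ⟨c, hc, h3 c hc⟩
  have hZF : ∀ {Z'}, IsTopZeta E ε (zetaE (itr f κ) {0} Un 1) Z' → IsTopZeta E ε (zetaO F) Z' := by
    intro Z' h
    rw [isTop_zetaO E ε h1, zeta_FL ψ hO hψ]
    exact h
  constructor
  · intro hF Z hZ s₀ hs b hb'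
    obtain ⟨hm1, c, rfl, hbF⟩ := hb hb'
    by_cases hint : ∃ j : ℤ, s₀ = j
    · obtain ⟨j, rfl⟩ := hint
      refine ⟨-1 - j, ?_⟩
      push_cast
      rw [add_sub_cancel]
      exact hm1
    · push Not at hint
      obtain ⟨Z', hZ', hp⟩ := local_itr E ε h1 hu f h0 ((isTop_zetaO E ε h1 f).1 hZ) κ
      have h2 := hp s₀ (fun j h => hint (j - 1) (by push_cast; exact h)) hs
      obtain ⟨j, hj⟩ := hF Z' (hZF hZ') _ h2 _ hbF
      refine ⟨j, ?_⟩
      rw [Polynomial.eval_mul, Polynomial.eval_comp, mul_eq_zero, Polynomial.eval_add,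
        Polynomial.eval_X, Polynomial.eval_one, Polynomial.eval_add, Polynomial.eval_X,
        Polynomial.eval_C] at hj
      rcases hj with hj | hj
      · exfalso
        apply hint (κ - j - 1)
        push_cast
        linear_combination hj
      · rw [Polynomial.eval_mul, show s₀ + (j : ℂ) = s₀ - κ + j + κ by ring, hj, mul_zero]
  · intro hF Z hZ s₀ hs0 hs b hb'
    obtain ⟨hm1, c, rfl, hbF⟩ := hb hb'
    by_cases hint : ∃ j : ℕ, s₀ = j - 1
    · obtain ⟨j, rfl⟩ := hint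
      rcases j with _ | j
      · rw [Nat.cast_zero, zero_sub]
        exact hm1
      · exfalso
        push_cast at hs hs0
        rw [add_sub_cancel_right] at hs hs0
        have hj : 0 < j := Nat.pos_of_ne_zero (by rintro rfl; exact hs0 Nat.cast_zero)
        exact denom_ne_of_pos E ε hZ hj hs
    · push Not at hint
      obtain ⟨Z', hZ', hp⟩ := local_itr E ε h1 hu f h0 ((isTop_zetaO E ε h1 f).1 hZ) κ
      have h2 := hp s₀ hint hs
      have hj := hF Z' (hZF hZ') _ (fun h => hint (κ + 1) (by push_cast; linear_combination h))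
        h2 _ hbF
      rw [Polynomial.eval_mul, Polynomial.eval_comp, mul_eq_zero, Polynomial.eval_add,
        Polynomial.eval_X, Polynomial.eval_one, Polynomial.eval_add, Polynomial.eval_X,
        Polynomial.eval_C, sub_add_cancel] at hj
      rcases hj with hj | hj
      · exfalso
        apply hint κ
        linear_combination hj
      · rw [Polynomial.eval_mul, hj, mul_zero]

/-- **The reduction for one polynomial germ.** -/
theorem reduceL (S : Set ℂ) (hS : (1 : ℂ) ∈ AddSubgroup.closure S) (N n : ℕ)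
    (f : MvPolynomial (Fin n) ℂ) (hf : f ≠ 0) (h0 : MvPolynomial.coeff 0 f = 0)
    (hfS : ∀ d, MvPolynomial.coeff d f ∈ AddSubgroup.closure S) :
    ∃ κ₁ : ℕ, ∀ κ, κ₁ ≤ κ → ∃ (o : Fin κ → Option (Fin κ)) (v : Fin κ → Fin n) (c : Fin κ → ℂ),
      Forest o ∧ (∀ m, c m ∈ coeffs S) ∧ MinExpL N (progL o v c) ∧
      ∀ (R : Type) [CommRing R] [IsDomain R] (E : MK ℂ →+* R) (ε : R →+* ℂ),
        ε (E ((Lu ℂ : (MK ℂ)ˣ) : MK ℂ)) = 1 → E ((Lu ℂ : (MK ℂ)ˣ) : MK ℂ) ≠ 1 →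
        (WeakL E ε (progL o v c) → WeakL E ε f) ∧ (StrongL E ε (progL o v c) → StrongL E ε f) := by
  classical
  have hn : 0 < n := by
    rcases Nat.eq_zero_or_pos n with rfl | h
    · exfalso
      apply hf
      rw [MvPolynomial.eq_C_of_isEmpty f, ← MvPolynomial.constantCoeff_eq,
        MvPolynomial.constantCoeff_eq, h0, MvPolynomial.C_0]
    · exact h
  set i0 : Fin n := ⟨0, hn⟩
  rcases bfun_casesL hf h0 with ⟨p, hp0, hp⟩ | hall
  · obtain ⟨κ₀, hr⟩ := rep_all f h0 hfS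
    obtain ⟨κ₁, h1⟩ := exists_progsL i0 hf h0 hr N hp0 hp
    refine ⟨κ₁, fun κ hκ => ?_⟩
    obtain ⟨o, v, c, ho, hc, hm, ψ, hO, hψ⟩ := h1 κ hκ
    exact ⟨o, v, c, ho, hc, hm, fun R _ _ E ε h1 hu => transferL E ε h1 hu hf h0 ψ hO hψ⟩
  · obtain ⟨κ₀, hr⟩ := rep_var hS i0
    obtain ⟨κ₁, h1⟩ := exists_progsL i0 (MvPolynomial.X_ne_zero i0) (by
      rw [← MvPolynomial.constantCoeff_eq, MvPolynomial.constantCoeff_X]) hr N one_ne_zero
      (bfun_XL i0)
    refine ⟨κ₁, fun κ hκ => ?_⟩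
    obtain ⟨o, v, c, ho, hc, hm, -⟩ := h1 κ hκ
    refine ⟨o, v, c, ho, hc, hm, fun R _ _ E ε _ _ => ⟨fun _ Z _ s₀ _ b hb => ⟨0, ?_⟩,
      fun _ Z _ s₀ _ _ b hb => ?_⟩⟩
    · rw [hall b hb, Polynomial.eval_zero]
    · rw [hall b hb, Polynomial.eval_zero]

end Pool.Agent.Q223.TW
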