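import Pool.Agent.Q223.TW.PtRed
import Pool.Agent.Q223.TW.RedL

/-!
# The naive motivic zeta function at the origin: reduction to programs
-/

set_option autoImplicit false
set_option linter.unusedSectionVars false

namespace Pool.Agent.Q223.TW

open Pool.Agent.W428.MOT (ratRing Lu MK geo)
open Pool.Agent.TH192.MT (zetaO)
open Pool.Agent.Q223.MM
open Pool.Agent.H628R4.TP
open Pool.Agent.Y229.MS (addyz itr stabK ce_good fst' shn shn_pos)
open Pool.Agent.W375.MG (IsPole ratRing_mono good_units)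
open Pool.Agent.W63.MTFin (geo_mul geo_mem X_mem C_mem)

/-- If `b ≠ 0` and `b(s) f ^ s = P(s) f ^ (s + 1)` over the formal power series, there is a finite set `S`
of pairs `(a, d)`, `d > 0`, such that the local motivic zeta function of `f` at the origin is in
`𝓜[T, 1 / (1 - 𝕃 ^ a T ^ d)]_{(a, d) ∈ S}`, and for every pair in `S` there is an integer `j` with
`b(a / d + j) = 0`. -/
def WeakML {n : ℕ} (f : MvPolynomial (Fin n) ℂ) : Prop :=
  ∀ b : Polynomial ℂ, b ≠ 0 → IsLocalBFunction f b →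
    ∃ S : Finset (ℤ × ℤ), (∀ p ∈ S, 0 < p.2 ∧ ∃ j : ℤ, b.eval ((p.1 : ℂ) / p.2 + j) = 0) ∧
      zetaO f ∈ ratRing ℂ S

/-- The same with `a < 0`: Q1 of the problem. -/
def SignML {n : ℕ} (f : MvPolynomial (Fin n) ℂ) : Prop :=
  ∀ b : Polynomial ℂ, b ≠ 0 → IsLocalBFunction f b →
    ∃ S : Finset (ℤ × ℤ), (∀ p ∈ S, p.1 < 0 ∧ 0 < p.2 ∧
      ∃ j : ℤ, b.eval ((p.1 : ℂ) / p.2 + j) = 0) ∧ zetaO f ∈ ratRing ℂ S

/-- The theorem of Denef and Loeser for `f`: the local motivic zeta function is in the ring generated by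
`T` and the `1 / (1 - 𝕃 ^ a T ^ d)`, `a < 0 < d`. -/
def RatML {n : ℕ} (f : MvPolynomial (Fin n) ℂ) : Prop :=
  zetaO f ∈ ratRing ℂ {p | p.1 < 0 ∧ 0 < p.2}

theorem root_neg_oneL {n : ℕ} {f : MvPolynomial (Fin n) ℂ} (hf : f ≠ 0)
    (h0 : MvPolynomial.coeff 0 f = 0) {b : Polynomial ℂ} (hb : IsLocalBFunction f b) :
    b.eval (-1) = 0 :=
  (bfun_L (κ := 0) hf h0 hb AlgEquiv.refl (fun i => MvPolynomial.constantCoeff_X _ _) rfl).1

/-- the sign condition -/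
theorem sign_iff {n : ℕ} {f : MvPolynomial (Fin n) ℂ} (hf : f ≠ 0)
    (h0 : MvPolynomial.coeff 0 f = 0) (hr : RatML f) : SignML f ↔ WeakML f := by
  constructor
  · intro h b hb0 hb
    obtain ⟨S, hS, hz⟩ := h b hb0 hb
    exact ⟨S, fun p hp => (hS p hp).2, hz⟩
  · intro h b hb0 hb
    obtain ⟨S, hS, hz⟩ := h b hb0 hb
    obtain ⟨D, hD, h1⟩ := ratRing_inter (S := (S : Set (ℤ × ℤ))) (fun p hp => (hS p hp).1)
      (T := {p : ℤ × ℤ | p.1 < 0 ∧ 0 < p.2}) (fun p hp => hp.2) hz hr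
    obtain ⟨S', hS', hz'⟩ := exists_finset (by
      rintro p (rfl | ⟨hp, -⟩)
      · exact Int.natCast_pos.2 hD
      · exact (hS p hp).1) h1
    refine ⟨S', fun p hp => ?_, hz'⟩
    rcases hS' p hp with rfl | ⟨hp1, q, hq, hpq⟩
    · refine ⟨by have := Int.natCast_pos.2 hD; omega, Int.natCast_pos.2 hD, 0, ?_⟩
      have h7 : (D : ℂ) ≠ 0 := by exact_mod_cast hD.ne'
      have e1 : ((-(D : ℤ) : ℤ) : ℂ) / ((D : ℤ) : ℂ) + ((0 : ℤ) : ℂ) = -1 := by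
        push_cast
        field_simp
        ring
      rw [e1]
      exact root_neg_oneL hf h0 hb
    · refine ⟨?_, hS p hp1⟩
      have h2 := (hS p hp1).1
      have h3 : p.1 * q.2 < 0 := by
        rw [hpq]
        exact mul_neg_of_neg_of_pos hq.1 h2
      by_contra h4
      push Not at h4
      have h5 : 0 ≤ p.1 * q.2 := mul_nonneg h4 hq.2.le
      omega

/-- the form with poles -/
theorem weak_iff_poles {n : ℕ} {f : MvPolynomial (Fin n) ℂ} (hf : f ≠ 0)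
    (h0 : MvPolynomial.coeff 0 f = 0) (hr : RatML f) :
    SignML f ↔ ∀ s : ℚ, IsPole (zetaO f) s → ∀ b : Polynomial ℂ, b ≠ 0 → IsLocalBFunction f b →
      ∃ j : ℤ, b.eval ((s : ℂ) + j) = 0 := by
  constructor
  · intro h s hs b hb0 hb
    obtain ⟨S, hS, hz⟩ := h b hb0 hb
    by_contra hne
    apply hs
    refine ratRing_mono ?_ hz
    intro p hp
    refine ⟨(hS p hp).2.1, fun h1 => hne ?_⟩
    obtain ⟨j, hj⟩ := (hS p hp).2.2
    refine ⟨j, ?_⟩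
    rw [← h1]
    push_cast
    exact hj
  · intro h
    rw [sign_iff hf h0 hr]
    intro b hb0 hb
    obtain ⟨S', hS', hz'⟩ := ring_of_poles (fun s => ∃ j : ℤ, b.eval ((s : ℂ) + j) = 0)
      (S := {p : ℤ × ℤ | p.1 < 0 ∧ 0 < p.2}) (fun p hp => hp.2) hr
      (fun s hs => h s hs b hb0 hb)
    refine ⟨S', fun p hp => ⟨(hS' p hp).1, ?_⟩, hz'⟩
    rcases (hS' p hp).2 with ⟨j, hj⟩ | h1
    · refine ⟨j, ?_⟩
      push_cast at hj
      exact hj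
    · refine ⟨0, ?_⟩
      have h2 : (p.2 : ℂ) ≠ 0 := by exact_mod_cast (hS' p hp).1.ne'
      have h3 : (p.1 : ℂ) / p.2 + ((0 : ℤ) : ℂ) = -1 := by
        rw [h1]
        push_cast
        field_simp
        ring
      rw [h3]
      exact root_neg_oneL hf h0 hb

theorem zetaO_eqK {n : ℕ} (f : MvPolynomial (Fin n) ℂ) : zetaO f =
    PowerSeries.C (((Lu ℂ) ^ (-(n : ℤ)) : (MK ℂ)ˣ) : MK ℂ) * LK.zetaE f {0} {c | c ≠ 0} 1 :=
  zetaO_eq f

theorem zeta_FK {n κ : ℕ} {f : MvPolynomial (Fin n) ℂ} {F : MvPolynomial (Fin (n + (κ + κ))) ℂ}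
    (ψ : MvPolynomial (Fin (n + (κ + κ))) ℂ ≃ₐ[ℂ] MvPolynomial (Fin (n + (κ + κ))) ℂ)
    (hO : OrgE ψ) (hψ : ψ (stabK f κ) = F) :
    LK.zetaE F {0} {c | c ≠ 0} 1 = LK.zetaE (itr f κ) {0} {c | c ≠ 0} 1 :=
  zeta_FL ψ hO hψ

/-- membership without the power of `𝕃` -/
theorem zetaO_mem {n : ℕ} (f : MvPolynomial (Fin n) ℂ) (S : Set (ℤ × ℤ)) :
    zetaO f ∈ ratRing ℂ S ↔ LK.zetaE f {0} {c | c ≠ 0} 1 ∈ ratRing ℂ S := by
  rw [zetaO_eqK]
  constructor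
  · intro h
    have h2 : LK.zetaE f {0} {c | c ≠ 0} 1 = PowerSeries.C (((Lu ℂ) ^ (n : ℤ) : (MK ℂ)ˣ) : MK ℂ) *
        (PowerSeries.C (((Lu ℂ) ^ (-(n : ℤ)) : (MK ℂ)ˣ) : MK ℂ) *
          LK.zetaE f {0} {c | c ≠ 0} 1) := by
      rw [← mul_assoc, ← map_mul, ← Units.val_mul, ← zpow_add, add_neg_cancel, zpow_zero,
        Units.val_one, map_one, one_mul]
    rw [h2]
    exact (ratRing ℂ S).mul_mem (C_mem _ _) h
  · intro h
    exact (ratRing ℂ S).mul_mem (C_mem _ _) h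

/-- the slopes after the descent -/
theorem slope_shiftL {κ : ℕ} {c : Polynomial ℂ} (hm : ((Polynomial.X + 1) * c).eval (-1) = 0)
    {p : ℤ × ℤ} (hp : 0 < p.2) {j : ℤ}
    (h : ((Polynomial.X + 1) * c.comp (Polynomial.X + Polynomial.C (κ : ℂ))).eval
      ((p.1 : ℂ) / p.2 + j) = 0) :
    ∃ i : ℤ, ((Polynomial.X + 1) * c).eval (((p.1 + κ * p.2 : ℤ) : ℂ) / (p.2 : ℤ) + i) = 0 :=
  slope_shift hm hp h

/-- **The transfer.** -/
theorem transferO {n κ : ℕ} {f : MvPolynomial (Fin n) ℂ} (hf : f ≠ 0)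
    (h0 : MvPolynomial.coeff 0 f = 0)
    {F : MvPolynomial (Fin (n + (κ + κ))) ℂ}
    {F' : MvPolynomial (Fin (n + (κ + 1 + (κ + 1)))) ℂ}
    (ψ : MvPolynomial (Fin (n + (κ + κ))) ℂ ≃ₐ[ℂ] MvPolynomial (Fin (n + (κ + κ))) ℂ)
    (hO : OrgE ψ) (hψ : ψ (stabK f κ) = F)
    (ψ' : MvPolynomial (Fin (n + (κ + 1 + (κ + 1)))) ℂ ≃ₐ[ℂ]
      MvPolynomial (Fin (n + (κ + 1 + (κ + 1)))) ℂ)
    (hO' : OrgE ψ') (hψ' : ψ' (stabK f (κ + 1)) = F') (h1 : WeakML F) (h2 : WeakML F') :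
    WeakML f := by
  classical
  intro b hb0 hb
  have hm1 := root_neg_oneL hf h0 hb
  obtain ⟨c, rfl⟩ : (Polynomial.X + 1 : Polynomial ℂ) ∣ b := by
    have := Polynomial.dvd_iff_isRoot.2 hm1
    simpa using this
  have hne : ∀ κ : ℕ, (Polynomial.X + 1) * c.comp (Polynomial.X + Polynomial.C (κ : ℂ)) ≠ 0 := by
    intro κ h0
    apply hb0
    rcases mul_eq_zero.1 h0 with h3 | h3
    · rw [h3, zero_mul]
    · have h4 := congrArg (fun p => p.comp (Polynomial.X - Polynomial.C (κ : ℂ))) h3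
      simp only [Polynomial.comp_assoc, Polynomial.zero_comp] at h4
      rw [Polynomial.add_comp, Polynomial.X_comp, Polynomial.C_comp, sub_add_cancel,
        Polynomial.comp_X] at h4
      rw [h4, mul_zero]
  obtain ⟨S1, hS1, z1⟩ := h1 _ (hne κ) ((bfun_L hf h0 hb ψ hO.1 hψ).2 c rfl)
  obtain ⟨S2, hS2, z2⟩ := h2 _ (hne (κ + 1)) ((bfun_L hf h0 hb ψ' hO'.1 hψ').2 c rfl)
  rw [zetaO_mem, zeta_FK ψ hO hψ] at z1
  rw [zetaO_mem, zeta_FK ψ' hO' hψ'] at z2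
  have hrec := LK.rec_zetaE f h0 (ce_good (good_units (K := ℂ)))
  have z3 := LK.descend hrec κ _ _ (fun p hp => (hS1 p hp).1) (fun p hp => (hS2 p hp).1)
    ((ratRing ℂ _).mul_mem (fst_mem _) z1) ((ratRing ℂ _).mul_mem (fst_mem _) z2)
  have z4 := of_fst z3
  refine ⟨insert (-1, 1) (S1.image (fun q => (q.1 + κ * q.2, q.2)) ∪
    S2.image (fun q => (q.1 + ((κ + 1 : ℕ) : ℤ) * q.2, q.2))), ?_, ?_⟩
  · intro p hp
    rw [Finset.mem_insert, Finset.mem_union, Finset.mem_image, Finset.mem_image] at hp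
    rcases hp with rfl | ⟨q, hq, rfl⟩ | ⟨q, hq, rfl⟩
    · refine ⟨one_pos, 0, ?_⟩
      have e1 : ((-1 : ℤ) : ℂ) / ((1 : ℤ) : ℂ) + ((0 : ℤ) : ℂ) = -1 := by norm_num
      rw [e1]
      exact hm1
    · obtain ⟨hq0, j, hj⟩ := hS1 q hq
      exact ⟨hq0, slope_shiftL hm1 hq0 hj⟩
    · obtain ⟨hq0, j, hj⟩ := hS2 q hq
      exact ⟨hq0, slope_shiftL hm1 hq0 hj⟩
  · rw [zetaO_mem]
    refine ratRing_mono ?_ z4
    rintro p (rfl | ⟨q, hq, rfl⟩ | ⟨q, hq, rfl⟩)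
    · exact Finset.mem_coe.2 (Finset.mem_insert_self _ _)
    · exact Finset.mem_coe.2 (Finset.mem_insert_of_mem (Finset.mem_union_left _
        (Finset.mem_image.2 ⟨q, hq, rfl⟩)))
    · exact Finset.mem_coe.2 (Finset.mem_insert_of_mem (Finset.mem_union_right _
        (Finset.mem_image.2 ⟨q, hq, rfl⟩)))

/-- **The reduction for one polynomial germ.** -/
theorem reduceO (S : Set ℂ) (hS : (1 : ℂ) ∈ AddSubgroup.closure S) (N n : ℕ)
    (f : MvPolynomial (Fin n) ℂ) (hf : f ≠ 0) (h0 : MvPolynomial.coeff 0 f = 0)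
    (hfS : ∀ d, MvPolynomial.coeff d f ∈ AddSubgroup.closure S) :
    ∃ κ : ℕ, 0 < κ ∧ ∃ (o : ∀ j : ℕ, Fin (κ + j) → Option (Fin (κ + j)))
      (v : ∀ j : ℕ, Fin (κ + j) → Fin n) (c : ∀ j : ℕ, Fin (κ + j) → ℂ),
      (∀ j, Forest (o j) ∧ (∀ m, c j m ∈ coeffs S) ∧ MinExpL N (progL (o j) (v j) (c j))) ∧
      ∀ j, WeakML (progL (o j) (v j) (c j)) → WeakML (progL (o (j + 1)) (v (j + 1)) (c (j + 1))) →
        WeakML f := by
  classical
  have hn : 0 < n := by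
    rcases Nat.eq_zero_or_pos n with rfl | h
    · exfalso
      apply hf
      rw [MvPolynomial.eq_C_of_isEmpty f, ← MvPolynomial.constantCoeff_eq,
        MvPolynomial.constantCoeff_eq, h0, MvPolynomial.C_0]
    · exact h
  set i0 : Fin n := ⟨0, hn⟩
  rcases bfun_casesL hf h0 with ⟨p, hp0, hp⟩ | hall
  · obtain ⟨κ₀, hr⟩ := rep_all f h0 hfS
    obtain ⟨κ₁, h1⟩ := exists_progsL i0 hf h0 hr N hp0 hp
    choose o v c ho hc hm ψ hO hψ using fun j : ℕ => h1 (κ₁ + 1 + j) (by omega)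
    exact ⟨κ₁ + 1, Nat.succ_pos _, o, v, c, fun j => ⟨ho j, hc j, hm j⟩, fun j h2 h3 =>
      transferO (κ := κ₁ + 1 + j) hf h0 (ψ j) (hO j) (hψ j) (ψ (j + 1)) (hO (j + 1)) (hψ (j + 1))
        h2 h3⟩
  · obtain ⟨κ₀, hr⟩ := rep_var hS i0
    obtain ⟨κ₁, h1⟩ := exists_progsL i0 (MvPolynomial.X_ne_zero i0) (by
      rw [← MvPolynomial.constantCoeff_eq, MvPolynomial.constantCoeff_X]) hr N one_ne_zero
      (bfun_XL i0)
    choose o v c ho hc hm ψ hO hψ using fun j : ℕ => h1 (κ₁ + 1 + j) (by omega)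
    exact ⟨κ₁ + 1, Nat.succ_pos _, o, v, c, fun j => ⟨ho j, hc j, hm j⟩, fun j _ _ b hb0 hb =>
      absurd (hall b hb) hb0⟩

end Pool.Agent.Q223.TW
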