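import Pool.Agent.Q223.ID.Jets

/-!
# The class of the solutions of `c + y z = 0` modulo `t ^ n`
-/

set_option autoImplicit false
set_option linter.unusedSectionVars false

namespace Pool.Agent.Q223.TW

open MvPolynomial Pool.Agent.W428.MOT Pool.Agent.TH192.MT

section ser

variable {F : Type} [Field F]

/-- the power series with given first coefficients -/
noncomputable def ser {n : ℕ} (y : Fin n → F) : PowerSeries F :=
  PowerSeries.mk fun j => if h : j < n then y ⟨j, h⟩ else 0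

theorem coeff_ser {n : ℕ} (y : Fin n → F) (j : ℕ) (h : j < n) :
    PowerSeries.coeff j (ser y) = y ⟨j, h⟩ := by
  rw [ser, PowerSeries.coeff_mk, dif_pos h]

theorem coeff_ser' {n : ℕ} (y : Fin n → F) (j : ℕ) (h : ¬ j < n) :
    PowerSeries.coeff j (ser y) = 0 := by
  rw [ser, PowerSeries.coeff_mk, dif_neg h]

theorem coeff_mul_congr (A B B' : PowerSeries F) (j : ℕ)
    (h : ∀ k ≤ j, PowerSeries.coeff k B = PowerSeries.coeff k B') :
    PowerSeries.coeff j (A * B) = PowerSeries.coeff j (A * B') := by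
  rw [PowerSeries.coeff_mul, PowerSeries.coeff_mul]
  refine Finset.sum_congr rfl fun p hp => ?_
  have := Finset.HasAntidiagonal.mem_antidiagonal.1 hp
  rw [h p.2 (by omega)]

theorem ser_zero {n : ℕ} (y : Fin (n + 1) → F) (h0 : y 0 = 0) :
    ser y = PowerSeries.X * ser (fun a => y a.succ) := by
  ext j
  rcases j with _ | j
  · rw [coeff_ser _ _ (Nat.succ_pos n), PowerSeries.coeff_zero_X_mul]
    exact h0
  · rw [PowerSeries.coeff_succ_X_mul]
    by_cases h : j < n
    · rw [coeff_ser _ _ (Nat.succ_lt_succ h), coeff_ser _ _ h]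
      rfl
    · rw [coeff_ser' _ _ (by omega), coeff_ser' _ _ h]

theorem coeff_step {n : ℕ} (y z : Fin (n + 1) → F) (h0 : y 0 = 0) (j : ℕ) (hj : j < n) :
    PowerSeries.coeff (j + 1) (ser y * ser z) =
      PowerSeries.coeff j (ser (fun a => y a.succ) * ser (fun a => z a.castSucc)) := by
  rw [ser_zero y h0, mul_assoc, PowerSeries.coeff_succ_X_mul]
  refine coeff_mul_congr _ _ _ j fun k hk => ?_
  rw [coeff_ser _ _ (by omega : k < n + 1), coeff_ser _ _ (by omega : k < n)]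
  rfl

theorem coeff_step0 {n : ℕ} (y z : Fin (n + 1) → F) (h0 : y 0 = 0) :
    PowerSeries.coeff 0 (ser y * ser z) = 0 := by
  rw [ser_zero y h0, mul_assoc, PowerSeries.coeff_zero_X_mul]

end ser

variable {K : Type} [Field K] {ρ : Type}

theorem isPA_ser {ι : Type} {n : ℕ} (g : Fin n → ι) :
    IsPA (fun z : Pt K ι => ser (fun a => z (g a))) := by
  intro j
  simp only [ser, PowerSeries.coeff_mk]
  split_ifs with h
  · exact IsPF.coord _
  · exact IsPF.zero

/-- the solutions of `c + y z = 0` modulo `t ^ n` -/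
def PS (S : Set (Pt K ρ)) (c : ℕ → Pt K ρ → AlgebraicClosure K) (n : ℕ) :
    Set (Pt K (ρ ⊕ (Fin n ⊕ Fin n))) :=
  {z | (fun i => z (Sum.inl i)) ∈ S ∧ ∀ j < n, c j (fun i => z (Sum.inl i)) +
    PowerSeries.coeff j (ser (fun a => z (Sum.inr (Sum.inl a))) *
      ser (fun a => z (Sum.inr (Sum.inr a)))) = 0}

/-- the points with `c = 0` modulo `t ^ i` -/
def Vc (S : Set (Pt K ρ)) (c : ℕ → Pt K ρ → AlgebraicClosure K) (i : ℕ) : Set (Pt K ρ) :=
  {r | r ∈ S ∧ ∀ j < i, c j r = 0}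

theorem constr_Vc {S : Set (Pt K ρ)} (hS : Constr S) {c : ℕ → Pt K ρ → AlgebraicClosure K}
    (hc : ∀ j, IsPF (c j)) (i : ℕ) : Constr (Vc S c i) :=
  Constr.and hS (Constr.allLt _ fun j _ => Constr.eqz (hc j))

theorem constr_PS {S : Set (Pt K ρ)} (hS : Constr S) {c : ℕ → Pt K ρ → AlgebraicClosure K}
    (hc : ∀ j, IsPF (c j)) (n : ℕ) : Constr (PS S c n) := by
  refine Constr.and (hS.preimage (fun z : Pt K (ρ ⊕ (Fin n ⊕ Fin n)) =>
    fun i => z (Sum.inl i)) fun i => IsPF.coord _) (Constr.allLt _ fun j _ => Constr.eqz ?_)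
  refine IsPF.add ?_ ?_
  · exact (hc j).comp (fun z : Pt K (ρ ⊕ (Fin n ⊕ Fin n)) => fun i => z (Sum.inl i))
      fun i => IsPF.coord _
  · exact IsPA.mul (isPA_ser _) (isPA_ser _) j

variable {R : Type} [CommRing R] (M : Meas K R) [Fintype ρ]

theorem chi_T (n : ℕ) : M.χ (Fin (n + 1)) {z : Pt K (Fin (n + 1)) | z 0 ≠ 0} =
    (M.L - 1) * M.L ^ n := by
  have h0 : Constr {z : Pt K (Fin 1) | z 0 ≠ 0} := (Constr.eqz (IsPF.coord 0)).compl
  have e : Fin 1 ⊕ Fin n ≃ Fin (n + 1) := finSumFinEquiv.trans (finCongr (Nat.add_comm 1 n))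
  have h1 := chi_split M (finSumFinEquiv.trans (finCongr (Nat.add_comm 1 n)) :
    Fin 1 ⊕ Fin n ≃ Fin (n + 1)) {z : Pt K (Fin (n + 1)) | z 0 ≠ 0}
    {z : Pt K (Fin 1) | z 0 ≠ 0} h0 (fun z => by
      show z 0 ≠ 0 ↔ z _ ≠ 0
      have h2 : (finSumFinEquiv.trans (finCongr (Nat.add_comm 1 n)) :
        Fin 1 ⊕ Fin n ≃ Fin (n + 1)) (Sum.inl 0) = 0 := by
        ext
        simp
      rw [h2])
  rw [h1, Pool.Agent.W417.MT.Free.chi_gm, Fintype.card_fin]

/-- the part with `y_0 ≠ 0` -/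
theorem chi_PS_unit {S : Set (Pt K ρ)} (hS : Constr S)
    {c : ℕ → Pt K ρ → AlgebraicClosure K} (hc : ∀ j, IsPF (c j)) (n : ℕ) :
    M.χ _ (PS S c (n + 1) ∩ {z | z (Sum.inr (Sum.inl 0)) ≠ 0}) =
      M.χ _ S * ((M.L - 1) * M.L ^ n) := by
  have hT : Constr {z : Pt K (Fin (n + 1)) | z 0 ≠ 0} := (Constr.eqz (IsPF.coord 0)).compl
  rw [← chi_T, ← M.prod _ _ hS hT]
  have hV : Constr {z : Pt K (ρ ⊕ Fin (n + 1)) | (fun i => z (Sum.inl i)) ∈ S ∧
      (fun i => z (Sum.inr i)) ∈ {z : Pt K (Fin (n + 1)) | z 0 ≠ 0}} :=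
    Constr.and (hS.preimage (fun z : Pt K (ρ ⊕ Fin (n + 1)) => fun i => z (Sum.inl i))
      fun i => IsPF.coord _) (hT.preimage
      (fun z : Pt K (ρ ⊕ Fin (n + 1)) => fun i => z (Sum.inr i)) fun i => IsPF.coord _)
  have hW : Constr (PS S c (n + 1) ∩ {z | z (Sum.inr (Sum.inl 0)) ≠ 0}) :=
    (constr_PS hS hc (n + 1)).inter (Constr.eqz (IsPF.coord _)).compl
  refine M.iso _ _ hW hV
    (fun z => Sum.elim (fun i => z (Sum.inl i)) fun a => z (Sum.inr (Sum.inl a)))
    (fun w => Sum.elim (fun i => w (Sum.inl i)) (Sum.elim (fun a => w (Sum.inr a))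
      fun a => PowerSeries.coeff (a : ℕ) ((- PowerSeries.mk fun j => c j fun i => w (Sum.inl i)) *
        (ser fun a => w (Sum.inr a))⁻¹)))
    (regularOn_poly (fun i => ?_) _) ?_ ?_ ?_ ?_ ?_
  · rcases i with i | i
    · exact IsPF.coord _
    · exact IsPF.coord _
  · rintro (i | i | i)
    · exact (IsPF.coord _).isRF _
    · exact (IsPF.coord _).isRF _
    · refine ra_mul (γ := fun w : Pt K (ρ ⊕ Fin (n + 1)) =>
        (- PowerSeries.mk fun j => c j fun i => w (Sum.inl i)))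
        (δ := fun w : Pt K (ρ ⊕ Fin (n + 1)) => (ser fun a => w (Sum.inr a))⁻¹) ?_ ?_ _
      · intro j
        simp only [map_neg, PowerSeries.coeff_mk]
        exact rf_neg (((hc j).comp (fun w : Pt K (ρ ⊕ Fin (n + 1)) => fun i => w (Sum.inl i))
          fun i => IsPF.coord _).isRF _)
      · refine ra_inv (fun j => ((isPA_ser _) j).isRF _) ?_
        rintro w ⟨-, hw⟩
        rw [coeff_ser _ _ (Nat.succ_pos n)]
        exact hw
  · rintro z ⟨⟨h1, -⟩, h2⟩
    exact ⟨h1, h2⟩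
  · rintro w ⟨h1, h2⟩
    refine ⟨⟨h1, fun j hj => ?_⟩, h2⟩
    have h3 : PowerSeries.constantCoeff (ser fun a => w (Sum.inr a)) ≠ 0 := by
      rw [← PowerSeries.coeff_zero_eq_constantCoeff_apply, coeff_ser _ _ (Nat.succ_pos n)]
      exact h2
    change c j (fun i => w (Sum.inl i)) + PowerSeries.coeff j ((ser fun a => w (Sum.inr a)) *
      ser fun a : Fin (n + 1) => PowerSeries.coeff (a : ℕ) ((- PowerSeries.mk fun j => c j
        fun i => w (Sum.inl i)) * (ser fun a => w (Sum.inr a))⁻¹)) = 0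
    rw [coeff_mul_congr _ _ ((- PowerSeries.mk fun j => c j
        fun i => w (Sum.inl i)) * (ser fun a => w (Sum.inr a))⁻¹) j fun k hk => by
      rw [coeff_ser _ _ (by omega : k < n + 1)]]
    have h4 : (ser fun a => w (Sum.inr a)) * ((- PowerSeries.mk fun j => c j
        fun i => w (Sum.inl i)) * (ser fun a => w (Sum.inr a))⁻¹) =
        - PowerSeries.mk fun j => c j fun i => w (Sum.inl i) := by
      rw [mul_left_comm, PowerSeries.mul_inv_cancel _ h3, mul_one]
    rw [h4, map_neg, PowerSeries.coeff_mk]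
    exact add_neg_cancel _
  · rintro z ⟨⟨h1, h1'⟩, h2⟩
    have h3 : PowerSeries.constantCoeff (ser fun a => z (Sum.inr (Sum.inl a))) ≠ 0 := by
      rw [← PowerSeries.coeff_zero_eq_constantCoeff_apply, coeff_ser _ _ (Nat.succ_pos n)]
      exact h2
    funext i
    rcases i with i | i | i
    · rfl
    · rfl
    · change PowerSeries.coeff (i : ℕ) ((- PowerSeries.mk fun j => c j fun i => z (Sum.inl i)) *
        (ser fun a => z (Sum.inr (Sum.inl a)))⁻¹) = z (Sum.inr (Sum.inr i))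
      rw [mul_comm, coeff_mul_congr _ _ ((ser fun a => z (Sum.inr (Sum.inl a))) *
        (ser fun a => z (Sum.inr (Sum.inr a)))) i fun k hk => by
          rw [map_neg, PowerSeries.coeff_mk]
          have := h1' k (by omega)
          linear_combination -this]
      rw [← mul_assoc, PowerSeries.inv_mul_cancel _ h3, one_mul, coeff_ser _ _ i.2]
  · rintro w ⟨h1, h2⟩
    funext i
    rcases i with i | i
    · rfl
    · rfl

/-- the part with `y_0 = 0` -/
theorem chi_PS_zero {S : Set (Pt K ρ)} (hS : Constr S)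
    {c : ℕ → Pt K ρ → AlgebraicClosure K} (hc : ∀ j, IsPF (c j)) (n : ℕ) :
    M.χ _ (PS S c (n + 1) ∩ {z | z (Sum.inr (Sum.inl 0)) = 0}) =
      M.χ _ (PS (Vc S c 1) (fun j => c (j + 1)) n) * M.L := by
  have hP : Constr (PS (Vc S c 1) (fun j => c (j + 1)) n) :=
    constr_PS (constr_Vc hS hc 1) (fun j => hc (j + 1)) n
  have hL : M.L = M.χ (Fin 1) (Set.univ : Set (Pt K (Fin 1))) := by
    rw [chi_univ, Fintype.card_fin, pow_one]
  rw [hL, ← M.prod _ _ hP Constr.univ]
  have hV : Constr {z : Pt K ((ρ ⊕ (Fin n ⊕ Fin n)) ⊕ Fin 1) |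
      (fun i => z (Sum.inl i)) ∈ PS (Vc S c 1) (fun j => c (j + 1)) n ∧
      (fun i => z (Sum.inr i)) ∈ (Set.univ : Set (Pt K (Fin 1)))} :=
    Constr.and (hP.preimage (fun z : Pt K ((ρ ⊕ (Fin n ⊕ Fin n)) ⊕ Fin 1) =>
      fun i => z (Sum.inl i)) fun i => IsPF.coord _) (Constr.const True)
  have hW : Constr (PS S c (n + 1) ∩ {z | z (Sum.inr (Sum.inl 0)) = 0}) :=
    (constr_PS hS hc (n + 1)).inter (Constr.eqz (IsPF.coord _))
  refine M.iso _ _ hW hV
    (fun z => Sum.elim (Sum.elim (fun i => z (Sum.inl i)) (Sum.elim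
      (fun a => z (Sum.inr (Sum.inl a.succ))) (fun a => z (Sum.inr (Sum.inr a.castSucc)))))
      fun _ => z (Sum.inr (Sum.inr (Fin.last n))))
    (fun w => Sum.elim (fun i => w (Sum.inl (Sum.inl i))) (Sum.elim
      (Fin.cases 0 fun a => w (Sum.inl (Sum.inr (Sum.inl a))))
      (Fin.lastCases (w (Sum.inr 0)) fun a => w (Sum.inl (Sum.inr (Sum.inr a))))))
    (regularOn_poly (fun i => ?_) _) (regularOn_poly (fun i => ?_) _) ?_ ?_ ?_ ?_
  · rcases i with (i | i | i) | i
    · exact IsPF.coord _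
    · exact IsPF.coord _
    · exact IsPF.coord _
    · exact IsPF.coord _
  · rcases i with i | i | i
    · exact IsPF.coord _
    · refine Fin.cases ?_ (fun a => ?_) i
      · exact IsPF.zero
      · exact IsPF.coord _
    · refine Fin.lastCases ?_ (fun a => ?_) i
      · simp only [Sum.elim_inr, Fin.lastCases_last]
        exact IsPF.coord _
      · simp only [Sum.elim_inr, Fin.lastCases_castSucc]
        exact IsPF.coord _
  · rintro z ⟨⟨h1, h1'⟩, h2⟩
    have h2' : (fun a => z (Sum.inr (Sum.inl a))) 0 = 0 := h2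
    refine ⟨⟨⟨h1, fun j hj => ?_⟩, fun j hj => ?_⟩, trivial⟩
    · obtain rfl : j = 0 := by omega
      have := h1' 0 (Nat.succ_pos n)
      rw [coeff_step0 _ _ h2', add_zero] at this
      exact this
    · have := h1' (j + 1) (by omega)
      rw [coeff_step _ _ h2' j hj] at this
      exact this
  · rintro w ⟨⟨⟨h1, h1'⟩, h2⟩, -⟩
    refine ⟨⟨h1, fun j hj => ?_⟩, rfl⟩
    rcases j with _ | j
    · rw [coeff_step0 _ _ rfl, add_zero]
      exact h1' 0 Nat.one_pos
    · rw [coeff_step _ _ rfl j (by omega)]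
      have := h2 j (by omega)
      simp only [Sum.elim_inr, Sum.elim_inl, Fin.lastCases_castSucc, Fin.cases_succ]
      exact this
  · rintro z ⟨⟨h1, h1'⟩, h2⟩
    funext i
    rcases i with i | i | i
    · rfl
    · refine Fin.cases ?_ (fun a => ?_) i
      · exact h2.symm
      · rfl
    · refine Fin.lastCases ?_ (fun a => ?_) i
      · simp only [Sum.elim_inr, Fin.lastCases_last]
      · simp only [Sum.elim_inr, Fin.lastCases_castSucc, Sum.elim_inl]
  · rintro w -
    funext i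
    rcases i with (i | i | i) | i
    · rfl
    · rfl
    · simp only [Sum.elim_inr, Fin.lastCases_castSucc, Sum.elim_inl]
    · simp only [Sum.elim_inr, Fin.lastCases_last]
      rw [Subsingleton.elim i 0]

theorem Vc_Vc (S : Set (Pt K ρ)) (c : ℕ → Pt K ρ → AlgebraicClosure K) (i : ℕ) :
    Vc (Vc S c 1) (fun j => c (j + 1)) i = Vc S c (i + 1) := by
  ext r
  constructor
  · rintro ⟨⟨h1, h2⟩, h3⟩
    refine ⟨h1, fun j hj => ?_⟩
    rcases j with _ | j
    · exact h2 0 Nat.one_pos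
    · exact h3 j (by omega)
  · rintro ⟨h1, h2⟩
    exact ⟨⟨h1, fun j hj => h2 j (by omega)⟩, fun j hj => h2 (j + 1) (by omega)⟩

theorem chi_PS (n : ℕ) : ∀ {S : Set (Pt K ρ)} (_ : Constr S)
    {c : ℕ → Pt K ρ → AlgebraicClosure K} (_ : ∀ j, IsPF (c j)),
    M.χ _ (PS S c n) = M.χ _ (Vc S c n) * M.L ^ n +
      ∑ i ∈ Finset.range n, (M.L - 1) * M.L ^ (n - 1) * M.χ _ (Vc S c i) := by
  induction n with
  | zero =>
    intro S hS c hc
    rw [Finset.range_zero, Finset.sum_empty, add_zero]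
    have h1 := chi_split M (Equiv.refl (ρ ⊕ (Fin 0 ⊕ Fin 0))) (PS S c 0) (Vc S c 0)
      (constr_Vc hS hc 0) (fun z => ⟨fun h => ⟨h.1, fun j hj => absurd hj (Nat.not_lt_zero j)⟩,
        fun h => ⟨h.1, fun j hj => absurd hj (Nat.not_lt_zero j)⟩⟩)
    rw [h1]
    simp
  | succ n ih =>
    intro S hS c hc
    have hA : Constr (PS S c (n + 1) ∩ {z | z (Sum.inr (Sum.inl 0)) ≠ 0}) :=
      (constr_PS hS hc (n + 1)).inter (Constr.eqz (IsPF.coord _)).compl
    have hB : Constr (PS S c (n + 1) ∩ {z | z (Sum.inr (Sum.inl 0)) = 0}) :=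
      (constr_PS hS hc (n + 1)).inter (Constr.eqz (IsPF.coord _))
    have h1 : PS S c (n + 1) = (PS S c (n + 1) ∩ {z | z (Sum.inr (Sum.inl 0)) ≠ 0}) ∪
        (PS S c (n + 1) ∩ {z | z (Sum.inr (Sum.inl 0)) = 0}) := by
      ext z
      simp only [Set.mem_union, Set.mem_inter_iff, Set.mem_ofPred_eq]
      tauto
    have h2 : Disjoint (PS S c (n + 1) ∩ {z | z (Sum.inr (Sum.inl 0)) ≠ 0})
        (PS S c (n + 1) ∩ {z | z (Sum.inr (Sum.inl 0)) = 0}) := by
      rw [Set.disjoint_left]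
      rintro z ⟨-, h3⟩ ⟨-, h4⟩
      exact h3 h4
    have h3 : Vc S c 0 = S := by
      ext r
      exact ⟨fun h => h.1, fun h => ⟨h, fun j hj => absurd hj (Nat.not_lt_zero j)⟩⟩
    rw [h1, M.add _ _ hA hB h2, chi_PS_unit M hS hc, chi_PS_zero M hS hc,
      ih (constr_Vc hS hc 1) (fun j => hc (j + 1)), Finset.sum_range_succ', h3, Nat.add_sub_cancel]
    simp only [Vc_Vc]
    rcases n with _ | n
    · simp only [Finset.range_zero, Finset.sum_empty]
      ring
    · rw [add_mul, Finset.sum_mul]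
      have h4 : ∀ i, (M.L - 1) * M.L ^ (n + 1 - 1) * M.χ _ (Vc S c (i + 1)) * M.L =
          (M.L - 1) * M.L ^ (n + 1) * M.χ _ (Vc S c (i + 1)) := by
        intro i
        rw [Nat.add_sub_cancel]
        ring
      rw [Finset.sum_congr rfl fun i _ => h4 i]
      ring

end Pool.Agent.Q223.TW
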