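import Pool.Agent.Q223.TW.Jet

/-!
# The classes of jets at the origin for `f + y z`
-/

set_option autoImplicit false
set_option linter.unusedSectionVars false

namespace Pool.Agent.Q223.TW

open MvPolynomial Pool.Agent.W428.MOT Pool.Agent.TH192.MT Pool.Agent.TH192.MU
open Pool.Agent.Q223.ID
open Pool.Agent.Y229.MS (addyz CE)

section pair

variable {K : Type} [Field K] {ρ : Type}

/-- the solutions of `c + y z = 0` modulo `t ^ n` with `y(0) = z(0) = 0` -/
def PSL (S : Set (Pt K ρ)) (c : ℕ → Pt K ρ → AlgebraicClosure K) (N : ℕ) :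
    Set (Pt K (ρ ⊕ (Fin (N + 1) ⊕ Fin (N + 1)))) :=
  {z | z ∈ PS S c (N + 1) ∧ z (Sum.inr (Sum.inl 0)) = 0 ∧ z (Sum.inr (Sum.inr 0)) = 0}

theorem constr_PSL {S : Set (Pt K ρ)} (hS : Constr S) {c : ℕ → Pt K ρ → AlgebraicClosure K}
    (hc : ∀ j, IsPF (c j)) (N : ℕ) : Constr (PSL S c N) :=
  Constr.and (constr_PS hS hc (N + 1)) (Constr.and (Constr.eqz (IsPF.coord _))
    (Constr.eqz (IsPF.coord _)))

section coef

variable {F : Type} [Field F]

theorem ser_mul_zero {n : ℕ} (y z : Fin (n + 1) → F) (hy : y 0 = 0) (hz : z 0 = 0) :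
    ser y * ser z = PowerSeries.X * (PowerSeries.X * (ser (fun a => y a.succ) *
      ser (fun a => z a.succ))) := by
  rw [ser_zero y hy, ser_zero z hz]
  ring

theorem coeffL_zero {n : ℕ} (y z : Fin (n + 1) → F) (hy : y 0 = 0) (hz : z 0 = 0) :
    PowerSeries.coeff 0 (ser y * ser z) = 0 := by
  rw [ser_mul_zero y z hy hz, PowerSeries.coeff_zero_X_mul]

theorem coeffL_one {n : ℕ} (y z : Fin (n + 1) → F) (hy : y 0 = 0) (hz : z 0 = 0) :
    PowerSeries.coeff 1 (ser y * ser z) = 0 := by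
  rw [ser_mul_zero y z hy hz, PowerSeries.coeff_succ_X_mul, PowerSeries.coeff_zero_X_mul]

theorem coeffL_succ {n : ℕ} (y z : Fin (n + 1 + 1) → F) (hy : y 0 = 0) (hz : z 0 = 0) (j : ℕ)
    (hj : j < n) : PowerSeries.coeff (j + 2) (ser y * ser z) =
      PowerSeries.coeff j (ser (fun a : Fin n => y a.castSucc.succ) *
        ser (fun a : Fin n => z a.castSucc.succ)) := by
  rw [ser_mul_zero y z hy hz, PowerSeries.coeff_succ_X_mul, PowerSeries.coeff_succ_X_mul,
    coeff_mul_congr _ _ (ser (fun a : Fin n => z a.castSucc.succ)) j, mul_comm,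
    coeff_mul_congr _ _ (ser (fun a : Fin n => y a.castSucc.succ)) j, mul_comm]
  · intro k hk
    rw [coeff_ser _ _ (by omega : k < n + 1), coeff_ser _ _ (by omega : k < n)]
    rfl
  · intro k hk
    rw [coeff_ser _ _ (by omega : k < n + 1), coeff_ser _ _ (by omega : k < n)]
    rfl

end coef

variable {R : Type} [CommRing R] (M : Meas K R) [Fintype ρ]

theorem chi_PSL1 {S : Set (Pt K ρ)} (hS : Constr S)
    {c : ℕ → Pt K ρ → AlgebraicClosure K} (hc : ∀ j, IsPF (c j)) (n : ℕ) :
    M.χ _ (PSL S c (n + 1)) = M.χ _ (PS (Vc S c 2) (fun j => c (j + 2)) n) * M.L ^ 2 := by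
  have hP : Constr (PS (Vc S c 2) (fun j => c (j + 2)) n) :=
    constr_PS (constr_Vc hS hc 2) (fun j => hc (j + 2)) n
  have hL : M.L ^ 2 = M.χ (Fin 2) (Set.univ : Set (Pt K (Fin 2))) := by
    rw [chi_univ, Fintype.card_fin]
  rw [hL, ← M.prod _ _ hP Constr.univ]
  have hV : Constr {z : Pt K ((ρ ⊕ (Fin n ⊕ Fin n)) ⊕ Fin 2) |
      (fun i => z (Sum.inl i)) ∈ PS (Vc S c 2) (fun j => c (j + 2)) n ∧
      (fun i => z (Sum.inr i)) ∈ (Set.univ : Set (Pt K (Fin 2)))} :=
    Constr.and (hP.preimage (fun z : Pt K ((ρ ⊕ (Fin n ⊕ Fin n)) ⊕ Fin 2) =>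
      fun i => z (Sum.inl i)) fun i => IsPF.coord _) (Constr.const True)
  refine M.iso _ _ (constr_PSL hS hc (n + 1)) hV
    (fun z => Sum.elim (Sum.elim (fun i => z (Sum.inl i)) (Sum.elim
      (fun a => z (Sum.inr (Sum.inl a.castSucc.succ)))
      (fun a => z (Sum.inr (Sum.inr a.castSucc.succ)))))
      (Fin.cases (z (Sum.inr (Sum.inl (Fin.last n).succ)))
        fun _ => z (Sum.inr (Sum.inr (Fin.last n).succ))))
    (fun w => Sum.elim (fun i => w (Sum.inl (Sum.inl i))) (Sum.elim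
      (Fin.cases 0 (Fin.lastCases (w (Sum.inr 0)) fun a => w (Sum.inl (Sum.inr (Sum.inl a)))))
      (Fin.cases 0 (Fin.lastCases (w (Sum.inr 1)) fun a => w (Sum.inl (Sum.inr (Sum.inr a)))))))
    (regularOn_poly (fun i => ?_) _) (regularOn_poly (fun i => ?_) _) ?_ ?_ ?_ ?_
  · rcases i with (i | i | i) | i
    · exact IsPF.coord _
    · exact IsPF.coord _
    · exact IsPF.coord _
    · refine Fin.cases ?_ (fun a => ?_) i
      · exact IsPF.coord _
      · exact IsPF.coord _
  · rcases i with i | i | i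
    · exact IsPF.coord _
    · refine Fin.cases ?_ (fun a => ?_) i
      · exact IsPF.zero
      · refine Fin.lastCases ?_ (fun a => ?_) a
        · simp only [Sum.elim_inr, Sum.elim_inl, Fin.cases_succ, Fin.lastCases_last]
          exact IsPF.coord _
        · simp only [Sum.elim_inr, Sum.elim_inl, Fin.cases_succ, Fin.lastCases_castSucc]
          exact IsPF.coord _
    · refine Fin.cases ?_ (fun a => ?_) i
      · exact IsPF.zero
      · refine Fin.lastCases ?_ (fun a => ?_) a
        · simp only [Sum.elim_inr, Fin.cases_succ, Fin.lastCases_last]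
          exact IsPF.coord _
        · simp only [Sum.elim_inr, Fin.cases_succ, Fin.lastCases_castSucc]
          exact IsPF.coord _
  · rintro z ⟨⟨h1, h1'⟩, h2, h3⟩
    have h2' : (fun a => z (Sum.inr (Sum.inl a))) 0 = 0 := h2
    have h3' : (fun a => z (Sum.inr (Sum.inr a))) 0 = 0 := h3
    refine ⟨⟨⟨h1, fun j hj => ?_⟩, fun j hj => ?_⟩, trivial⟩
    · obtain rfl | rfl : j = 0 ∨ j = 1 := by omega
      · have := h1' 0 (by omega)
        rw [coeffL_zero _ _ h2' h3', add_zero] at this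
        exact this
      · have := h1' 1 (by omega)
        rw [coeffL_one _ _ h2' h3', add_zero] at this
        exact this
    · have := h1' (j + 2) (by omega)
      rw [coeffL_succ _ _ h2' h3' j hj] at this
      exact this
  · rintro w ⟨⟨⟨h1, h1'⟩, h2⟩, -⟩
    refine ⟨⟨h1, fun j hj => ?_⟩, rfl, rfl⟩
    rcases j with _ | _ | j
    · rw [coeffL_zero _ _ rfl rfl, add_zero]
      exact h1' 0 (by omega)
    · rw [coeffL_one _ _ rfl rfl, add_zero]
      exact h1' 1 (by omega)
    · rw [coeffL_succ _ _ rfl rfl j (by omega)]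
      have := h2 j (by omega)
      simp only [Sum.elim_inr, Sum.elim_inl, Fin.lastCases_castSucc, Fin.cases_succ]
      exact this
  · rintro z ⟨⟨h1, h1'⟩, h2, h3⟩
    funext i
    rcases i with i | i | i
    · rfl
    · refine Fin.cases ?_ (fun a => ?_) i
      · exact h2.symm
      · refine Fin.lastCases ?_ (fun a => ?_) a
        · simp only [Sum.elim_inr, Sum.elim_inl, Fin.cases_succ, Fin.lastCases_last]
          rfl
        · simp only [Sum.elim_inr, Sum.elim_inl, Fin.cases_succ, Fin.lastCases_castSucc]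
    · refine Fin.cases ?_ (fun a => ?_) i
      · exact h3.symm
      · refine Fin.lastCases ?_ (fun a => ?_) a
        · simp only [Sum.elim_inr, Fin.cases_succ, Fin.lastCases_last]
          rfl
        · simp only [Sum.elim_inr, Fin.cases_succ, Fin.lastCases_castSucc, Sum.elim_inl]
  · rintro w -
    funext i
    rcases i with (i | i | i) | i
    · rfl
    · simp only [Sum.elim_inr, Sum.elim_inl, Fin.cases_succ, Fin.lastCases_castSucc]
    · simp only [Sum.elim_inr, Sum.elim_inl, Fin.cases_succ, Fin.lastCases_castSucc]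
    · fin_cases i
      · simp only [Sum.elim_inr, Sum.elim_inl, Fin.cases_succ, Fin.lastCases_last]
        rfl
      · show (Fin.cases _ _ (1 : Fin 2) : AlgebraicClosure K) = _
        rw [show (1 : Fin 2) = Fin.succ 0 from rfl]
        simp only [Sum.elim_inr, Fin.cases_succ, Fin.lastCases_last]
        rfl

theorem Vc_Vc2 (S : Set (Pt K ρ)) (c : ℕ → Pt K ρ → AlgebraicClosure K) (i : ℕ) :
    Vc (Vc S c 2) (fun j => c (j + 2)) i = Vc S c (i + 2) := by
  ext r
  constructor
  · rintro ⟨⟨h1, h2⟩, h3⟩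
    refine ⟨h1, fun j hj => ?_⟩
    rcases j with _ | _ | j
    · exact h2 0 (by omega)
    · exact h2 1 (by omega)
    · exact h3 j (by omega)
  · rintro ⟨h1, h2⟩
    exact ⟨⟨h1, fun j hj => h2 j (by omega)⟩, fun j hj => h2 (j + 2) (by omega)⟩

/-- the class of the solutions with `y(0) = z(0) = 0` -/
theorem chi_PSL (n : ℕ) {S : Set (Pt K ρ)} (hS : Constr S)
    {c : ℕ → Pt K ρ → AlgebraicClosure K} (hc : ∀ j, IsPF (c j)) :
    M.χ _ (PSL S c (n + 1)) = M.χ _ (Vc S c (n + 2)) * M.L ^ (n + 2) +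
      ∑ i ∈ Finset.range n, (M.L - 1) * M.L ^ (n + 1) * M.χ _ (Vc S c (i + 2)) := by
  rw [chi_PSL1 M hS hc, chi_PS M n (constr_Vc hS hc 2) (fun j => hc (j + 2))]
  simp only [Vc_Vc2]
  rcases n with _ | n
  · simp only [Finset.range_zero, Finset.sum_empty]
    ring
  · rw [add_mul, Finset.sum_mul]
    have h4 : ∀ i, (M.L - 1) * M.L ^ (n + 1 - 1) * M.χ _ (Vc S c (i + 2)) * M.L ^ 2 =
        (M.L - 1) * M.L ^ (n + 1 + 1) * M.χ _ (Vc S c (i + 2)) := by
      intro i
      rw [Nat.add_sub_cancel]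
      ring
    rw [Finset.sum_congr rfl fun i _ => h4 i]
    ring

end pair

/-! ### Jets with origin in `W`, with a parameter -/

/-- the pairs of `w ∈ E` and a jet `φ` with origin in `W` and `f(φ) = w ^ k t ^ N` modulo `t ^ (N + 1)` -/
def JetE {σ : Type} (f : MvPolynomial σ ℂ) (W : Set (Pt ℂ σ)) (E : Set (AlgebraicClosure ℂ))
    (k N : ℕ) : Set (Pt ℂ (Unit ⊕ σ × Fin (N + 1))) :=
  {z | z (Sum.inl ()) ∈ E ∧
    (fun i => z (Sum.inr i)) ∈ JetS f W {c | c = z (Sum.inl ()) ^ k} N}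

/-- the jets with origin in `W` and order at least `i` -/
def TJ {σ : Type} (f : MvPolynomial σ ℂ) (W : Set (Pt ℂ σ)) (i N : ℕ) :
    Set (Pt ℂ (σ × Fin (N + 1))) :=
  {z | (fun i => z (i, 0)) ∈ W ∧ ∀ j < i, PowerSeries.coeff j (aeval (ar z) f) = 0}

section constr

variable {σ : Type} {W : Set (Pt ℂ σ)} (hW : Constr W) {E : Set (AlgebraicClosure ℂ)} (hE : CE E)

include hW

theorem constr_TJ (f : MvPolynomial σ ℂ) (i N : ℕ) : Constr (TJ f W i N) :=
  Constr.and (hW.preimage (fun z : Pt ℂ (σ × Fin (N + 1)) => fun i => z (i, 0))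
    fun i => IsPF.coord _) (Constr.allLt _ fun j _ => Constr.eqz (isPF_coeff f j))

include hE

theorem constr_JetS (f : MvPolynomial σ ℂ) (N : ℕ) : Constr (JetS f W E N) :=
  Constr.and (hW.preimage (fun z : Pt ℂ (σ × Fin (N + 1)) => fun i => z (i, 0))
    fun i => IsPF.coord _) (Constr.and (Constr.allLt _ fun j _ => Constr.eqz (isPF_coeff f j))
    (hE _ (isPF_coeff f N)))

theorem constr_JetE (f : MvPolynomial σ ℂ) (k N : ℕ) : Constr (JetE f W E k N) := by
  have h1 : ∀ j, IsPF fun z : Pt ℂ (Unit ⊕ σ × Fin (N + 1)) =>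
      PowerSeries.coeff j (aeval (ar fun i => z (Sum.inr i)) f) := fun j =>
    (isPF_coeff f j).comp (fun z : Pt ℂ (Unit ⊕ σ × Fin (N + 1)) => fun i => z (Sum.inr i))
      fun i => IsPF.coord _
  exact Constr.and (hE _ (IsPF.coord _)) (Constr.and (hW.preimage
    (fun z : Pt ℂ (Unit ⊕ σ × Fin (N + 1)) => fun i => z (Sum.inr (i, 0))) fun i => IsPF.coord _)
    (Constr.and (Constr.allLt _ fun j _ => Constr.eqz (h1 j))
      (Constr.eq (h1 N) ((IsPF.coord _).pow k))))

variable {R : Type} [CommRing R] (M : Meas ℂ R) [Fintype σ]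

/-- the parameter is determined by the jet if `k = 1` -/
theorem chi_JetE_one (f : MvPolynomial σ ℂ) (N : ℕ) :
    M.χ _ (JetE f W E 1 N) = M.χ _ (JetS f W E N) := by
  refine M.iso _ _ (constr_JetE hW hE f 1 N) (constr_JetS hW hE f N)
    (fun z i => z (Sum.inr i))
    (fun y => Sum.elim (fun _ => PowerSeries.coeff N (aeval (ar y) f)) y)
    (regularOn_poly (fun i => IsPF.coord _) _) ?_ ?_ ?_ ?_ ?_
  · refine regularOn_poly (fun i => ?_) _
    rcases i with i | i
    · exact isPF_coeff f N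
    · exact IsPF.coord _
  · rintro z ⟨h2, h3, h4, h5⟩
    refine ⟨h3, h4, ?_⟩
    have h6 : PowerSeries.coeff N (aeval (ar fun i => z (Sum.inr i)) f) = z (Sum.inl ()) ^ 1 := h5
    change PowerSeries.coeff N (aeval (ar fun i => z (Sum.inr i)) f) ∈ E
    rw [h6, pow_one]
    exact h2
  · rintro y ⟨h3, h4, h5⟩
    refine ⟨h5, h3, h4, ?_⟩
    change PowerSeries.coeff N (aeval (ar y) f) = PowerSeries.coeff N (aeval (ar y) f) ^ 1
    rw [pow_one]
  · rintro z ⟨h2, h3, h4, h5⟩
    have h6 : PowerSeries.coeff N (aeval (ar fun i => z (Sum.inr i)) f) = z (Sum.inl ()) ^ 1 := h5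
    funext i
    rcases i with i | i
    · change PowerSeries.coeff N (aeval (ar fun i => z (Sum.inr i)) f) = z (Sum.inl i)
      rw [h6, pow_one]
    · rfl
  · intro y _
    rfl

end constr

section local_

variable {n : ℕ}

/-- the parameters -/
def SE (W : Set (Pt ℂ (Fin n))) (E : Set (AlgebraicClosure ℂ)) (N : ℕ) :
    Set (Pt ℂ (Unit ⊕ Fin n × Fin (N + 1))) :=
  {z | z (Sum.inl ()) ∈ E ∧ (fun i => z (Sum.inr (i, 0))) ∈ W}

theorem constr_SE {W : Set (Pt ℂ (Fin n))} (hW : Constr W) {E : Set (AlgebraicClosure ℂ)}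
    (hE : CE E) (N : ℕ) : Constr (SE W E N) :=
  Constr.and (hE _ (IsPF.coord _)) (hW.preimage
    (fun z : Pt ℂ (Unit ⊕ Fin n × Fin (N + 1)) => fun i => z (Sum.inr (i, 0))) fun i =>
      IsPF.coord _)

theorem Vc_topE (f : MvPolynomial (Fin n) ℂ) (W : Set (Pt ℂ (Fin n)))
    (E : Set (AlgebraicClosure ℂ)) (k N : ℕ) :
    Vc (SE W E N) (cw f k N) (N + 1) = JetE f W E k N := by
  ext z
  constructor
  · rintro ⟨h1, h2⟩
    refine ⟨h1.1, h1.2, fun j hj => ?_, ?_⟩
    · have := h2 j (by omega)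
      rwa [cw, if_neg (by omega), sub_zero] at this
    · have := h2 N (by omega)
      rw [cw, if_pos rfl, sub_eq_zero] at this
      exact this
  · rintro ⟨h1, h0, h2, h3⟩
    refine ⟨⟨h1, h0⟩, fun j hj => ?_⟩
    by_cases h : j = N
    · subst h
      rw [cw, if_pos rfl, sub_eq_zero]
      exact h3
    · rw [cw, if_neg h, sub_zero]
      exact h2 j (by omega)

variable {R : Type} [CommRing R] (M : Meas ℂ R)

theorem chi_VcE (f : MvPolynomial (Fin n) ℂ) {W : Set (Pt ℂ (Fin n))} (hW : Constr W)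
    {E : Set (AlgebraicClosure ℂ)} (hE : CE E) (k N i : ℕ) (hi : i ≤ N) :
    M.χ _ (Vc (SE W E N) (cw f k N) i) =
      M.χ (Fin 1) {z | z 0 ∈ E} * M.χ _ (TJ f W i N) := by
  have h1 : Constr {z : Pt ℂ (Fin 1) | z 0 ∈ E} := hE _ (IsPF.coord 0)
  have h2 : Constr (TJ f W i N) := constr_TJ hW f i N
  rw [← M.prod _ _ h1 h2]
  refine M.iso _ _ (constr_Vc (constr_SE hW hE N) (isPF_cw f k N) i)
    (Constr.and (h1.preimage (fun z : Pt ℂ (Fin 1 ⊕ Fin n × Fin (N + 1)) => fun i => z (Sum.inl i))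
      fun i => IsPF.coord _) (h2.preimage
      (fun z : Pt ℂ (Fin 1 ⊕ Fin n × Fin (N + 1)) => fun i => z (Sum.inr i)) fun i => IsPF.coord _))
    (fun z => Sum.elim (fun _ => z (Sum.inl ())) fun p => z (Sum.inr p))
    (fun w => Sum.elim (fun _ => w (Sum.inl 0)) fun p => w (Sum.inr p))
    (regularOn_poly (fun i => ?_) _) (regularOn_poly (fun i => ?_) _) ?_ ?_ ?_ ?_
  · rcases i with i | i
    · exact IsPF.coord _
    · exact IsPF.coord _
  · rcases i with i | i
    · exact IsPF.coord _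
    · exact IsPF.coord _
  · rintro z ⟨h3, h4⟩
    refine ⟨h3.1, h3.2, fun j hj => ?_⟩
    have := h4 j hj
    rw [cw, if_neg (by omega), sub_zero] at this
    exact this
  · rintro w ⟨h3, h3', h4⟩
    refine ⟨⟨h3, h3'⟩, fun j hj => ?_⟩
    rw [cw, if_neg (by omega), sub_zero]
    exact h4 j hj
  · rintro z -
    funext i
    rcases i with i | i
    · rfl
    · rfl
  · rintro w -
    funext i
    rcases i with i | i
    · rw [Subsingleton.elim i 0]
      rfl
    · rfl

theorem mem_JetE_pair {N : ℕ} (f : MvPolynomial (Fin n) ℂ) (E : Set (AlgebraicClosure ℂ)) (k : ℕ)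
    (z : Pt ℂ (Unit ⊕ Fin (n + 2) × Fin (N + 1))) (w : Pt ℂ ((Unit ⊕ Fin n × Fin (N + 1)) ⊕
      (Fin (N + 1) ⊕ Fin (N + 1))))
    (h0 : w (Sum.inl (Sum.inl ())) = z (Sum.inl ()))
    (hx : ∀ p : Fin n × Fin (N + 1), w (Sum.inl (Sum.inr p)) = z (Sum.inr (Fin.castAdd 2 p.1, p.2)))
    (hy : ∀ a, w (Sum.inr (Sum.inl a)) = z (Sum.inr (Fin.natAdd n 0, a)))
    (hz : ∀ a, w (Sum.inr (Sum.inr a)) = z (Sum.inr (Fin.natAdd n 1, a))) :
    z ∈ JetE (addyz f) {0} E k N ↔ w ∈ PSL (SE {0} E N) (cw f k N) N := by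
  have e1 : (fun p : Fin n × Fin (N + 1) => w (Sum.inl (Sum.inr p))) =
      fun p => z (Sum.inr (Fin.castAdd 2 p.1, p.2)) := funext hx
  have e2 : (fun a => w (Sum.inr (Sum.inl a))) = fun a => z (Sum.inr (Fin.natAdd n 0, a)) :=
    funext hy
  have e3 : (fun a => w (Sum.inr (Sum.inr a))) = fun a => z (Sum.inr (Fin.natAdd n 1, a)) :=
    funext hz
  have key : ∀ j, PowerSeries.coeff j (aeval (ar fun i => z (Sum.inr i)) (addyz f)) =
      PowerSeries.coeff j (aeval (ar fun i => w (Sum.inl (Sum.inr i))) f) +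
      PowerSeries.coeff j (ser (fun a => w (Sum.inr (Sum.inl a))) *
        ser (fun a => w (Sum.inr (Sum.inr a)))) := by
    intro j
    rw [aeval_yz, map_add, e1, e2, e3]
  constructor
  · rintro ⟨h1, h4, h2, h3⟩
    have h5 : ∀ i, z (Sum.inr (i, 0)) = 0 := fun i => congrFun h4 i
    refine ⟨⟨⟨by show w (Sum.inl (Sum.inl ())) ∈ E; rw [h0]; exact h1, ?_⟩, fun j hj => ?_⟩, ?_, ?_⟩
    · show (fun i => w (Sum.inl (Sum.inr (i, 0)))) = 0
      funext i
      rw [hx]
      exact h5 _
    · by_cases h : j = N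
      · subst h
        rw [cw, if_pos rfl]
        have h4 : PowerSeries.coeff j (aeval (ar fun i => z (Sum.inr i)) (addyz f)) =
          z (Sum.inl ()) ^ k := h3
        rw [key] at h4
        rw [h0]
        linear_combination h4
      · rw [cw, if_neg h, sub_zero]
        have h4 := h2 j (by omega)
        rw [key] at h4
        exact h4
    · rw [hy]
      exact h5 _
    · rw [hz]
      exact h5 _
  · rintro ⟨⟨⟨h1, h1'⟩, h2⟩, hy0, hz0⟩
    have h5 : ∀ i : Fin n, w (Sum.inl (Sum.inr (i, 0))) = 0 := fun i => congrFun h1' i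
    refine ⟨by rw [← h0]; exact h1, ?_, fun j hj => ?_, ?_⟩
    · show (fun i => z (Sum.inr (i, 0))) = 0
      funext i
      refine Fin.addCases (fun i => ?_) (fun b => ?_) i
      · have := hx (i, 0)
        simp only at this
        rw [← this]
        exact h5 i
      · fin_cases b
        · exact (hy 0).symm.trans hy0
        · exact (hz 0).symm.trans hz0
    · have h4 := h2 j (by omega)
      rw [cw, if_neg (by omega), sub_zero] at h4
      rw [key]
      exact h4
    · have h4 := h2 N (by omega)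
      rw [cw, if_pos rfl] at h4
      show PowerSeries.coeff N (aeval (ar fun i => z (Sum.inr i)) (addyz f)) = z (Sum.inl ()) ^ k
      rw [key, ← h0]
      linear_combination h4

theorem constr_zero {σ : Type} [Finite σ] : Constr ({0} : Set (Pt ℂ σ)) := by
  have h1 := (Constr.all (p := fun (j : σ) (z : Pt ℂ σ) => z j = 0) fun j =>
    Constr.eqz (IsPF.coord j))
  have h2 : ({0} : Set (Pt ℂ σ)) = {z : Pt ℂ σ | ∀ j, z j = 0} := by
    ext z
    simp only [Set.mem_singleton_iff, Set.mem_ofPred_eq]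
    exact ⟨fun h j => congrFun h j, fun h => funext h⟩
  rw [h2]
  exact h1

/-- **The class of the local jets of `f + y z`.** -/
theorem chi_JetE_pair (f : MvPolynomial (Fin n) ℂ) {E : Set (AlgebraicClosure ℂ)} (hE : CE E)
    (k m : ℕ) :
    M.χ _ (JetE (addyz f) {0} E k (m + 1)) = M.χ _ (JetE f {0} E k (m + 1)) * M.L ^ (m + 2) +
      ∑ i ∈ Finset.range m, (M.L - 1) * M.L ^ (m + 1) *
        (M.χ (Fin 1) {z | z 0 ∈ E} * M.χ _ (TJ f {0} (i + 2) (m + 1))) := by
  have h1 := chi_PSL M m (constr_SE (constr_zero (σ := Fin n)) hE (m + 1)) (isPF_cw f k (m + 1))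
  rw [Vc_topE] at h1
  rw [Finset.sum_congr rfl fun i hi => by
    rw [chi_VcE M f constr_zero hE k (m + 1) (i + 2) (by have := Finset.mem_range.1 hi; omega)]]
    at h1
  rw [← h1]
  refine M.iso _ _ (constr_JetE constr_zero hE _ k (m + 1))
    (constr_PSL (constr_SE constr_zero hE (m + 1)) (isPF_cw f k (m + 1)) (m + 1))
    (fun z => Sum.elim (Sum.elim (fun _ => z (Sum.inl ()))
      (fun p => z (Sum.inr (Fin.castAdd 2 p.1, p.2))))
      (Sum.elim (fun a => z (Sum.inr (Fin.natAdd n 0, a)))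
        fun a => z (Sum.inr (Fin.natAdd n 1, a))))
    (fun w => Sum.elim (fun _ => w (Sum.inl (Sum.inl ()))) fun p =>
      Fin.addCases (fun a => w (Sum.inl (Sum.inr (a, p.2))))
        (fun b => Fin.cases (w (Sum.inr (Sum.inl p.2))) (fun _ => w (Sum.inr (Sum.inr p.2))) b) p.1)
    (regularOn_poly (fun i => ?_) _) (regularOn_poly (fun i => ?_) _) ?_ ?_ ?_ ?_
  · rcases i with (i | i) | i | i
    · exact IsPF.coord _
    · exact IsPF.coord _
    · exact IsPF.coord _
    · exact IsPF.coord _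
  · rcases i with i | ⟨i, a⟩
    · exact IsPF.coord _
    · refine Fin.addCases (fun i => ?_) (fun b => ?_) i
      · simp only [Sum.elim_inr, Fin.addCases_left]
        exact IsPF.coord _
      · simp only [Sum.elim_inr, Fin.addCases_right]
        refine Fin.cases ?_ (fun b => ?_) b
        · exact IsPF.coord _
        · exact IsPF.coord _
  · intro z hz
    exact (mem_JetE_pair f E k z _ rfl (fun _ => rfl) (fun _ => rfl) fun _ => rfl).1 hz
  · intro w hw
    refine (mem_JetE_pair f E k _ w rfl (fun p => ?_) (fun a => ?_) fun a => ?_).2 hw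
    · simp only [Sum.elim_inr, Fin.addCases_left]
    · simp only [Sum.elim_inr, Fin.addCases_right]
      rfl
    · simp only [Sum.elim_inr, Fin.addCases_right]
      rfl
  · intro z _
    funext i
    rcases i with i | ⟨i, a⟩
    · rfl
    · refine Fin.addCases (fun i => ?_) (fun b => ?_) i
      · simp only [Sum.elim_inr, Fin.addCases_left, Sum.elim_inl]
      · simp only [Sum.elim_inr, Fin.addCases_right, Sum.elim_inl]
        fin_cases b
        · rfl
        · rfl
  · intro w _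
    funext i
    rcases i with (i | i) | i | i
    · rfl
    · simp only [Sum.elim_inl, Sum.elim_inr, Fin.addCases_left]
    · simp only [Sum.elim_inl, Sum.elim_inr, Fin.addCases_right]
      rfl
    · simp only [Sum.elim_inr, Fin.addCases_right]
      rfl

end local_

end Pool.Agent.Q223.TW
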