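import Pool.Agent.Q223.TW.DescK

/-!
# The local motivic zeta function at a point
-/

set_option autoImplicit false
set_option linter.unusedSectionVars false

namespace Pool.Agent.Q223.TW.LK

open MvPolynomial
open Pool.Agent.W428.MOT (Pt Constr ratRing Lu MK K0 geo zeta Jet)
open Pool.Agent.W375.MG (ratRing_mono good_units good_one zetaG JetG)
open Pool.Agent.W63.MTFin (geo_mul geo_mem X_mem C_mem)
open Pool.Agent.Y229.MS (addyz CE ce_good itr fst' shn shn_pos rescale_mem shn_union shn_shn
  rescale_C' rescale_X' zeta_iso)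
open Pool.Agent.TH192.MT (JetS)

variable {K : Type} [Field K]

/-- the point as a geometric point -/
noncomputable def pt {n : ℕ} (x : Fin n → K) : Pt K (Fin n) := fun i => algebraMap K (AlgebraicClosure K) (x i)

theorem zeta_eqG {n : ℕ} (f : MvPolynomial (Fin n) K) (x : Fin n → K) :
    zeta f x = zetaG f {pt x} {1} - PowerSeries.C (PowerSeries.coeff 0 (zetaG f {pt x} {1})) := by
  ext d
  rw [map_sub, PowerSeries.coeff_C]
  by_cases hd : d = 0
  · subst hd
    rw [if_pos rfl, sub_self, zeta, PowerSeries.coeff_mk, if_pos rfl]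
  · rw [if_neg hd, sub_zero, zeta, PowerSeries.coeff_mk, if_neg hd, zetaG, PowerSeries.coeff_mk]
    have h3 : Jet f x d = JetG f {pt x} {1} d := by
      ext z
      simp only [Jet, JetG, Set.mem_ofPred_eq, Set.mem_singleton_iff, funext_iff, pt]
      refine and_congr_right fun _ => ?_
      constructor
      · intro h
        refine ⟨fun j hj => ?_, ?_⟩
        · rw [h j hj.le, if_neg (by omega)]
        · rw [h d le_rfl, if_pos rfl]
      · rintro ⟨h1, h2⟩ j hj
        by_cases h : j = d
        · rw [h, h2, if_pos rfl]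
        · rw [h1 j (by omega), if_neg h]
    rw [h3]

theorem constr_pt' {n : ℕ} (x : Fin n → K) : Constr ({pt x} : Set (Pt K (Fin n))) :=
  Pool.Agent.W425.MM.constr_pt x

/-- isomorphisms -/
theorem zeta_pt [CharZero K] {a b : ℕ} (hab : a = b)
    (ψ : MvPolynomial (Fin a) K ≃ₐ[K] MvPolynomial (Fin b) K) (g : MvPolynomial (Fin a) K)
    (x : Fin a → K) : zeta (ψ g) (fun j => eval x (ψ.symm (X j))) = zeta g x := by
  have h1 := zeta_iso Pool.Agent.Z864.MS.three hab ψ g (constr_pt' x) (ce_good (good_one (K := K)))
  have h2 : {w : Pt K (Fin b) | (fun i => aeval w (ψ (X i))) ∈ ({pt x} : Set (Pt K (Fin a)))} =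
      {pt fun j => eval x (ψ.symm (X j))} := by
    have hA : ∀ w : Pt K (Fin b), ∀ q : MvPolynomial (Fin a) K,
        aeval (fun i => aeval w (ψ (X i))) q = aeval w (ψ q) := by
      intro w q
      have e : (aeval (fun i => aeval w (ψ (X i))) : MvPolynomial (Fin a) K →ₐ[K]
          AlgebraicClosure K) = (aeval w).comp ψ.toAlgHom := by
        apply MvPolynomial.algHom_ext
        intro i
        rw [aeval_X]
        rfl
      rw [e]
      rfl
    have hB : ∀ q : MvPolynomial (Fin a) K, aeval (pt x) q =
        algebraMap K (AlgebraicClosure K) (eval x q) := by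
      intro q
      have e := eval₂_comp_left (algebraMap K (AlgebraicClosure K)) (RingHom.id K) x q
      rw [← coe_eval₂Hom, ← coe_eval₂Hom] at e
      rw [aeval_def, eval]
      rw [← coe_eval₂Hom, e]
      rfl
    ext w
    rw [Set.mem_singleton_iff]
    show (fun i => aeval w (ψ (X i))) = pt x ↔ _
    constructor
    · intro h
      funext j
      have h3 := hA w (ψ.symm (X j))
      rw [h, hB, ψ.apply_symm_apply, aeval_X] at h3
      exact h3.symm
    · rintro rfl
      have h3 : ∀ q : MvPolynomial (Fin b) K, aeval (pt fun j => eval x (ψ.symm (X j))) q =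
          algebraMap K (AlgebraicClosure K) (eval x (ψ.symm q)) := by
        intro q
        rw [← hB]
        have e : (aeval (pt fun j => eval x (ψ.symm (X j))) : MvPolynomial (Fin b) K →ₐ[K]
            AlgebraicClosure K) = (aeval (pt x)).comp ψ.symm.toAlgHom := by
          apply MvPolynomial.algHom_ext
          intro i
          rw [aeval_X]
          exact (hB _).symm
        rw [e]
        rfl
      funext i
      rw [h3, ψ.symm_apply_apply, eval_X]
      rfl
  rw [h2] at h1
  rw [zeta_eqG, zeta_eqG, h1]

/-- the translation -/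
noncomputable def tr {n : ℕ} (x : Fin n → K) :
    MvPolynomial (Fin n) K ≃ₐ[K] MvPolynomial (Fin n) K :=
  AlgEquiv.ofAlgHom (aeval fun i => X i + C (x i)) (aeval fun i => X i - C (x i))
    (by
      apply MvPolynomial.algHom_ext
      intro i
      rw [AlgHom.comp_apply, aeval_X, map_sub, aeval_X, AlgHom.id_apply, ← algebraMap_eq,
        AlgHom.commutes, algebraMap_eq, add_sub_cancel_right])
    (by
      apply MvPolynomial.algHom_ext
      intro i
      rw [AlgHom.comp_apply, aeval_X, map_add, aeval_X, AlgHom.id_apply, ← algebraMap_eq,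
        AlgHom.commutes, algebraMap_eq, sub_add_cancel])

theorem zeta_tr [CharZero K] {n : ℕ} (g : MvPolynomial (Fin n) K) (x : Fin n → K) :
    zeta (tr x g) 0 = zeta g x := by
  have h1 := zeta_pt rfl (tr x) g x
  have h2 : (fun j => eval x ((tr x).symm (X j))) = 0 := by
    funext j
    show eval x (aeval (fun i => X i - C (x i)) (X j)) = 0
    rw [aeval_X, map_sub, eval_X, eval_C, sub_self]
  rwa [h2] at h1

theorem coeff_tr {n : ℕ} (g : MvPolynomial (Fin n) K) (x : Fin n → K) :
    coeff 0 (tr x g) = eval x g := by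
  rw [← constantCoeff_eq]
  have e : (constantCoeff : MvPolynomial (Fin n) K →+* K).comp
      ((tr x).toAlgHom : MvPolynomial (Fin n) K →+* MvPolynomial (Fin n) K) = eval x := by
    apply MvPolynomial.ringHom_ext
    · intro a
      show constantCoeff (aeval (fun i => X i + C (x i)) (C a)) = eval x (C a)
      rw [← algebraMap_eq, AlgHom.commutes, algebraMap_eq, constantCoeff_C, eval_C]
    · intro i
      show constantCoeff (aeval (fun i => X i + C (x i)) (X i)) = eval x (X i)
      rw [aeval_X, map_add, constantCoeff_X, constantCoeff_C, eval_X, zero_add]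
  exact DFunLike.congr_fun e g

/-- the local zeta function at the origin -/
theorem zeta_zero [CharZero K] {n : ℕ} (g : MvPolynomial (Fin n) K) :
    zeta g 0 = zetaE g {0} {1} 1 := by
  obtain ⟨M₀, hM₀⟩ := Pool.Agent.W417.MT.K0.main K
  ext d
  rw [zeta, zetaE, PowerSeries.coeff_mk, PowerSeries.coeff_mk]
  split_ifs with hd
  · rfl
  · rw [← hM₀, ← hM₀, chi_JetE_one constr_zero (ce_good (good_one (K := K))), Fintype.card_fin]
    have h3 : Jet g 0 d = JetS g {0} {1} d := by
      ext z
      simp only [Jet, JetS, Set.mem_ofPred_eq, Set.mem_singleton_iff, funext_iff, Pi.zero_apply,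
        map_zero]
      refine and_congr_right fun _ => ?_
      constructor
      · intro h
        refine ⟨fun j hj => ?_, ?_⟩
        · have := h j hj.le
          rw [if_neg (by omega)] at this
          exact this
        · have := h d le_rfl
          rw [if_pos rfl] at this
          exact this
      · rintro ⟨h1, h2⟩ j hj
        by_cases h : j = d
        · rw [if_pos h, h]
          exact h2
        · rw [if_neg h]
          exact h1 j (by omega)
    rw [h3]

/-- the point `(x, 0, …, 0)` -/
def ptI {n : ℕ} (x : Fin n → K) : (j : ℕ) → Fin (n + 2 * j) → K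
  | 0 => x
  | j + 1 => (Fin.append (ptI x j) (fun _ : Fin 2 => (0 : K)) : Fin (n + 2 * j + 2) → K)

theorem tr_addyz {n : ℕ} (g : MvPolynomial (Fin n) K) (x : Fin n → K) :
    tr (Fin.append x (fun _ : Fin 2 => (0 : K))) (addyz g) = addyz (tr x g) := by
  have e : ((tr (Fin.append x (fun _ : Fin 2 => (0 : K)))).toAlgHom.comp
      (rename (Fin.castAdd 2)) : MvPolynomial (Fin n) K →ₐ[K] MvPolynomial (Fin (n + 2)) K) =
      (rename (Fin.castAdd 2)).comp (tr x).toAlgHom := by
    apply MvPolynomial.algHom_ext
    intro i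
    rw [AlgHom.comp_apply, AlgHom.comp_apply, rename_X]
    show aeval (fun i => X i + C (Fin.append x (fun _ : Fin 2 => (0 : K)) i))
      (X (Fin.castAdd 2 i)) = rename (Fin.castAdd 2) (aeval (fun i => X i + C (x i)) (X i))
    rw [aeval_X, aeval_X, map_add, rename_X, rename_C, Fin.append_left]
  have h1 : ∀ j : Fin 2, tr (Fin.append x (fun _ : Fin 2 => (0 : K))) (X (Fin.natAdd n j)) =
      X (Fin.natAdd n j) := by
    intro j
    show aeval (fun i => X i + C (Fin.append x (fun _ : Fin 2 => (0 : K)) i))
      (X (Fin.natAdd n j)) = _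
    rw [aeval_X, Fin.append_right, map_zero, add_zero]
  unfold addyz
  rw [map_add, map_mul, h1, h1]
  congr 1
  exact DFunLike.congr_fun e g

theorem tr_itr {n : ℕ} (f : MvPolynomial (Fin n) K) (x : Fin n → K) :
    ∀ j, tr (ptI x j) (itr f j) = itr (tr x f) j
  | 0 => rfl
  | j + 1 => (tr_addyz (itr f j) (ptI x j)).trans (congrArg addyz (tr_itr f x j))

/-- **The recursion at a point.** -/
theorem rec_pt [CharZero K] {n : ℕ} (f : MvPolynomial (Fin n) K) (x : Fin n → K)
    (h0 : eval x f = 0) : Rec fun j => fst' K * zeta (itr f j) (ptI x j) := by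
  have h1 := rec_zetaE (tr x f) (by rw [coeff_tr, h0]) (ce_good (good_one (K := K)))
  have h2 : ∀ j, zeta (itr f j) (ptI x j) = zetaE (itr (tr x f) j) {0} {1} 1 := by
    intro j
    rw [← zeta_tr, tr_itr, zeta_zero]
  simp only [h2]
  exact h1

end Pool.Agent.Q223.TW.LK
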