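import Pool.Agent.Q223.TW.PairL
import Pool.Agent.Q223.TW.Series

/-!
# The local series for `f + y z`
-/

set_option autoImplicit false
set_option linter.unusedSectionVars false

namespace Pool.Agent.Q223.TW

open MvPolynomial Pool.Agent.W428.MOT Pool.Agent.TH192.MT Pool.Agent.TH192.MU
open Pool.Agent.Q223.ID
open Pool.Agent.W63.MTFin (mapMeas L_mul)
open Pool.Agent.Y229.MS (addyz CE ce_good)
open Pool.Agent.W375.MG (good_units)

/-- the series of the classes of `JetE f W E k d`, `d ≥ 1` -/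
noncomputable def zetaE {σ : Type} [Fintype σ] (f : MvPolynomial σ ℂ) (W : Set (Pt ℂ σ))
    (E : Set (AlgebraicClosure ℂ)) (k : ℕ) : PowerSeries (MK ℂ) :=
  PowerSeries.mk fun d => if d = 0 then 0 else
    algebraMap (K0 ℂ) (MK ℂ) (cls (Unit ⊕ σ × Fin (d + 1)) (JetE f W E k d)) *
      (((Lu ℂ) ^ (-((Fintype.card σ * d : ℕ) : ℤ)) : (MK ℂ)ˣ) : MK ℂ)

/-- the class of `E` -/
noncomputable def cE (E : Set (AlgebraicClosure ℂ)) : MK ℂ :=
  algebraMap (K0 ℂ) (MK ℂ) (cls (Fin 1) {z : Pt ℂ (Fin 1) | z 0 ∈ E})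

section

variable {σ : Type} {R : Type} [CommRing R] (M : Meas ℂ R) [Fintype σ]

theorem chi_TJ_succ {W : Set (Pt ℂ σ)} (hW : Constr W) (f : MvPolynomial σ ℂ) (i N : ℕ)
    (hi : i ≤ N + 1) :
    M.χ _ (TJ f W i (N + 1)) = M.χ _ (TJ f W i N) * M.L ^ Fintype.card σ := by
  refine chi_split M (Equiv.ofBijective _ (lastE_bij σ N)) _ _ (constr_TJ hW f i N)
    fun z => ?_
  have h1 : ∀ k ≤ N, PowerSeries.coeff k (aeval (ar z) f) =
      PowerSeries.coeff k (aeval (ar fun i => z ((Equiv.ofBijective _ (lastE_bij σ N))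
        (Sum.inl i))) f) := by
    refine coeff_congr f N _ _ fun i k hk => ?_
    rw [coeff_ar' _ _ _ (by omega), coeff_ar' _ _ _ (by omega)]
    rfl
  have h0 : (fun i => z (i, (0 : Fin (N + 1 + 1)))) = fun i =>
      z ((Equiv.ofBijective _ (lastE_bij σ N)) (Sum.inl (i, 0))) := by
    funext i
    rfl
  constructor
  · rintro ⟨g, h⟩
    refine ⟨by rw [h0] at g; exact g, fun k hk => ?_⟩
    rw [← h1 k (by omega)]
    exact h k hk
  · rintro ⟨g, h⟩
    refine ⟨by rw [h0]; exact g, fun k hk => ?_⟩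
    rw [h1 k (by omega)]
    exact h k hk

theorem chi_TJ {W : Set (Pt ℂ σ)} (hW : Constr W) (f : MvPolynomial σ ℂ) (N : ℕ) :
    M.χ _ (TJ f W N N) = M.χ _ (JetS f W {c | c ≠ 0} N) + M.χ _ (TJ f W (N + 1) N) := by
  rw [← M.add _ _ (constr_JetS hW (ce_good good_units) f N) (constr_TJ hW f (N + 1) N)]
  · congr 1
    ext z
    simp only [TJ, JetS, Set.mem_union, Set.mem_ofPred_eq]
    constructor
    · rintro ⟨h0, h⟩
      by_cases h1 : PowerSeries.coeff N (aeval (ar z) f) = 0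
      · refine Or.inr ⟨h0, fun k hk => ?_⟩
        rcases Nat.lt_succ_iff_lt_or_eq.1 hk with h2 | rfl
        · exact h k h2
        · exact h1
      · exact Or.inl ⟨h0, h, h1⟩
    · rintro (h | h)
      · exact ⟨h.1, h.2.1⟩
      · exact ⟨h.1, fun k hk => h.2 k (by omega)⟩
  · rw [Set.disjoint_left]
    rintro z ⟨-, -, hj⟩ h
    exact hj (h.2 N (Nat.lt_succ_self N))

end

/-- the class of the jets with origin `0` -/
theorem chi_origin {n : ℕ} {R : Type} [CommRing R] (M : Meas ℂ R) (f : MvPolynomial (Fin n) ℂ)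
    (h0 : coeff 0 f = 0) : M.χ _ (TJ f {0} 1 0) = 1 := by
  have h2 : (TJ f {0} 1 0 : Set (Pt ℂ (Fin n × Fin 1))) = {z | ∀ p, z p = 0} := by
    ext z
    constructor
    · rintro ⟨h, -⟩ ⟨i, k⟩
      have hk : k = 0 := Fin.ext (by have := k.2; omega)
      rw [hk]
      exact congrFun h i
    · intro h
      refine ⟨funext fun i => h _, fun j hj => ?_⟩
      obtain rfl : j = 0 := by omega
      have h3 : ar z = 0 := by
        funext i
        ext k
        rw [coeff_ar]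
        split_ifs
        · rw [h]
          rfl
        · rfl
      rw [h3, MvPolynomial.aeval_zero, constantCoeff_eq, h0, map_zero, map_zero]
  rw [h2, ← M.point (ι := Empty)]
  refine M.iso _ _ ?_ Constr.univ (fun _ i => i.elim) (fun _ _ => 0) (fun i => i.elim)
    (fun i => IsPF.zero.isRF _) (fun _ _ => trivial) (fun _ _ _ => rfl) ?_ ?_
  · exact Constr.all fun i => Constr.eqz (IsPF.coord i)
  · intro z hz
    funext i
    exact (hz i).symm
  · intro w _
    funext i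
    exact i.elim

/-- **The local series for `f + y z`.** -/
theorem zetaE_pair {n : ℕ} (f : MvPolynomial (Fin n) ℂ) (h0 : coeff 0 f = 0)
    {E : Set (AlgebraicClosure ℂ)} (hE : CE E) (k : ℕ) :
    zetaE (addyz f) {0} E k =
      PowerSeries.C ((Lu ℂ : (MK ℂ)ˣ) : MK ℂ) *
        PowerSeries.rescale (((Lu ℂ)⁻¹ : (MK ℂ)ˣ) : MK ℂ) (zetaE f {0} E k) +
      PowerSeries.C ((((Lu ℂ : (MK ℂ)ˣ) : MK ℂ) - 1) * cE E) *
        (geoS (((Lu ℂ)⁻¹ : (MK ℂ)ˣ) : MK ℂ) * geoS (((Lu ℂ)⁻¹ : (MK ℂ)ˣ) : MK ℂ) *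
        (PowerSeries.C (((Lu ℂ)⁻¹ : (MK ℂ)ˣ) : MK ℂ) * PowerSeries.X *
          (PowerSeries.C (((Lu ℂ)⁻¹ : (MK ℂ)ˣ) : MK ℂ) * PowerSeries.X -
            PowerSeries.rescale (((Lu ℂ)⁻¹ : (MK ℂ)ˣ) : MK ℂ)
              (zetaE f {0} {c | c ≠ 0} 1)))) := by
  obtain ⟨M₀, hM₀⟩ := Pool.Agent.W417.MT.K0.main ℂ
  set M := mapMeas M₀ (algebraMap (K0 ℂ) (MK ℂ)) with hM
  set Y : MK ℂ := (((Lu ℂ)⁻¹ : (MK ℂ)ˣ) : MK ℂ) with hY
  set L : MK ℂ := ((Lu ℂ : (MK ℂ)ˣ) : MK ℂ) with hLdef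
  have hLY : L * Y = 1 := Units.mul_inv _
  have hML : M.L = L := by
    have hL : M.L * Y = 1 := L_mul hM₀
    calc M.L = M.L * (L * Y) := by rw [hLY, mul_one]
      _ = (M.L * Y) * L := by ring
      _ = _ := by rw [hL, one_mul]
  have hLYn : ∀ m, L ^ m * Y ^ m = 1 := fun m => by rw [← mul_pow, hLY, one_pow]
  have hcE : cE E = M.χ (Fin 1) {z | z 0 ∈ E} := by
    rw [cE, ← hM₀]
    rfl
  set T : ℕ → ℕ → MK ℂ := fun i N => M.χ _ (TJ f {0} i N) with hT
  set A : ℕ → MK ℂ := fun d => M.χ _ (JetS f {0} {c | c ≠ 0} d) * Y ^ (n * d) with hA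
  set b : ℕ → MK ℂ := fun i => T i i * Y ^ (n * i) with hb
  have hTs : ∀ i N, i ≤ N + 1 → T i (N + 1) = T i N * L ^ n := by
    intro i N hi
    rw [hT]
    beta_reduce
    rw [chi_TJ_succ M constr_zero _ i N hi, hML, Fintype.card_fin]
  have hTb : ∀ i m, T i (i + m) * Y ^ (n * (i + m)) = b i := by
    intro i m
    induction m with
    | zero => rfl
    | succ m ih =>
      rw [← ih, show i + (m + 1) = i + m + 1 by ring, hTs i (i + m) (by omega),
        show n * (i + m + 1) = n + n * (i + m) by ring, pow_add]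
      linear_combination (T i (i + m) * Y ^ (n * (i + m))) * hLYn n
  have hb1 : b 1 = 1 := by
    rw [hb]
    beta_reduce
    rw [hTs 1 0 le_rfl, hT]
    beta_reduce
    rw [chi_origin M f h0, mul_one, one_mul, hLYn]
  have hbs : ∀ d, b (d + 1) = b d - A d := by
    intro d
    have h1 := chi_TJ M (constr_zero (σ := Fin n)) f d
    rw [hb, hA]
    beta_reduce
    rw [hTs (d + 1) d le_rfl, show n * (d + 1) = n + n * d by ring, pow_add]
    have h2 : T d d = M.χ _ (JetS f {0} {c | c ≠ 0} d) + T (d + 1) d := h1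
    rw [h2]
    linear_combination (T (d + 1) d * Y ^ (n * d)) * hLYn n
  have hz : ∀ (m : ℕ) (g : MvPolynomial (Fin m) ℂ) (W) (E') (k d : ℕ),
      PowerSeries.coeff d (zetaE g W E' k) = if d = 0 then 0 else
        M.χ _ (JetE g W E' k d) * Y ^ (m * d) := by
    intro m g W E' k d
    rw [zetaE, PowerSeries.coeff_mk, zpow_neg, zpow_natCast, ← inv_pow,
      Units.val_pow_eq_pow_val, ← hM₀, Fintype.card_fin]
    rfl
  have hF : ∀ m, M.χ _ (JetE (addyz f) {0} E k (m + 1)) * Y ^ ((n + 2) * (m + 1)) =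
      Y ^ (m + 1) * (L * (M.χ _ (JetE f {0} E k (m + 1)) * Y ^ (n * (m + 1))) +
        (L - 1) * cE E * ∑ i ∈ Finset.range m, b (i + 2)) := by
    intro m
    rw [chi_JetE_pair M f hE k m, hML, ← hcE, Finset.mul_sum]
    have h1 : ∀ i ∈ Finset.range m, (L - 1) * L ^ (m + 1) * (cE E *
        M.χ _ (TJ f {0} (i + 2) (m + 1))) * Y ^ ((n + 2) * (m + 1)) =
        Y ^ (m + 1) * ((L - 1) * cE E * b (i + 2)) := by
      intro i hi
      have h2 := hTb (i + 2) (m + 1 - (i + 2))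
      rw [Nat.add_sub_cancel' (by have := Finset.mem_range.1 hi; omega)] at h2
      rw [← h2, show (n + 2) * (m + 1) = n * (m + 1) + (m + 1) + (m + 1) by ring, pow_add, pow_add]
      linear_combination ((L - 1) * cE E * T (i + 2) (m + 1) * Y ^ (n * (m + 1)) *
        Y ^ (m + 1)) * hLYn (m + 1)
    rw [add_mul, Finset.sum_mul, Finset.sum_congr rfl h1, ← Finset.mul_sum,
      show (n + 2) * (m + 1) = n * (m + 1) + (m + 1) + (m + 1) by ring,
      pow_add Y (n * (m + 1) + (m + 1)) (m + 1), pow_add Y (n * (m + 1)) (m + 1),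
      pow_succ L (m + 1)]
    linear_combination (M.χ _ (JetE f {0} E k (m + 1)) * Y ^ (n * (m + 1)) * L *
      Y ^ (m + 1)) * hLYn (m + 1)
  set D : PowerSeries (MK ℂ) := PowerSeries.mk fun d => Y ^ d * ∑ i ∈ Finset.range (d - 1),
    b (i + 2) with hD
  set B : PowerSeries (MK ℂ) := PowerSeries.mk fun d => if d ≤ 1 then 0 else Y ^ d * b d with hB
  have r1 : (1 - PowerSeries.C Y * PowerSeries.X) * D = B := by
    ext d
    rcases d with _ | _ | d
    · rw [coeff_zero_lin, hD, hB, PowerSeries.coeff_mk, PowerSeries.coeff_mk]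
      simp
    · rw [coeff_succ_lin, hD, hB, PowerSeries.coeff_mk, PowerSeries.coeff_mk,
        PowerSeries.coeff_mk]
      simp
    · rw [coeff_succ_lin, hD, hB, PowerSeries.coeff_mk, PowerSeries.coeff_mk,
        PowerSeries.coeff_mk, if_neg (by omega), show d + 1 + 1 - 1 = d + 1 from rfl,
        show d + 1 - 1 = d from rfl, Finset.sum_range_succ _ d, pow_succ Y (d + 1)]
      ring
  have r2 : (1 - PowerSeries.C Y * PowerSeries.X) * B =
      PowerSeries.C Y * PowerSeries.X * (PowerSeries.C Y * PowerSeries.X -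
        PowerSeries.rescale Y (zetaE f {0} {c | c ≠ 0} 1)) := by
    ext d
    rcases d with _ | _ | d
    · rw [coeff_zero_lin, hB, PowerSeries.coeff_mk, if_pos (by omega), mul_assoc,
        PowerSeries.coeff_C_mul, PowerSeries.coeff_zero_X_mul, mul_zero]
    · rw [coeff_succ_lin, hB, PowerSeries.coeff_mk, PowerSeries.coeff_mk, if_pos (by omega),
        if_pos (by omega), mul_assoc, PowerSeries.coeff_C_mul, PowerSeries.coeff_succ_X_mul,
        map_sub, PowerSeries.coeff_C_mul, PowerSeries.coeff_zero_X, PowerSeries.coeff_rescale, hz,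
        if_pos rfl]
      ring
    · rw [coeff_succ_lin, hB, PowerSeries.coeff_mk, PowerSeries.coeff_mk, if_neg (by omega),
        mul_assoc, PowerSeries.coeff_C_mul, PowerSeries.coeff_succ_X_mul,
        map_sub, PowerSeries.coeff_C_mul, PowerSeries.coeff_X, PowerSeries.coeff_rescale, hz,
        if_neg (Nat.succ_ne_zero d), chi_JetE_one constr_zero (ce_good good_units) M f (d + 1)]
      rcases d with _ | d
      · rw [if_pos (by omega), if_pos rfl, hbs 1, hb1, hA]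
        ring
      · rw [if_neg (by omega), if_neg (by omega), hbs (d + 1 + 1), hA]
        ring
  have r3 : D = geoS Y * geoS Y * (PowerSeries.C Y * PowerSeries.X * (PowerSeries.C Y *
      PowerSeries.X - PowerSeries.rescale Y (zetaE f {0} {c | c ≠ 0} 1))) := by
    rw [← r2, ← r1]
    have h1 := geoS_mul Y
    linear_combination (-(geoS Y * (1 - PowerSeries.C Y * PowerSeries.X) * D) - D) * h1
  have r4 : zetaE (addyz f) {0} E k = PowerSeries.C L * PowerSeries.rescale Y (zetaE f {0} E k) +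
      PowerSeries.C ((L - 1) * cE E) * D := by
    ext d
    rw [map_add, PowerSeries.coeff_C_mul, PowerSeries.coeff_C_mul,
      PowerSeries.coeff_rescale, hz, hz, hD, PowerSeries.coeff_mk]
    rcases d with _ | d
    · rw [if_pos rfl, if_pos rfl]
      simp
    · rw [if_neg (Nat.succ_ne_zero d), if_neg (Nat.succ_ne_zero d), hF,
        show d + 1 - 1 = d from rfl]
      ring
  rw [r4, r3]

/-! ### Invariance under isomorphisms -/

theorem chi_JetE_iso {R : Type} [CommRing R] (M : Meas ℂ R) {σ τ : Type} [Fintype σ] [Fintype τ]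
    (ψ : MvPolynomial σ ℂ ≃ₐ[ℂ] MvPolynomial τ ℂ) (hψ : ∀ i, constantCoeff (ψ (X i)) = 0)
    (hψ' : ∀ i, constantCoeff (ψ.symm (X i)) = 0) (f : MvPolynomial σ ℂ)
    {E : Set (AlgebraicClosure ℂ)} (hE : CE E) (k N : ℕ) :
    M.χ _ (JetE (ψ f) {0} E k N) = M.χ _ (JetE f {0} E k N) := by
  have h1 : ∀ g, (ψ : MvPolynomial σ ℂ →ₐ[ℂ] MvPolynomial τ ℂ)
      ((ψ.symm : MvPolynomial τ ℂ →ₐ[ℂ] MvPolynomial σ ℂ) g) = g :=
    fun g => ψ.apply_symm_apply g
  have h2 : ∀ g, (ψ.symm : MvPolynomial τ ℂ →ₐ[ℂ] MvPolynomial σ ℂ)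
      ((ψ : MvPolynomial σ ℂ →ₐ[ℂ] MvPolynomial τ ℂ) g) = g :=
    fun g => ψ.symm_apply_apply g
  have key : ∀ {σ τ : Type} (φ : MvPolynomial σ ℂ →ₐ[ℂ] MvPolynomial τ ℂ) (p),
      IsPF (fun z : Pt ℂ (Unit ⊕ τ × Fin (N + 1)) =>
        (Sum.elim (fun u => z (Sum.inl u)) (Tm φ N fun i => z (Sum.inr i)) :
          Unit ⊕ σ × Fin (N + 1) → AlgebraicClosure ℂ) p) := by
    intro σ τ φ p
    rcases p with p | p
    · exact IsPF.coord _
    · exact (isPF_Tm φ N p).comp (fun z : Pt ℂ (Unit ⊕ τ × Fin (N + 1)) =>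
        fun i => z (Sum.inr i)) fun i => IsPF.coord _
  have org : ∀ {σ τ : Type} (φ : MvPolynomial σ ℂ →ₐ[ℂ] MvPolynomial τ ℂ),
      (∀ i, constantCoeff (φ (X i)) = 0) → ∀ z : Pt ℂ (τ × Fin (N + 1)),
      (fun i => z (i, 0)) ∈ ({0} : Set (Pt ℂ τ)) →
      (fun i => Tm φ N z (i, 0)) ∈ ({0} : Set (Pt ℂ σ)) := by
    intro σ τ φ hφ z hz
    funext i
    change PowerSeries.coeff 0 (aeval (ar z) (φ (X i))) = 0
    have h3 := coeff_congr (φ (X i)) 0 (ar z) 0 (fun i k hk => by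
      obtain rfl : k = 0 := by omega
      rw [coeff_ar' _ _ _ (Nat.succ_pos N)]
      have := congrFun hz i
      simpa using this) 0 le_rfl
    rw [h3, MvPolynomial.aeval_zero, hφ, map_zero, map_zero]
  refine M.iso _ _ (constr_JetE constr_zero hE _ k N) (constr_JetE constr_zero hE _ k N)
    (fun z => Sum.elim (fun u => z (Sum.inl u))
      (Tm (ψ : MvPolynomial σ ℂ →ₐ[ℂ] MvPolynomial τ ℂ) N fun i => z (Sum.inr i)))
    (fun z => Sum.elim (fun u => z (Sum.inl u))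
      (Tm (ψ.symm : MvPolynomial τ ℂ →ₐ[ℂ] MvPolynomial σ ℂ) N fun i => z (Sum.inr i)))
    (regularOn_poly (key _) _) (regularOn_poly (key _) _) ?_ ?_ ?_ ?_
  · rintro z ⟨g0, g1, g2, g3⟩
    refine ⟨g0, org _ hψ _ g1, fun j hj => ?_, ?_⟩
    · change PowerSeries.coeff j (aeval (ar (Tm _ N fun i => z (Sum.inr i))) f) = 0
      rw [coeff_Tm _ _ _ _ hj.le]
      exact g2 j hj
    · change PowerSeries.coeff N (aeval (ar (Tm _ N fun i => z (Sum.inr i))) f) =
        z (Sum.inl ()) ^ k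
      rw [coeff_Tm _ _ _ _ le_rfl]
      exact g3
  · rintro z ⟨g0, g1, g2, g3⟩
    have e3 : (ψ.symm : MvPolynomial τ ℂ →ₐ[ℂ] MvPolynomial σ ℂ) (ψ f) = f :=
      ψ.symm_apply_apply f
    refine ⟨g0, org _ hψ' _ g1, fun j hj => ?_, ?_⟩
    · change PowerSeries.coeff j (aeval (ar (Tm _ N fun i => z (Sum.inr i))) (ψ f)) = 0
      rw [coeff_Tm _ _ _ _ hj.le, e3]
      exact g2 j hj
    · change PowerSeries.coeff N (aeval (ar (Tm _ N fun i => z (Sum.inr i))) (ψ f)) =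
        z (Sum.inl ()) ^ k
      rw [coeff_Tm _ _ _ _ le_rfl, e3]
      exact g3
  · intro z _
    funext i
    rcases i with i | i
    · rfl
    · exact congrFun (Tm_Tm _ _ h1 fun i => z (Sum.inr i)) i
  · intro z _
    funext i
    rcases i with i | i
    · rfl
    · exact congrFun (Tm_Tm _ _ h2 fun i => z (Sum.inr i)) i

theorem zetaE_iso {σ τ : Type} [Fintype σ] [Fintype τ]
    (ψ : MvPolynomial σ ℂ ≃ₐ[ℂ] MvPolynomial τ ℂ) (hψ : ∀ i, constantCoeff (ψ (X i)) = 0)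
    (hψ' : ∀ i, constantCoeff (ψ.symm (X i)) = 0)
    (hc : Fintype.card τ = Fintype.card σ) (f : MvPolynomial σ ℂ)
    {E : Set (AlgebraicClosure ℂ)} (hE : CE E) (k : ℕ) :
    zetaE (ψ f) {0} E k = zetaE f {0} E k := by
  obtain ⟨M₀, hM₀⟩ := Pool.Agent.W417.MT.K0.main ℂ
  ext d
  rw [zetaE, zetaE, PowerSeries.coeff_mk, PowerSeries.coeff_mk, ← hM₀, ← hM₀,
    chi_JetE_iso M₀ ψ hψ hψ' f hE k d, hc]

end Pool.Agent.Q223.TW
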